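import Mathlib
import Pool.Agent.H79.LU.H19PS_A

/-! Artin-Schreier symbol algebras. -/

set_option autoImplicit false
set_option linter.all false

open scoped TensorProduct
open Polynomial

noncomputable section

namespace Pool.Agent.H19PS

universe u

/-- defining relations -/
inductive PRel (R : Type u) [CommRing R] (p : ℕ) (a b : R) :
    FreeAlgebra R (Fin 2) → FreeAlgebra R (Fin 2) → Prop
  | xl : PRel R p a b (FreeAlgebra.ι R 0 ^ p) (FreeAlgebra.ι R 0 + algebraMap R _ a)
  | yl : PRel R p a b (FreeAlgebra.ι R 1 ^ p) (algebraMap R _ b)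
  | yx : PRel R p a b (FreeAlgebra.ι R 1 * FreeAlgebra.ι R 0)
      (FreeAlgebra.ι R 0 * FreeAlgebra.ι R 1 + FreeAlgebra.ι R 1)

/-- the algebra with generators `x, y` and relations `x^p - x = a`, `y^p = b`, `y x = (x + 1) y` -/
def PS (R : Type u) [CommRing R] (p : ℕ) (a b : R) : Type u := RingQuot (PRel R p a b)

section defs

variable {R : Type u} [CommRing R] {p : ℕ} {a b : R}

instance : Ring (PS R p a b) := inferInstanceAs (Ring (RingQuot (PRel R p a b)))

instance : Algebra R (PS R p a b) := inferInstanceAs (Algebra R (RingQuot (PRel R p a b)))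

/-- generator -/
def px (R : Type u) [CommRing R] (p : ℕ) (a b : R) : PS R p a b :=
  RingQuot.mkAlgHom R (PRel R p a b) (FreeAlgebra.ι R 0)

/-- generator -/
def py (R : Type u) [CommRing R] (p : ℕ) (a b : R) : PS R p a b :=
  RingQuot.mkAlgHom R (PRel R p a b) (FreeAlgebra.ι R 1)

theorem px_pow : px R p a b ^ p = px R p a b + algebraMap R _ a := by
  have := RingQuot.mkAlgHom_rel R (PRel.xl (R := R) (p := p) (a := a) (b := b))
  rw [map_pow, map_add, AlgHom.commutes] at this
  exact this

theorem py_pow : py R p a b ^ p = algebraMap R _ b := by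
  have := RingQuot.mkAlgHom_rel R (PRel.yl (R := R) (p := p) (a := a) (b := b))
  rw [map_pow, AlgHom.commutes] at this
  exact this

theorem py_px : py R p a b * px R p a b = px R p a b * py R p a b + py R p a b := by
  have := RingQuot.mkAlgHom_rel R (PRel.yx (R := R) (p := p) (a := a) (b := b))
  rw [map_mul, map_add, map_mul] at this
  exact this

section lift

variable {B : Type*} [Ring B] [Algebra R B] (x y : B) (hx : x ^ p = x + algebraMap R B a)
  (hy : y ^ p = algebraMap R B b) (hyx : y * x = x * y + y)

/-- universal property -/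
def psLift : PS R p a b →ₐ[R] B :=
  RingQuot.liftAlgHom R ⟨FreeAlgebra.lift R ![x, y], by
    intro u v h
    cases h with
    | xl => simpa using hx
    | yl => simpa using hy
    | yx => simpa using hyx⟩

theorem psLift_x : psLift x y hx hy hyx (px R p a b) = x := by
  unfold psLift px
  erw [RingQuot.liftAlgHom_mkAlgHom_apply]
  simp

theorem psLift_y : psLift x y hx hy hyx (py R p a b) = y := by
  unfold psLift py
  erw [RingQuot.liftAlgHom_mkAlgHom_apply]
  simp

end lift

theorem ps_hom_ext {B : Type*} [Ring B] [Algebra R B] (f g : PS R p a b →ₐ[R] B)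
    (h1 : f (px R p a b) = g (px R p a b)) (h2 : f (py R p a b) = g (py R p a b)) :
    f = g := by
  apply RingQuot.ringQuot_ext' R
  apply FreeAlgebra.hom_ext
  funext i
  fin_cases i
  · exact h1
  · exact h2

end defs

variable {K : Type u} [Field K] {p : ℕ} [hp : Fact p.Prime] [CharP K p] {a b : K}

/-- the matrix model -/
theorem model (F : Type u) [Field F] [Algebra K F] (α β : F) (hα : α ^ p = α + algebraMap K F a)
    (hβ : β ^ p = algebraMap K F b) :
    ∃ X Y : Module.End F (ZMod p → F), X ^ p = X + algebraMap K _ a ∧ Y ^ p = algebraMap K _ b ∧ Y * X = X * Y + Y := by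
  haveI : CharP F p := charP_of_injective_algebraMap (algebraMap K F).injective p
  let X : Module.End F (ZMod p → F) :=
    { toFun := fun f j => (α + ZMod.castHom (dvd_refl p) F j) * f j
      map_add' := fun f g => funext fun j => mul_add _ _ _
      map_smul' := fun c f => funext fun j => mul_left_comm _ _ _ }
  let Y : Module.End F (ZMod p → F) :=
    { toFun := fun f j => β * f (j + 1)
      map_add' := fun f g => funext fun j => mul_add _ _ _
      map_smul' := fun c f => funext fun j => mul_left_comm _ _ _ }
  have hXk : ∀ (k : ℕ) (f : ZMod p → F) (j : ZMod p), (X ^ k) f j = (α + ZMod.castHom (dvd_refl p) F j) ^ k * f j := by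
    intro k
    induction k with
    | zero => intro f j; simp
    | succ k ih =>
      intro f j
      rw [pow_succ, Module.End.mul_apply, ih]
      change _ * ((α + ZMod.castHom (dvd_refl p) F j) * f j) = _
      ring
  have hYk : ∀ (k : ℕ) (f : ZMod p → F) (j : ZMod p), (Y ^ k) f j = β ^ k * f (j + k) := by
    intro k
    induction k with
    | zero => intro f j; simp
    | succ k ih =>
      intro f j
      rw [pow_succ, Module.End.mul_apply, ih]
      change _ * (β * f (j + k + 1)) = _
      rw [Nat.cast_succ, add_assoc]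
      ring
  refine ⟨X, Y, ?_, ?_, ?_⟩
  · refine LinearMap.ext fun f => funext fun j => ?_
    rw [hXk, add_pow_char, hα, ← map_pow, ZMod.pow_card]
    change _ = (α + ZMod.castHom (dvd_refl p) F j) * f j + a • f j
    rw [Algebra.smul_def]
    ring
  · refine LinearMap.ext fun f => funext fun j => ?_
    rw [hYk, hβ, CharP.cast_eq_zero, add_zero]
    change _ = b • f j
    rw [Algebra.smul_def]
  · refine LinearMap.ext fun f => funext fun j => ?_
    change β * ((α + ZMod.castHom (dvd_refl p) F (j + 1)) * f (j + 1)) =
      (α + ZMod.castHom (dvd_refl p) F j) * (β * f (j + 1)) + β * f (j + 1)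
    rw [map_add, map_one]
    ring

theorem ps_nontrivial (a b : K) : Nontrivial (PS K p a b) := by
  let W := AlgebraicClosure K
  obtain ⟨α, hα⟩ : ∃ α : W, α ^ p = α + algebraMap K W a := by
    obtain ⟨α, hα⟩ := IsAlgClosed.exists_root (X ^ p - (X + C (algebraMap K W a)) : W[X]) (by
      rw [degree_sub_eq_left_of_degree_lt]
      · rw [degree_X_pow]
        exact_mod_cast hp.out.ne_zero
      · rw [degree_X_pow, degree_X_add_C]
        exact_mod_cast hp.out.one_lt)
    refine ⟨α, ?_⟩
    rw [IsRoot.def] at hα
    simpa [sub_eq_zero] using hα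
  obtain ⟨β, hβ⟩ := IsAlgClosed.exists_pow_nat_eq (algebraMap K W b) hp.out.pos
  obtain ⟨X, Y, h1, h2, h3⟩ := model (K := K) (p := p) (a := a) (b := b) W α β hα hβ
  exact (psLift X Y h1 h2 h3).toRingHom.domain_nontrivial

theorem ps_basis (a b : K) (hb : b ≠ 0) : ∃ e : Module.Basis (Fin p × Fin p) K (PS K p a b),
    ∀ ij, e ij = px K p a b ^ (ij.1 : ℕ) * py K p a b ^ (ij.2 : ℕ) := by
  haveI := ps_nontrivial (p := p) a b
  have hx := px_pow (R := K) (p := p) (a := a) (b := b)
  have hy := py_pow (R := K) (p := p) (a := a) (b := b)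
  have hyx := py_px (R := K) (p := p) (a := a) (b := b)
  have hext := fun (B : Type u) [Ring B] [Algebra K B] => ps_hom_ext (R := K) (p := p) (a := a) (b := b) (B := B)
  set x := px K p a b with hxd
  set y := py K p a b with hyd
  set v : Fin p × Fin p → PS K p a b := fun ij => x ^ (ij.1 : ℕ) * y ^ (ij.2 : ℕ) with hv
  have hli : LinearIndependent K v := by
    rw [Fintype.linearIndependent_iff]
    intro c hc ij
    have h1 : ∀ j : Fin p, aeval x (∑ i : Fin p, C (c (i, j)) * X ^ (i : ℕ)) = ∑ i : Fin p, c (i, j) • x ^ (i : ℕ) := by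
      intro j
      rw [map_sum]
      refine Finset.sum_congr rfl fun i _ => ?_
      rw [map_mul, aeval_C, map_pow, aeval_X, Algebra.smul_def]
    have h2 := key_indep hb hx hy hyx (fun j => ∑ i : Fin p, C (c (i, j)) * X ^ (i : ℕ)) (by
      intro j
      refine (Polynomial.degree_sum_le _ _).trans_lt ?_
      rw [Finset.sup_lt_iff (by exact_mod_cast WithBot.bot_lt_coe p)]
      intro i _
      refine (Polynomial.degree_C_mul_X_pow_le _ _).trans_lt ?_
      exact_mod_cast i.2) (by
      simp only [h1]
      rw [← hc, Fintype.sum_prod_type, Finset.sum_comm]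
      refine Finset.sum_congr rfl fun j _ => ?_
      rw [Finset.sum_mul]
      refine Finset.sum_congr rfl fun i _ => ?_
      rw [smul_mul_assoc]) ij.2
    have h3 := congrArg (fun q => coeff q (ij.1 : ℕ)) h2
    simp only [finset_sum_coeff, coeff_C_mul, coeff_X_pow, mul_ite, mul_one, mul_zero, coeff_zero] at h3
    rw [Finset.sum_eq_single ij.1] at h3
    · simpa using h3
    · intro i _ hi
      rw [if_neg]
      intro h
      exact hi (Fin.ext h.symm)
    · intro h
      exact absurd (Finset.mem_univ _) h
  -- spanning
  have hmon : (X ^ p - (X + C a) : K[X]).Monic := by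
    refine monic_X_pow_sub ?_
    rw [degree_X_add_C]
    exact_mod_cast hp.out.one_lt
  have hmemf : ∀ (f : K[X]) (j : ℕ), aeval x f * y ^ j ∈ Submodule.span K (Set.range v) := by
    intro f j
    have h1 : aeval x f = aeval x (f %ₘ (X ^ p - (X + C a) : K[X])) := by
      rw [aeval_modByMonic_eq_self_of_root]
      rw [map_sub, map_pow, map_add, aeval_X, aeval_C, hx, sub_self]
    have hd : (f %ₘ (X ^ p - (X + C a) : K[X])).natDegree < p := by
      have h2 := natDegree_modByMonic_lt f hmon (by
        intro h
        have := congrArg natDegree h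
        rw [natDegree_sub_eq_left_of_natDegree_lt, natDegree_X_pow, natDegree_one] at this
        · exact hp.out.ne_zero this
        · rw [natDegree_X_pow, natDegree_X_add_C]
          exact hp.out.one_lt)
      rwa [natDegree_sub_eq_left_of_natDegree_lt, natDegree_X_pow] at h2
      rw [natDegree_X_pow, natDegree_X_add_C]
      exact hp.out.one_lt
    have hyj : y ^ j = (b ^ (j / p)) • y ^ (j % p) := by
      conv_lhs => rw [← Nat.div_add_mod j p]
      rw [pow_add, pow_mul, hy, ← map_pow, ← Algebra.smul_def]
    rw [h1, hyj, mul_smul_comm, aeval_eq_sum_range' hd, Finset.sum_mul]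
    refine Submodule.smul_mem _ _ (Submodule.sum_mem _ fun i hi => ?_)
    rw [smul_mul_assoc]
    exact Submodule.smul_mem _ _ (Submodule.subset_span
      ⟨(⟨i, Finset.mem_range.1 hi⟩, ⟨j % p, Nat.mod_lt _ hp.out.pos⟩), rfl⟩)
  have hX : ∀ m ∈ Submodule.span K (Set.range v), x * m ∈ Submodule.span K (Set.range v) := by
    intro m hm
    induction hm using Submodule.span_induction with
    | mem m h =>
      obtain ⟨ij, rfl⟩ := h
      simp only [hv]
      rw [← mul_assoc, ← pow_succ']
      have := hmemf (X ^ ((ij.1 : ℕ) + 1)) ij.2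
      rwa [map_pow, aeval_X] at this
    | zero => rw [mul_zero]; exact Submodule.zero_mem _
    | add p q _ _ hp hq => rw [mul_add]; exact Submodule.add_mem _ hp hq
    | smul c p _ hp => rw [mul_smul_comm]; exact Submodule.smul_mem _ _ hp
  have hY : ∀ m ∈ Submodule.span K (Set.range v), y * m ∈ Submodule.span K (Set.range v) := by
    intro m hm
    induction hm using Submodule.span_induction with
    | mem m h =>
      obtain ⟨ij, rfl⟩ := h
      simp only [hv]
      have h1 := y_aeval (K := K) hyx (X ^ (ij.1 : ℕ))
      rw [map_pow, aeval_X] at h1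
      rw [← mul_assoc, h1, mul_assoc, ← pow_succ']
      exact hmemf _ _
    | zero => rw [mul_zero]; exact Submodule.zero_mem _
    | add p q _ _ hp hq => rw [mul_add]; exact Submodule.add_mem _ hp hq
    | smul c p _ hp => rw [mul_smul_comm]; exact Submodule.smul_mem _ _ hp
  let T : Subalgebra K (PS K p a b) :=
    { carrier := {s | ∀ m ∈ Submodule.span K (Set.range v), s * m ∈ Submodule.span K (Set.range v)}
      mul_mem' := by
        intro s t hs ht m hm
        rw [mul_assoc]
        exact hs _ (ht _ hm)
      add_mem' := by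
        intro s t hs ht m hm
        rw [add_mul]
        exact Submodule.add_mem _ (hs _ hm) (ht _ hm)
      algebraMap_mem' := by
        intro r m hm
        rw [← Algebra.smul_def]
        exact Submodule.smul_mem _ _ hm }
  have hT : ∀ s, s ∈ T := by
    intro s
    let tx : T := ⟨x, hX⟩
    let ty : T := ⟨y, hY⟩
    have e1 : tx ^ p = tx + algebraMap K T a := Subtype.ext hx
    have e2 : ty ^ p = algebraMap K T b := Subtype.ext hy
    have e3 : ty * tx = tx * ty + ty := Subtype.ext hyx
    let φ : PS K p a b →ₐ[K] T := psLift tx ty e1 e2 e3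
    have h : T.val.comp φ = AlgHom.id K _ := by
      apply hext (PS K p a b)
      · exact congrArg T.val (psLift_x tx ty e1 e2 e3)
      · exact congrArg T.val (psLift_y tx ty e1 e2 e3)
    have h2 : (φ s : PS K p a b) = s := DFunLike.congr_fun h s
    rw [← h2]
    exact (φ s).2
  have hsp : ⊤ ≤ Submodule.span K (Set.range v) := by
    intro s _
    have h1 : (1 : PS K p a b) ∈ Submodule.span K (Set.range v) := by
      simpa using hmemf 1 0
    have := hT s 1 h1
    rwa [mul_one] at this
  exact ⟨Module.Basis.mk hli hsp, fun ij => by rw [Module.Basis.mk_apply]⟩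

end Pool.Agent.H19PS
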