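import Pool.Agent.H79.LU.Helper346_Bra_Defs
import Pool.Agent.H79.LU.Helper346_Bra_SA
import Pool.Agent.H79.LU.Helper346_Bra_SB

set_option autoImplicit false

open scoped TensorProduct

namespace Pool.Agent.Helper346.Bra



theorem simple_of_azumaya {K A : Type*} [Field K] [Ring A] [Algebra K A] [Nontrivial A]
    (h : Function.Surjective (AlgHom.mulLeftRight K A)) : IsSimpleRing A := by
  refine ⟨⟨?_⟩⟩
  intro I
  by_cases hI : I = ⊥
  · exact Or.inl hI
  right
  obtain ⟨c, hcI, hc0⟩ : ∃ c ∈ I, c ≠ 0 := by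
    by_contra hcon
    push Not at hcon
    exact hI (le_bot_iff.1 fun x hx => by
      rw [hcon x hx]; exact (⊥ : TwoSidedIdeal A).zero_mem)
  obtain ⟨φ, hφ⟩ : ∃ φ : A →ₗ[K] K, φ c ≠ 0 := by
    by_contra hcon
    push Not at hcon
    exact hc0 ((Module.forall_dual_apply_eq_zero_iff K c).1 hcon)
  obtain ⟨z, hz⟩ := h ((φ.smulRight (1 : A)) : Module.End K A)
  have hmem : ∀ z : A ⊗[K] Aᵐᵒᵖ, AlgHom.mulLeftRight K A z c ∈ I := by
    intro z
    induction z using TensorProduct.induction_on with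
    | zero => simp
    | tmul x y =>
      rw [AlgHom.mulLeftRight_apply]
      exact I.mul_mem_right _ _ (I.mul_mem_left _ _ hcI)
    | add x y hx hy =>
      rw [map_add, LinearMap.add_apply]
      exact I.add_mem hx hy
  have h1 := hmem z
  rw [hz, LinearMap.smulRight_apply] at h1
  have h2 := I.mul_mem_left (algebraMap K A (φ c)⁻¹) _ h1
  rw [← Algebra.smul_def, smul_smul, inv_mul_cancel₀ hφ, one_smul] at h2
  exact (TwoSidedIdeal.one_mem_iff I).1 h2

theorem symb_csa {K : Type*} [Field K] (l : ℕ) (hl : 0 < l) (ζ a b : K)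
    (hζ : IsPrimitiveRoot ζ l) (hl0 : (l : K) ≠ 0) (ha : a ≠ 0) (hb : b ≠ 0) :
    Algebra.IsCentral K (Symb K l ζ a b) ∧ IsSimpleRing (Symb K l ζ a b) ∧
      FiniteDimensional K (Symb K l ζ a b) ∧ Module.finrank K (Symb K l ζ a b) = l ^ 2 := by
  obtain ⟨e, -⟩ := symb_basis l hl ζ a b hζ.pow_eq_one
  have hfr : Module.finrank K (Symb K l ζ a b) = l ^ 2 := by
    rw [Module.finrank_eq_card_basis e]
    simp [sq]
  have hfd : FiniteDimensional K (Symb K l ζ a b) := Module.Finite.of_basis e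
  have hnt : Nontrivial (Symb K l ζ a b) := by
    apply Module.nontrivial_of_finrank_pos (R := K)
    rw [hfr]; positivity
  have haz := symb_azumaya l hl ζ a b hζ (isUnit_iff_ne_zero.2 hl0) (isUnit_iff_ne_zero.2 ha)
    (isUnit_iff_ne_zero.2 hb)
  exact ⟨inferInstance, simple_of_azumaya haz.bij.2, hfd, hfr⟩

theorem symb_iso {K : Type*} [Field K] (l : ℕ) (hl : 0 < l) (ζ a b a' b' : K)
    (hζ : IsPrimitiveRoot ζ l) (hl0 : (l : K) ≠ 0) (ha : a ≠ 0) (hb : b ≠ 0) (ha' : a' ≠ 0)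
    (hb' : b' ≠ 0) (x y : Symb K l ζ a b) (hx : x ^ l = algebraMap K _ a')
    (hy : y ^ l = algebraMap K _ b') (hyx : y * x = algebraMap K _ ζ * (x * y)) :
    Nonempty (Symb K l ζ a b ≃ₐ[K] Symb K l ζ a' b') := by
  obtain ⟨-, hs, hfd, hfr⟩ := symb_csa l hl ζ a b hζ hl0 ha hb
  obtain ⟨-, hs', hfd', hfr'⟩ := symb_csa l hl ζ a' b' hζ hl0 ha' hb'
  obtain ⟨f, hf⟩ : ∃ f : Symb K l ζ a' b' →ₐ[K] Symb K l ζ a b, f = symLift x y hx hy hyx :=
    ⟨_, rfl⟩
  have hinj : Function.Injective f := f.toRingHom.injective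
  have hsurj : Function.Surjective f := by
    have := (LinearMap.injective_iff_surjective_of_finrank_eq_finrank
      (f := f.toLinearMap) (by rw [hfr, hfr'])).1 hinj
    exact this
  exact ⟨(AlgEquiv.ofBijective f ⟨hinj, hsurj⟩).symm⟩

end Pool.Agent.Helper346.Bra
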