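import Mathlib
import Pool.Agent.H79.LU.Helper346_Bra_SD
import Pool.Agent.H79.LU.Helper18_Br_Group

/-! Classes of symbol algebras in the Brauer group: bilinearity and related identities. -/

set_option autoImplicit false
set_option linter.all false

open scoped TensorProduct

noncomputable section

namespace Pool.Agent.H552R3.SymBr

open Pool.Agent.Helper346.Bra Pool.Agent.Helper18.Br

universe u

variable {K : Type u} [Field K] {n : ℕ} {ζ : K}

theorem n_ne_zero (hn : 0 < n) (hζ : IsPrimitiveRoot ζ n) : (n : K) ≠ 0 := by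
  haveI : NeZero n := ⟨hn.ne'⟩
  exact (hζ.neZero').out

/-- The class in `Br(K)` of the symbol algebra `(a,b)_ζ` generated by `x, y` with `x^n = a`,
`y^n = b`, `y x = ζ x y`. -/
def symCl (hn : 0 < n) (hζ : IsPrimitiveRoot ζ n) (a b : Kˣ) : BrauerGroup.{u, u} K :=
  have h := symb_csa n hn ζ (a : K) (b : K) hζ (n_ne_zero hn hζ) a.ne_zero b.ne_zero
  haveI : Algebra.IsCentral K (Symb K n ζ (a : K) (b : K)) := h.1
  haveI : IsSimpleRing (Symb K n ζ (a : K) (b : K)) := h.2.1
  haveI : FiniteDimensional K (Symb K n ζ (a : K) (b : K)) := h.2.2.1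
  brauerClass K (Symb K n ζ (a : K) (b : K))

/-- two simple algebras with an algebra map and the same dimension are isomorphic -/
theorem equiv_of_hom {A B : Type*} [Ring A] [Ring B] [Algebra K A] [Algebra K B] [IsSimpleRing A] [Nontrivial B]
    [FiniteDimensional K A] [FiniteDimensional K B] (φ : A →ₐ[K] B)
    (h : Module.finrank K A = Module.finrank K B) : Nonempty (A ≃ₐ[K] B) := by
  have hinj : Function.Injective φ := φ.toRingHom.injective
  exact ⟨AlgEquiv.ofBijective φ ⟨hinj,
    (LinearMap.injective_iff_surjective_of_finrank_eq_finrank (f := φ.toLinearMap) h).1 hinj⟩⟩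

theorem symCl_eq_of_equiv (hn : 0 < n) (hζ : IsPrimitiveRoot ζ n) (a b a' b' : Kˣ)
    (h : Nonempty (Symb K n ζ (a : K) (b : K) ≃ₐ[K] Symb K n ζ (a' : K) (b' : K))) :
    symCl hn hζ a b = symCl hn hζ a' b' := by
  obtain ⟨e⟩ := h
  have h := symb_csa n hn ζ (a : K) (b : K) hζ (n_ne_zero hn hζ) a.ne_zero b.ne_zero
  have h' := symb_csa n hn ζ (a' : K) (b' : K) hζ (n_ne_zero hn hζ) a'.ne_zero b'.ne_zero
  haveI : Algebra.IsCentral K (Symb K n ζ (a : K) (b : K)) := h.1
  haveI : IsSimpleRing (Symb K n ζ (a : K) (b : K)) := h.2.1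
  haveI : FiniteDimensional K (Symb K n ζ (a : K) (b : K)) := h.2.2.1
  haveI : Algebra.IsCentral K (Symb K n ζ (a' : K) (b' : K)) := h'.1
  haveI : IsSimpleRing (Symb K n ζ (a' : K) (b' : K)) := h'.2.1
  haveI : FiniteDimensional K (Symb K n ζ (a' : K) (b' : K)) := h'.2.2.1
  exact brauerClass_eq_iff.2 (BrEq.of_equiv e)

/-- elements of a symbol algebra satisfying the relations of another one -/
theorem symCl_eq_of_gens (hn : 0 < n) (hζ : IsPrimitiveRoot ζ n) (a b a' b' : Kˣ)
    (x y : Symb K n ζ (a : K) (b : K)) (hx : x ^ n = algebraMap K _ (a' : K))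
    (hy : y ^ n = algebraMap K _ (b' : K)) (hyx : y * x = algebraMap K _ ζ * (x * y)) :
    symCl hn hζ a b = symCl hn hζ a' b' :=
  symCl_eq_of_equiv hn hζ a b a' b'
    (symb_iso n hn ζ a b a' b' hζ (n_ne_zero hn hζ) a.ne_zero b.ne_zero a'.ne_zero b'.ne_zero
      x y hx hy hyx)

section twist

variable {A : Type*} [Ring A] [Algebra K A] {x y : A}

theorem y_xpow (h : y * x = ζ • (x * y)) (k : ℕ) : y * x ^ k = ζ ^ k • (x ^ k * y) := by
  induction k with
  | zero => simp
  | succ k ih =>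
    rw [pow_succ, ← mul_assoc, ih, smul_mul_assoc, mul_assoc, h, mul_smul_comm, smul_smul, ← pow_succ,
      ← mul_assoc]

theorem ypow_x (h : y * x = ζ • (x * y)) (k : ℕ) : y ^ k * x = ζ ^ k • (x * y ^ k) := by
  induction k with
  | zero => simp
  | succ k ih =>
    rw [pow_succ', mul_assoc, ih, mul_smul_comm, ← mul_assoc, h, smul_mul_assoc, smul_smul, ← pow_succ,
      mul_assoc]

end twist

end Pool.Agent.H552R3.SymBr
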