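import Mathlib
import Pool.Agent.H79.LU.H552R3_SymIdx

/-! The dimension-raising theorem. -/

set_option autoImplicit false
set_option linter.all false

open scoped TensorProduct

noncomputable section

namespace Pool.Agent.H552R3.SymBr

open Pool.Agent.Helper346.Bra Pool.Agent.Helper18.Br

universe u

variable {K : Type u} [Field K] {n : ℕ} {ζ : K}

/-- The set of classes of symbols `{a,b}` with entries in a subgroup `H`. -/
def symSet (hn : 0 < n) (hζ : IsPrimitiveRoot ζ n) (H : Subgroup Kˣ) : Set (BrauerGroup.{u, u} K) :=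
  {c | ∃ a ∈ H, ∃ b ∈ H, c = symCl hn hζ a b}

/-- `{e, f}` lies in `{e, H} {f, H} V`. -/
def PairRel (hn : 0 < n) (hζ : IsPrimitiveRoot ζ n) (V : Subgroup (BrauerGroup.{u, u} K))
    (H : Subgroup Kˣ) (e f : Kˣ) : Prop :=
  ∃ a ∈ H, ∃ b ∈ H, ∃ v ∈ V, symCl hn hζ e f = symCl hn hζ e a * symCl hn hζ f b * v

/-- one step: every element of the larger group is `{e,A}{f,B}γ` -/
theorem step_form (hn : 0 < n) (hζ : IsPrimitiveRoot ζ n) (V : Subgroup (BrauerGroup.{u, u} K))
    (H : Subgroup Kˣ) (h1 : (-1 : Kˣ) ∈ H) (hV : symSet hn hζ H ⊆ V) (e f : Kˣ) (hef : PairRel hn hζ V H e f)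
    (α : BrauerGroup.{u, u} K)
    (hα : α ∈ V ⊔ Subgroup.closure (symSet hn hζ (H ⊔ Subgroup.closure {e, f}))) :
    ∃ A ∈ H, ∃ B ∈ H, ∃ γ ∈ V, α = symCl hn hζ e A * symCl hn hζ f B * γ := by
  -- the subgroup of elements of this form
  let T : Subgroup (BrauerGroup.{u, u} K) :=
    { carrier := {α | ∃ A ∈ H, ∃ B ∈ H, ∃ γ ∈ V, α = symCl hn hζ e A * symCl hn hζ f B * γ}
      mul_mem' := by
        rintro x y ⟨A, hA, B, hB, γ, hγ, rfl⟩ ⟨A', hA', B', hB', γ', hγ', rfl⟩
        refine ⟨A * A', H.mul_mem hA hA', B * B', H.mul_mem hB hB', γ * γ', V.mul_mem hγ hγ', ?_⟩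
        rw [symCl_mul_right, symCl_mul_right, mul_mul_mul_comm (symCl hn hζ e A * symCl hn hζ f B),
          mul_mul_mul_comm (symCl hn hζ e A) (symCl hn hζ f B)]
      one_mem' := ⟨1, H.one_mem, 1, H.one_mem, 1, V.one_mem, by
        rw [symCl_one_right, symCl_one_right, mul_one, mul_one]⟩
      inv_mem' := by
        rintro x ⟨A, hA, B, hB, γ, hγ, rfl⟩
        refine ⟨A⁻¹, H.inv_mem hA, B⁻¹, H.inv_mem hB, γ⁻¹, V.inv_mem hγ, ?_⟩
        rw [symCl_inv_right, symCl_inv_right, mul_inv, mul_inv] }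
  have hVT : V ≤ T := fun γ hγ => ⟨1, H.one_mem, 1, H.one_mem, γ, hγ, by
    rw [symCl_one_right, symCl_one_right, one_mul, one_mul]⟩
  have heT : ∀ g ∈ H, symCl hn hζ e g ∈ T := fun g hg => ⟨g, hg, 1, H.one_mem, 1, V.one_mem, by
    rw [symCl_one_right, mul_one, mul_one]⟩
  have hfT : ∀ g ∈ H, symCl hn hζ f g ∈ T := fun g hg => ⟨1, H.one_mem, g, hg, 1, V.one_mem, by
    rw [symCl_one_right, one_mul, mul_one]⟩
  have hswap : ∀ a b, symCl hn hζ a b ∈ T → symCl hn hζ b a ∈ T := by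
    intro a b h
    rw [symCl_anti]
    exact T.inv_mem h
  have hdiag : ∀ a, symCl hn hζ a (-1) ∈ T → symCl hn hζ a a ∈ T := by
    intro a h
    rcases symCl_diag hn hζ a with h2 | h2
    · rw [h2]; exact T.one_mem
    · rw [h2]; exact h
  have hefT : symCl hn hζ e f ∈ T := by
    obtain ⟨a, ha, b, hb, v, hv, h⟩ := hef
    exact ⟨a, ha, b, hb, v, hv, h⟩
  have hgen : H ⊔ Subgroup.closure {e, f} = Subgroup.closure ((H : Set Kˣ) ∪ {e, f}) := by
    rw [Subgroup.closure_union, Subgroup.closure_eq]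
  -- symbols of generators
  have hbase : ∀ a ∈ ((H : Set Kˣ) ∪ {e, f}), ∀ b ∈ ((H : Set Kˣ) ∪ {e, f}), symCl hn hζ a b ∈ T := by
    rintro a (ha | ha) b (hb | hb)
    · exact hVT (hV ⟨a, ha, b, hb, rfl⟩)
    · rcases hb with rfl | hb
      · exact hswap _ _ (heT a ha)
      · rw [Set.mem_singleton_iff] at hb
        subst hb
        exact hswap _ _ (hfT a ha)
    · rcases ha with rfl | ha
      · exact heT b hb
      · rw [Set.mem_singleton_iff] at ha
        subst ha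
        exact hfT b hb
    · rcases ha with rfl | ha <;> rcases hb with rfl | hb
      · exact hdiag _ (heT _ h1)
      · rw [Set.mem_singleton_iff] at hb
        subst hb
        exact hefT
      · rw [Set.mem_singleton_iff] at ha
        subst ha
        exact hswap _ _ hefT
      · rw [Set.mem_singleton_iff] at ha hb
        subst ha
        subst hb
        exact hdiag _ (hfT _ h1)
  have hright : ∀ a ∈ ((H : Set Kˣ) ∪ {e, f}), ∀ b ∈ H ⊔ Subgroup.closure {e, f}, symCl hn hζ a b ∈ T := by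
    intro a ha b hb
    have h2 : Subgroup.closure ((H : Set Kˣ) ∪ {e, f}) ≤ T.comap (symR hn hζ a) := by
      rw [Subgroup.closure_le]
      intro b hb
      exact hbase a ha b hb
    rw [hgen] at hb
    exact h2 hb
  have hall : ∀ a ∈ H ⊔ Subgroup.closure {e, f}, ∀ b ∈ H ⊔ Subgroup.closure {e, f}, symCl hn hζ a b ∈ T := by
    intro a ha b hb
    have h2 : Subgroup.closure ((H : Set Kˣ) ∪ {e, f}) ≤ T.comap (symL hn hζ b) := by
      rw [Subgroup.closure_le]
      intro a ha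
      exact hright a ha b hb
    rw [hgen] at ha
    exact h2 ha
  have hle : V ⊔ Subgroup.closure (symSet hn hζ (H ⊔ Subgroup.closure {e, f})) ≤ T := by
    refine sup_le hVT ?_
    rw [Subgroup.closure_le]
    rintro c ⟨a, ha, b, hb, rfl⟩
    exact hall a ha b hb
  exact hle hα

theorem comm_aux {G : Type*} [CommGroup G] (p p' q q' v γ : G) :
    p * q * γ = p * p' * (q * q') * (p' * q' * v)⁻¹ * (v * γ) := by
  have h : p * p' * (q * q') * (p' * q' * v)⁻¹ * (v * γ) =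
      p * q * γ * ((p' * p'⁻¹) * (q' * q'⁻¹) * (v * v⁻¹)) := by
    simp only [mul_inv]
    simp only [mul_assoc, mul_comm, mul_left_comm]
  rw [h]
  simp

/-- one step of the index bound -/
theorem step_index (hn : 0 < n) (hζ : IsPrimitiveRoot ζ n) (V : Subgroup (BrauerGroup.{u, u} K))
    (H : Subgroup Kˣ) (h1 : (-1 : Kˣ) ∈ H) (hV : symSet hn hζ H ⊆ V) (N : ℕ) (hN : 0 < N)
    (hVN : ∀ β ∈ V, IndDvd β N) (e f : Kˣ) (hef : PairRel hn hζ V H e f)
    (α : BrauerGroup.{u, u} K)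
    (hα : α ∈ V ⊔ Subgroup.closure (symSet hn hζ (H ⊔ Subgroup.closure {e, f}))) :
    IndDvd α (n * N) := by
  obtain ⟨A, hA, B, hB, γ, hγ, rfl⟩ := step_form hn hζ V H h1 hV e f hef α hα
  obtain ⟨a, ha, b, hb, v, hv, h⟩ := hef
  have h2 : symCl hn hζ (A * a) (B * b) * v * γ ∈ V :=
    V.mul_mem (V.mul_mem (hV ⟨A * a, H.mul_mem hA ha, B * b, H.mul_mem hB hb, rfl⟩) hv) hγ
  have h3 : symCl hn hζ e A * symCl hn hζ f B * γ =
      symCl hn hζ (e * (B * b)) ((A * a) * f⁻¹) * (symCl hn hζ (A * a) (B * b) * v * γ) := by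
    have h4 := symCl_pair0 hn hζ e f (A * a) (B * b)
    rw [h, symCl_mul_right hn hζ e A a, symCl_mul_right hn hζ f B b] at h4
    rw [mul_assoc (symCl hn hζ (A * a) (B * b)), ← mul_assoc (symCl hn hζ (e * (B * b)) (A * a * f⁻¹)), h4]
    exact comm_aux _ _ _ _ _ _
  rw [h3]
  exact ((hasRep_symCl hn hζ _ _).mul ((hVN _ h2).hasRep hN)).indDvd

theorem PairRel.mono {hn : 0 < n} {hζ : IsPrimitiveRoot ζ n} {V V' : Subgroup (BrauerGroup.{u, u} K)}
    {H H' : Subgroup Kˣ} {e f : Kˣ} (h : PairRel hn hζ V H e f) (hV : V ≤ V') (hH : H ≤ H') :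
    PairRel hn hζ V' H' e f := by
  obtain ⟨a, ha, b, hb, v, hv, h⟩ := h
  exact ⟨a, hH ha, b, hH hb, v, hV hv, h⟩

theorem symSet_mono (hn : 0 < n) (hζ : IsPrimitiveRoot ζ n) {H H' : Subgroup Kˣ} (h : H ≤ H') :
    symSet hn hζ H ⊆ symSet hn hζ H' := by
  rintro c ⟨a, ha, b, hb, rfl⟩
  exact ⟨a, h ha, b, h hb, rfl⟩

/-- The index bound for `r` pairs. -/
theorem main_index (hn : 0 < n) (hζ : IsPrimitiveRoot ζ n) (r : ℕ) :
    ∀ (V : Subgroup (BrauerGroup.{u, u} K)) (H : Subgroup Kˣ) (h1 : (-1 : Kˣ) ∈ H)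
      (hV : symSet hn hζ H ⊆ V) (N : ℕ) (hN : 0 < N) (hVN : ∀ β ∈ V, IndDvd β N)
      (e f : Fin r → Kˣ) (hef : ∀ i, PairRel hn hζ V H (e i) (f i))
      (α : BrauerGroup.{u, u} K)
      (hα : α ∈ V ⊔ Subgroup.closure (symSet hn hζ (H ⊔ Subgroup.closure (Set.range e ∪ Set.range f)))),
      IndDvd α (n ^ r * N) := by
  induction r with
  | zero =>
    intro V H h1 hV N hN hVN e f hef α hα
    rw [pow_zero, one_mul]
    apply hVN
    have h2 : Set.range e ∪ Set.range f = ∅ := by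
      rw [Set.range_eq_empty e, Set.range_eq_empty f, Set.union_empty]
    rw [h2, Subgroup.closure_empty, sup_bot_eq] at hα
    have h3 : V ⊔ Subgroup.closure (symSet hn hζ H) ≤ V := by
      refine sup_le le_rfl ?_
      rw [Subgroup.closure_le]
      exact hV
    exact h3 hα
  | succ r ih =>
    intro V H h1 hV N hN hVN e f hef α hα
    have h2 := ih (V ⊔ Subgroup.closure (symSet hn hζ (H ⊔ Subgroup.closure {e 0, f 0})))
      (H ⊔ Subgroup.closure {e 0, f 0}) (le_sup_left (a := H) h1)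
      (fun c hc => le_sup_right (a := V) (Subgroup.subset_closure hc)) (n * N) (Nat.mul_pos hn hN)
      (fun β hβ => step_index hn hζ V H h1 hV N hN hVN (e 0) (f 0) (hef 0) β hβ)
      (fun i => e i.succ) (fun i => f i.succ) (fun i => (hef i.succ).mono le_sup_left le_sup_left) α ?_
    · rw [pow_succ, mul_assoc]
      exact h2
    · refine sup_le_sup le_sup_left (Subgroup.closure_mono (symSet_mono hn hζ ?_)) hα
      rw [sup_assoc, ← Subgroup.closure_union]
      refine sup_le_sup le_rfl (Subgroup.closure_mono ?_)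
      rintro x (⟨i, rfl⟩ | ⟨i, rfl⟩)
      · refine Fin.cases ?_ (fun j => ?_) i
        · exact Or.inl (Or.inl rfl)
        · exact Or.inr (Or.inl ⟨j, rfl⟩)
      · refine Fin.cases ?_ (fun j => ?_) i
        · exact Or.inl (Or.inr rfl)
        · exact Or.inr (Or.inr ⟨j, rfl⟩)

end Pool.Agent.H552R3.SymBr
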