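import Pool.Agent.H79.LU.Helper346_Bra_Defs

set_option autoImplicit false

open scoped TensorProduct

namespace Pool.Agent.Helper346.Bra



theorem symb_baseChange {R K : Type*} [CommRing R] [CommRing K] [Algebra R K] (l : ℕ)
    (ζ a b : R) : Nonempty (K ⊗[R] Symb R l ζ a b ≃ₐ[K]
      Symb K l (algebraMap R K ζ) (algebraMap R K a) (algebraMap R K b)) := by
  let i1 : Algebra R (Symb K l (algebraMap R K ζ) (algebraMap R K a) (algebraMap R K b)) :=
    Algebra.compHom _ (algebraMap R K)
  have i2 : IsScalarTower R K (Symb K l (algebraMap R K ζ) (algebraMap R K a) (algebraMap R K b)) :=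
    IsScalarTower.of_algebraMap_eq (fun r => rfl)
  let f : Symb R l ζ a b →ₐ[R] Symb K l (algebraMap R K ζ) (algebraMap R K a) (algebraMap R K b) :=
    symLift (gx K l (algebraMap R K ζ) (algebraMap R K a) (algebraMap R K b))
      (gy K l (algebraMap R K ζ) (algebraMap R K a) (algebraMap R K b)) gx_pow gy_pow gy_gx
  let fwd : K ⊗[R] Symb R l ζ a b →ₐ[K]
      Symb K l (algebraMap R K ζ) (algebraMap R K a) (algebraMap R K b) :=
    Algebra.TensorProduct.lift (Algebra.ofId K _) f (fun x y => Algebra.commutes x _)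
  have key : ∀ c : R, (1 : K) ⊗ₜ[R] (algebraMap R (Symb R l ζ a b) c) =
      algebraMap K (K ⊗[R] Symb R l ζ a b) (algebraMap R K c) := by
    intro c
    rw [Algebra.TensorProduct.algebraMap_apply, Algebra.algebraMap_eq_smul_one c,
      Algebra.algebraMap_eq_smul_one c, TensorProduct.tmul_smul, TensorProduct.smul_tmul']
    simp
  let bwd : Symb K l (algebraMap R K ζ) (algebraMap R K a) (algebraMap R K b) →ₐ[K]
      K ⊗[R] Symb R l ζ a b :=
    symLift ((1 : K) ⊗ₜ[R] gx R l ζ a b) ((1 : K) ⊗ₜ[R] gy R l ζ a b)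
      (by rw [Algebra.TensorProduct.tmul_pow, one_pow, gx_pow, key])
      (by rw [Algebra.TensorProduct.tmul_pow, one_pow, gy_pow, key])
      (by rw [Algebra.TensorProduct.tmul_mul_tmul, Algebra.TensorProduct.tmul_mul_tmul, gy_gx,
            ← key, Algebra.TensorProduct.tmul_mul_tmul, one_mul, one_mul])
  have hf : ∀ x : Symb R l ζ a b, fwd ((1 : K) ⊗ₜ[R] x) = f x := by
    intro x
    have h := Algebra.TensorProduct.lift_tmul (Algebra.ofId K
      (Symb K l (algebraMap R K ζ) (algebraMap R K a) (algebraMap R K b))) f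
      (fun x y => Algebra.commutes x _) (1 : K) x
    rw [map_one, one_mul] at h
    exact h
  have hfx : f (gx R l ζ a b) = gx K l (algebraMap R K ζ) (algebraMap R K a) (algebraMap R K b) :=
    symLift_x _ _ _ _ _
  have hfy : f (gy R l ζ a b) = gy K l (algebraMap R K ζ) (algebraMap R K a) (algebraMap R K b) :=
    symLift_y _ _ _ _ _
  have hbx : bwd (gx K l (algebraMap R K ζ) (algebraMap R K a) (algebraMap R K b)) =
      (1 : K) ⊗ₜ[R] gx R l ζ a b := symLift_x _ _ _ _ _
  have hby : bwd (gy K l (algebraMap R K ζ) (algebraMap R K a) (algebraMap R K b)) =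
      (1 : K) ⊗ₜ[R] gy R l ζ a b := symLift_y _ _ _ _ _
  refine ⟨AlgEquiv.ofAlgHom fwd bwd ?_ ?_⟩
  · apply symb_hom_ext
    · rw [AlgHom.comp_apply, hbx, hf, hfx]; rfl
    · rw [AlgHom.comp_apply, hby, hf, hfy]; rfl
  · apply Algebra.TensorProduct.ext
    · exact Subsingleton.elim _ _
    · apply symb_hom_ext
      · have : bwd (fwd ((1 : K) ⊗ₜ[R] gx R l ζ a b)) = (1 : K) ⊗ₜ[R] gx R l ζ a b := by
          rw [hf, hfx, hbx]
        exact this
      · have : bwd (fwd ((1 : K) ⊗ₜ[R] gy R l ζ a b)) = (1 : K) ⊗ₜ[R] gy R l ζ a b := by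
          rw [hf, hfy, hby]
        exact this

end Pool.Agent.Helper346.Bra
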