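import Mathlib
import Pool.Agent.H79.LU.H19PS_B
import Pool.Agent.H79.LU.H552R3_SymRes

/-! Artin-Schreier symbol algebras are central simple; their Brauer classes. -/

set_option autoImplicit false
set_option linter.all false

open scoped TensorProduct
open Polynomial

noncomputable section

namespace Pool.Agent.H19PS

open Pool.Agent.Helper18.Br Pool.Agent.H552R3.SymBr

universe u

variable {K : Type u} [Field K] {p : ℕ} [hp : Fact p.Prime] [CharP K p] {a b : K}

theorem ps_finrank (a b : K) (hb : b ≠ 0) : Module.finrank K (PS K p a b) = p ^ 2 := by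
  obtain ⟨e, -⟩ := ps_basis (p := p) a b hb
  rw [Module.finrank_eq_card_basis e]
  simp [sq]

theorem ps_fd (a b : K) (hb : b ≠ 0) : FiniteDimensional K (PS K p a b) := by
  obtain ⟨e, -⟩ := ps_basis (p := p) a b hb
  exact Module.Finite.of_basis e

theorem ps_indep {A : Type*} [Ring A] [Algebra K A] [Nontrivial A] (hb : b ≠ 0) {x y : A}
    (hx : x ^ p = x + algebraMap K A a) (hy : y ^ p = algebraMap K A b) (h : y * x = x * y + y) :
    LinearIndependent K fun ij : Fin p × Fin p => x ^ (ij.1 : ℕ) * y ^ (ij.2 : ℕ) := by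
  rw [Fintype.linearIndependent_iff]
  intro c hc ij
  have h1 : ∀ j : Fin p, aeval x (∑ i : Fin p, C (c (i, j)) * X ^ (i : ℕ)) = ∑ i : Fin p, c (i, j) • x ^ (i : ℕ) := by
    intro j
    rw [map_sum]
    refine Finset.sum_congr rfl fun i _ => ?_
    rw [map_mul, aeval_C, map_pow, aeval_X, Algebra.smul_def]
  have h2 := key_indep hb hx hy h (fun j => ∑ i : Fin p, C (c (i, j)) * X ^ (i : ℕ)) (by
    intro j
    refine (Polynomial.degree_sum_le _ _).trans_lt ?_
    rw [Finset.sup_lt_iff (by exact_mod_cast WithBot.bot_lt_coe p)]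
    intro i _
    refine (Polynomial.degree_C_mul_X_pow_le _ _).trans_lt ?_
    exact_mod_cast i.2) (by
    simp only [h1]
    rw [← hc, Fintype.sum_prod_type, Finset.sum_comm]
    refine Finset.sum_congr rfl fun j _ => ?_
    rw [Finset.sum_mul]
    refine Finset.sum_congr rfl fun i _ => ?_
    rw [smul_mul_assoc]) ij.2
  have h3 := congrArg (fun q => coeff q (ij.1 : ℕ)) h2
  simp only [finset_sum_coeff, coeff_C_mul, coeff_X_pow, mul_ite, mul_one, mul_zero, coeff_zero] at h3
  rw [Finset.sum_eq_single ij.1] at h3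
  · simpa using h3
  · intro i _ hi
    rw [if_neg]
    intro h
    exact hi (Fin.ext h.symm)
  · intro h
    exact absurd (Finset.mem_univ _) h

/-- maps out of the algebra are injective -/
theorem ps_inj (hb : b ≠ 0) {B : Type*} [Ring B] [Algebra K B] [Nontrivial B] (f : PS K p a b →ₐ[K] B) :
    Function.Injective f := by
  obtain ⟨e, he⟩ := ps_basis (p := p) a b hb
  have h2 := ps_indep (p := p) (a := a) (b := b) (A := B) hb (x := f (px K p a b)) (y := f (py K p a b))
    (by rw [← map_pow, px_pow, map_add, AlgHom.commutes]) (by rw [← map_pow, py_pow, AlgHom.commutes])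
    (by rw [← map_mul, py_px, map_add, map_mul])
  rw [Fintype.linearIndependent_iff] at h2
  rw [injective_iff_map_eq_zero]
  intro s hs
  have h3 := h2 (fun ij => e.repr s ij) (by
    rw [← hs]
    conv_rhs => rw [← e.sum_repr s]
    rw [map_sum]
    refine Finset.sum_congr rfl fun ij _ => ?_
    rw [map_smul, he, map_mul, map_pow, map_pow])
  apply e.repr.injective
  ext ij
  rw [map_zero, Finsupp.zero_apply]
  exact h3 ij

theorem ps_simple (a b : K) (hb : b ≠ 0) : IsSimpleRing (PS K p a b) := by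
  haveI := ps_nontrivial (p := p) a b
  refine ⟨⟨?_⟩⟩
  intro I
  by_cases hI : I = ⊤
  · exact Or.inr hI
  left
  haveI : Nontrivial I.ringCon.Quotient := by
    refine ⟨⟨0, 1, fun h => hI ?_⟩⟩
    rw [← TwoSidedIdeal.one_mem_iff, TwoSidedIdeal.mem_iff]
    exact (RingCon.eq I.ringCon).1 h.symm
  let f : PS K p a b →ₐ[K] I.ringCon.Quotient :=
    { toRingHom := I.ringCon.mk'
      commutes' := fun c => rfl }
  have hf := ps_inj hb f
  rw [eq_bot_iff]
  intro s hs
  have h1 : f s = f 0 := by
    change (s : I.ringCon.Quotient) = (0 : PS K p a b)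
    rw [RingCon.eq]
    exact (TwoSidedIdeal.mem_iff I s).1 hs
  rw [hf h1]
  exact TwoSidedIdeal.zero_mem _

theorem ps_central (a b : K) (hb : b ≠ 0) : Algebra.IsCentral K (PS K p a b) := by
  haveI := ps_nontrivial (p := p) a b
  constructor
  intro z hz
  rw [Subalgebra.mem_center_iff] at hz
  have hx := px_pow (R := K) (p := p) (a := a) (b := b)
  have hy := py_pow (R := K) (p := p) (a := a) (b := b)
  have hyx := py_px (R := K) (p := p) (a := a) (b := b)
  obtain ⟨e, he⟩ := ps_basis (p := p) a b hb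
  set x := px K p a b with hxd
  set y := py K p a b with hyd
  -- the expansion of `z`
  obtain ⟨g, hgd, hg⟩ : ∃ g : Fin p → K[X], (∀ j, (g j).degree < p) ∧ z = ∑ j, aeval x (g j) * y ^ (j : ℕ) := by
    refine ⟨fun j => ∑ i : Fin p, C (e.repr z (i, j)) * X ^ (i : ℕ), ?_, ?_⟩
    · intro j
      refine (Polynomial.degree_sum_le _ _).trans_lt ?_
      rw [Finset.sup_lt_iff (by exact_mod_cast WithBot.bot_lt_coe p)]
      intro i _
      refine (Polynomial.degree_C_mul_X_pow_le _ _).trans_lt ?_
      exact_mod_cast i.2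
    · conv_lhs => rw [← e.sum_repr z]
      rw [Fintype.sum_prod_type, Finset.sum_comm]
      refine Finset.sum_congr rfl fun j _ => ?_
      rw [map_sum, Finset.sum_mul]
      refine Finset.sum_congr rfl fun i _ => ?_
      rw [he, map_mul, aeval_C, map_pow, aeval_X, Algebra.smul_def, mul_assoc]
  have hcx : ∀ f : K[X], aeval x f * x = x * aeval x f := by
    intro f
    have e := congrArg (aeval x) (mul_comm f X)
    rwa [map_mul, map_mul, aeval_X] at e
  -- commuting with `x`
  have h1 : ∑ j : Fin p, aeval x (C ((j : ℕ) : K) * g j) * y ^ (j : ℕ) = 0 := by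
    have h2 : z * x - x * z = 0 := by rw [hz x, sub_self]
    rw [← h2, hg, Finset.sum_mul, Finset.mul_sum, ← Finset.sum_sub_distrib]
    refine Finset.sum_congr rfl fun j _ => ?_
    rw [mul_assoc, ypow_x (K := K) hyx, mul_add, mul_smul_comm, ← mul_assoc, hcx, ← mul_assoc, add_sub_cancel_left,
      map_mul, aeval_C, Algebra.smul_def, mul_assoc]
  have h3 := key_indep hb hx hy hyx (fun j => C ((j : ℕ) : K) * g j) (fun j => by
    refine lt_of_le_of_lt ?_ (hgd j)
    by_cases hj : ((j : ℕ) : K) = 0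
    · rw [hj, C_0, zero_mul, degree_zero]; exact bot_le
    · rw [degree_C_mul hj]) h1
  have h4 : ∀ j : Fin p, (j : ℕ) ≠ 0 → g j = 0 := by
    intro j hj
    have h5 := h3 j
    rcases mul_eq_zero.1 h5 with h6 | h6
    · exfalso
      rw [C_eq_zero, CharP.cast_eq_zero_iff K p] at h6
      exact hj (Nat.eq_zero_of_dvd_of_lt h6 j.2)
    · exact h6
  let o : Fin p := ⟨0, hp.out.pos⟩
  have h5 : z = aeval x (g o) := by
    rw [hg, Finset.sum_eq_single o]
    · simp [o]
    · intro j _ hj
      rw [h4 j (fun h => hj (Fin.ext h)), map_zero, zero_mul]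
    · intro h; exact absurd (Finset.mem_univ _) h
  -- commuting with `y`
  have hyu := y_unit (hp.out.pos) hb hy
  have h6 : aeval x ((g o).comp (X + 1) - g o) = 0 := by
    have h7 := y_aeval hyx (g o)
    rw [← h5, hz y] at h7
    have h8 : (aeval x ((g o).comp (X + 1)) - z) * y = 0 := by rw [sub_mul, ← h7, sub_self]
    rw [map_sub, ← h5]
    exact (hyu.mul_left_eq_zero).1 h8
  have hX1 : (X + 1 : K[X]) = X + C 1 := by rw [C_1]
  have h7 : (g o).comp (X + 1) - g o = 0 := by
    refine aeval_x_ne hb hx hy hyx _ ?_ h6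
    refine lt_of_le_of_lt (degree_sub_le _ _) (max_lt ?_ (hgd o))
    by_cases hg0 : g o = 0
    · rw [hg0, zero_comp, degree_zero]; exact WithBot.bot_lt_coe p
    · have h8 : ((g o).comp (X + 1)).natDegree = (g o).natDegree := by
        rw [natDegree_comp, hX1, natDegree_X_add_C, mul_one]
      have h9 : (g o).natDegree < p := (Polynomial.natDegree_lt_iff_degree_lt hg0).2 (hgd o)
      refine lt_of_le_of_lt degree_le_natDegree ?_
      rw [h8]
      exact_mod_cast h9
  have h8 : ∀ m : ℕ, (g o).eval (m : K) = (g o).eval 0 := by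
    intro m
    induction m with
    | zero => rw [Nat.cast_zero]
    | succ m ih =>
      have h9 := congrArg (eval (m : K)) (sub_eq_zero.1 h7)
      rw [eval_comp, eval_add, eval_X, eval_one, ih] at h9
      rw [Nat.cast_succ]
      exact h9
  have h9 : g o = C ((g o).eval 0) := by
    classical
    by_contra hne
    have hne' : g o - C ((g o).eval 0) ≠ 0 := sub_ne_zero.2 hne
    have hdd : (g o - C ((g o).eval 0)).degree < p :=
      lt_of_le_of_lt (degree_sub_le _ _) (max_lt (hgd o) (lt_of_le_of_lt degree_C_le (by exact_mod_cast hp.out.pos)))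
    have h1 : Set.InjOn (fun m : ℕ => (m : K)) (Finset.range p : Set ℕ) := by
      intro m hm n hn hmn
      have h2 : (m : K) = n := hmn
      rw [CharP.cast_eq_iff_mod_eq K p] at h2
      rw [Finset.coe_range, Set.mem_Iio] at hm hn
      rwa [Nat.mod_eq_of_lt hm, Nat.mod_eq_of_lt hn] at h2
    have h3 := Polynomial.card_le_degree_of_subset_roots (p := g o - C ((g o).eval 0))
      (Z := (Finset.range p).image fun m : ℕ => (m : K)) (by
        intro z hz
        rw [Finset.mem_val, Finset.mem_image] at hz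
        obtain ⟨m, -, rfl⟩ := hz
        rw [mem_roots hne', IsRoot.def, eval_sub, eval_C, h8, sub_self])
    rw [Finset.card_image_of_injOn h1, Finset.card_range] at h3
    exact absurd ((Polynomial.natDegree_lt_iff_degree_lt hne').2 hdd) (not_lt.2 h3)
  refine Algebra.mem_bot.2 ⟨(g o).eval 0, ?_⟩
  rw [h5]
  conv_rhs => rw [h9]
  rw [aeval_C]

theorem ps_csa (a b : K) (hb : b ≠ 0) : Algebra.IsCentral K (PS K p a b) ∧ IsSimpleRing (PS K p a b) ∧
    FiniteDimensional K (PS K p a b) ∧ Module.finrank K (PS K p a b) = p ^ 2 :=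
  ⟨ps_central a b hb, ps_simple a b hb, ps_fd a b hb, ps_finrank a b hb⟩

/-- the class of the symbol `[a, b)` -/
def psCl (p : ℕ) [hp : Fact p.Prime] [CharP K p] (a : K) (b : Kˣ) : BrauerGroup.{u, u} K :=
  have h := ps_csa (p := p) a (b : K) b.ne_zero
  haveI : Algebra.IsCentral K (PS K p a (b : K)) := h.1
  haveI : IsSimpleRing (PS K p a (b : K)) := h.2.1
  haveI : FiniteDimensional K (PS K p a (b : K)) := h.2.2.1
  brauerClass K (PS K p a (b : K))

theorem psCl_of_gens {A : Type u} [Ring A] [Algebra K A] [Algebra.IsCentral K A] [IsSimpleRing A]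
    [FiniteDimensional K A] (hA : Module.finrank K A = p ^ 2) (a : K) (b : Kˣ) (x y : A)
    (hx : x ^ p = x + algebraMap K A a) (hy : y ^ p = algebraMap K A b) (hyx : y * x = x * y + y) :
    brauerClass K A = psCl p a b := by
  have h := ps_csa (p := p) a (b : K) b.ne_zero
  haveI : Algebra.IsCentral K (PS K p a (b : K)) := h.1
  haveI : IsSimpleRing (PS K p a (b : K)) := h.2.1
  haveI : FiniteDimensional K (PS K p a (b : K)) := h.2.2.1
  obtain ⟨e⟩ := equiv_of_hom (psLift x y hx hy hyx) (by rw [h.2.2.2, hA])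
  exact (brauerClass_eq_iff.2 (BrEq.of_equiv e)).symm

theorem hasRep_psCl (a : K) (b : Kˣ) : HasRep (psCl p a b) p := by
  have h := ps_csa (p := p) a (b : K) b.ne_zero
  exact ⟨PS K p a (b : K), inferInstance, inferInstance, h.1, h.2.1, h.2.2.1, rfl, h.2.2.2⟩

/-- equal classes from generators inside the symbol algebra -/
theorem psCl_eq_of_gens (a a' : K) (b b' : Kˣ) (x y : PS K p a (b : K)) (hx : x ^ p = x + algebraMap K _ a')
    (hy : y ^ p = algebraMap K _ (b' : K)) (hyx : y * x = x * y + y) : psCl p a b = psCl p a' b' := by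
  have h := ps_csa (p := p) a (b : K) b.ne_zero
  haveI : Algebra.IsCentral K (PS K p a (b : K)) := h.1
  haveI : IsSimpleRing (PS K p a (b : K)) := h.2.1
  haveI : FiniteDimensional K (PS K p a (b : K)) := h.2.2.1
  exact psCl_of_gens h.2.2.2 a' b' x y hx hy hyx

/-- two algebra maps commute if their values at the generators do -/
theorem commute_gens {a b a' b' : K} (hb : b ≠ 0) (hb' : b' ≠ 0) {C : Type*} [Ring C] [Algebra K C]
    (f : PS K p a b →ₐ[K] C) (g : PS K p a' b' →ₐ[K] C)
    (h1 : Commute (f (px K p a b)) (g (px K p a' b')))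
    (h2 : Commute (f (px K p a b)) (g (py K p a' b')))
    (h3 : Commute (f (py K p a b)) (g (px K p a' b')))
    (h4 : Commute (f (py K p a b)) (g (py K p a' b'))) :
    ∀ s t, Commute (f s) (g t) := by
  obtain ⟨e, he⟩ := ps_basis (p := p) a b hb
  obtain ⟨e', he'⟩ := ps_basis (p := p) a' b' hb'
  intro s t
  rw [← e.sum_repr s, ← e'.sum_repr t, map_sum, map_sum]
  refine Commute.sum_left _ _ _ (fun i _ => Commute.sum_right _ _ _ (fun j _ => ?_))
  rw [map_smul, map_smul]
  refine Commute.smul_left (Commute.smul_right ?_ _) _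
  rw [he, he', map_mul, map_mul, map_pow, map_pow, map_pow, map_pow]
  exact ((h1.pow_pow _ _).mul_right (h2.pow_pow _ _)).mul_left ((h3.pow_pow _ _).mul_right (h4.pow_pow _ _))

/-- two commuting pairs in a tensor product of two symbol algebras -/
theorem psCl_pairs (a a' c c' : K) (b b' d d' : Kˣ)
    (U V W T : PS K p a (b : K) ⊗[K] PS K p a' (b' : K))
    (hU : U ^ p = U + algebraMap K _ c) (hV : V ^ p = algebraMap K _ (d : K)) (hVU : V * U = U * V + V)
    (hW : W ^ p = W + algebraMap K _ c') (hT : T ^ p = algebraMap K _ (d' : K)) (hTW : T * W = W * T + T)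
    (cUW : Commute U W) (cUT : Commute U T) (cVW : Commute V W) (cVT : Commute V T) :
    psCl p c d * psCl p c' d' = psCl p a b * psCl p a' b' := by
  have h1 := ps_csa (p := p) a (b : K) b.ne_zero
  have h2 := ps_csa (p := p) a' (b' : K) b'.ne_zero
  have h3 := ps_csa (p := p) c (d : K) d.ne_zero
  have h4 := ps_csa (p := p) c' (d' : K) d'.ne_zero
  haveI i1 : Algebra.IsCentral K (PS K p a (b : K)) := h1.1
  haveI i2 : IsSimpleRing (PS K p a (b : K)) := h1.2.1
  haveI i3 : FiniteDimensional K (PS K p a (b : K)) := h1.2.2.1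
  haveI i4 : Algebra.IsCentral K (PS K p a' (b' : K)) := h2.1
  haveI i5 : IsSimpleRing (PS K p a' (b' : K)) := h2.2.1
  haveI i6 : FiniteDimensional K (PS K p a' (b' : K)) := h2.2.2.1
  haveI i7 : Algebra.IsCentral K (PS K p c (d : K)) := h3.1
  haveI i8 : IsSimpleRing (PS K p c (d : K)) := h3.2.1
  haveI i9 : FiniteDimensional K (PS K p c (d : K)) := h3.2.2.1
  haveI i10 : Algebra.IsCentral K (PS K p c' (d' : K)) := h4.1
  haveI i11 : IsSimpleRing (PS K p c' (d' : K)) := h4.2.1
  haveI i12 : FiniteDimensional K (PS K p c' (d' : K)) := h4.2.2.1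
  haveI i13 : IsSimpleRing (PS K p c (d : K) ⊗[K] PS K p c' (d' : K)) := isSimple_tensor
  haveI i14 : IsSimpleRing (PS K p a (b : K) ⊗[K] PS K p a' (b' : K)) := isSimple_tensor
  haveI i15 : Algebra.IsCentral K (PS K p a (b : K) ⊗[K] PS K p a' (b' : K)) := isCentral_tensor
  let f : PS K p c (d : K) →ₐ[K] (PS K p a (b : K) ⊗[K] PS K p a' (b' : K)) := psLift U V hU hV hVU
  let g : PS K p c' (d' : K) →ₐ[K] (PS K p a (b : K) ⊗[K] PS K p a' (b' : K)) := psLift W T hW hT hTW
  have hfx : f (px K p c (d : K)) = U := psLift_x _ _ _ _ _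
  have hfy : f (py K p c (d : K)) = V := psLift_y _ _ _ _ _
  have hgx : g (px K p c' (d' : K)) = W := psLift_x _ _ _ _ _
  have hgy : g (py K p c' (d' : K)) = T := psLift_y _ _ _ _ _
  have hfg : ∀ s t, Commute (f s) (g t) :=
    commute_gens d.ne_zero d'.ne_zero f g (by rw [hfx, hgx]; exact cUW) (by rw [hfx, hgy]; exact cUT)
      (by rw [hfy, hgx]; exact cVW) (by rw [hfy, hgy]; exact cVT)
  obtain ⟨e⟩ := equiv_of_hom (Algebra.TensorProduct.lift f g hfg) (by
    rw [Module.finrank_tensorProduct, Module.finrank_tensorProduct, h1.2.2.2, h2.2.2.2, h3.2.2.2, h4.2.2.2])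
  have e1 : brauerClass K (PS K p c (d : K)) * brauerClass K (PS K p c' (d' : K)) =
      brauerClass K (PS K p a (b : K) ⊗[K] PS K p a' (b' : K)) := brauerClass_mul_eq (BrEq.of_equiv e)
  have e2 : brauerClass K (PS K p a (b : K)) * brauerClass K (PS K p a' (b' : K)) =
      brauerClass K (PS K p a (b : K) ⊗[K] PS K p a' (b' : K)) := brauerClass_mul_eq (BrEq.of_equiv AlgEquiv.refl)
  exact e1.trans e2.symm

/-- a split symbol -/
theorem psCl_zero_one : psCl p (0 : K) 1 = 1 := by
  have h1 := ps_csa (p := p) (0 : K) ((1 : Kˣ) : K) (1 : Kˣ).ne_zero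
  haveI i1 : Algebra.IsCentral K (PS K p (0 : K) ((1 : Kˣ) : K)) := h1.1
  haveI i2 : IsSimpleRing (PS K p (0 : K) ((1 : Kˣ) : K)) := h1.2.1
  haveI i3 : FiniteDimensional K (PS K p (0 : K) ((1 : Kˣ) : K)) := h1.2.2.1
  obtain ⟨X, Y, hX, hY, hYX⟩ := model (K := K) (p := p) (a := 0) (b := ((1 : Kˣ) : K)) K 0 1
    (by rw [zero_pow hp.out.ne_zero, map_zero, add_zero]) (by rw [one_pow, Units.val_one, map_one])
  have hV : Module.finrank K (ZMod p → K) = p := by
    rw [Module.finrank_fintype_fun_eq_card, ZMod.card]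
  haveI : Nontrivial (Module.End K (ZMod p → K)) := by
    apply Module.nontrivial_of_finrank_pos (R := K)
    rw [Module.finrank_linearMap, hV]
    have := hp.out.pos
    positivity
  obtain ⟨e⟩ := equiv_of_hom (psLift X Y hX hY hYX) (by
    rw [h1.2.2.2, Module.finrank_linearMap, hV, sq])
  have b := Module.finBasisOfFinrankEq K (ZMod p → K) hV
  exact brauerClass_eq_one_iff.2 (BrEq.of_matrix hp.out.ne_zero (e.trans (algEquivMatrix b)))

end Pool.Agent.H19PS
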