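import Mathlib
import Pool.Agent.H79.LU.H19PS_C
import Pool.Agent.H79.LU.H552R3_SymIdx

/-! Bilinearity of the symbol `[a, b)`. -/

set_option autoImplicit false
set_option linter.all false

open scoped TensorProduct
open Polynomial

noncomputable section

namespace Pool.Agent.H19PS

open Pool.Agent.Helper18.Br Pool.Agent.H552R3.SymBr

universe u

variable {K : Type u} [Field K] {p : ℕ} [hp : Fact p.Prime] [CharP K p]

section tens

variable {A B : Type u} [Ring A] [Algebra K A] [Ring B] [Algebra K B]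

omit hp [CharP K p] in
theorem al_left (d : K) : algebraMap K (A ⊗[K] B) d = (algebraMap K A d) ⊗ₜ[K] 1 := by
  rw [Algebra.TensorProduct.algebraMap_apply]

omit hp [CharP K p] in
theorem al_both (d e : K) : (algebraMap K A d) ⊗ₜ[K] (algebraMap K B e) = algebraMap K (A ⊗[K] B) (d * e) := by
  rw [al_left, map_mul, Algebra.algebraMap_eq_smul_one (R := K) (A := B),
    TensorProduct.tmul_smul, TensorProduct.smul_tmul', Algebra.smul_def, ← map_mul, ← map_mul, mul_comm]

omit hp [CharP K p] in
theorem al_right (d : K) : (1 : A) ⊗ₜ[K] (algebraMap K B d) = algebraMap K (A ⊗[K] B) d := by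
  have := al_both (K := K) (A := A) (B := B) 1 d
  rwa [map_one, one_mul] at this

end tens

/-- `[a + a', b) + [a', 1) = [a, b) + [a', b)` -/
theorem psCl_add_aux (a a' : K) (b : Kˣ) :
    psCl p (a + a') b * psCl p a' 1 = psCl p a b * psCl p a' b := by
  have hx := px_pow (R := K) (p := p) (a := a) (b := (b : K))
  have hy := py_pow (R := K) (p := p) (a := a) (b := (b : K))
  have hyx := py_px (R := K) (p := p) (a := a) (b := (b : K))
  have hx' := px_pow (R := K) (p := p) (a := a') (b := (b : K))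
  have hy' := py_pow (R := K) (p := p) (a := a') (b := (b : K))
  have hyx' := py_px (R := K) (p := p) (a := a') (b := (b : K))
  have i1 := ps_csa (p := p) a (b : K) b.ne_zero
  have i2 := ps_csa (p := p) a' (b : K) b.ne_zero
  haveI := i1.1
  haveI := i1.2.1
  haveI := i1.2.2.1
  haveI := i2.1
  haveI := i2.2.1
  haveI := i2.2.2.1
  haveI i14 : IsSimpleRing (PS K p a (b : K) ⊗[K] PS K p a' (b : K)) := isSimple_tensor
  haveI : CharP (PS K p a (b : K) ⊗[K] PS K p a' (b : K)) p :=
    charP_of_injective_algebraMap (algebraMap K (PS K p a (b : K) ⊗[K] PS K p a' (b : K))).injective p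
  set x := px K p a (b : K)
  set y := py K p a (b : K)
  set x' := px K p a' (b : K)
  set y' := py K p a' (b : K)
  have hb : (b : K) ≠ 0 := b.ne_zero
  -- the inverse of `y`
  obtain ⟨yi, hyi, hyi', hyin, hxyi⟩ : ∃ yi : PS K p a (b : K), y * yi = 1 ∧ yi * y = 1 ∧
      yi ^ p = algebraMap K _ ((b : K)⁻¹) ∧ x * yi = yi * x + yi := by
    have e1 : y * ((b : K)⁻¹ • y ^ (p - 1)) = 1 := by
      rw [mul_smul_comm, ← pow_succ', Nat.sub_add_cancel hp.out.pos, hy, Algebra.smul_def, ← map_mul,
        inv_mul_cancel₀ hb, map_one]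
    have e2 : ((b : K)⁻¹ • y ^ (p - 1)) * y = 1 := by
      rw [smul_mul_assoc, ← pow_succ, Nat.sub_add_cancel hp.out.pos, hy, Algebra.smul_def, ← map_mul,
        inv_mul_cancel₀ hb, map_one]
    refine ⟨(b : K)⁻¹ • y ^ (p - 1), e1, e2, ?_, ?_⟩
    · have hc : Commute y ((b : K)⁻¹ • y ^ (p - 1)) := by rw [Commute, SemiconjBy, e1, e2]
      have h2 : y ^ p * ((b : K)⁻¹ • y ^ (p - 1)) ^ p = 1 := by
        rw [← hc.mul_pow, e1, one_pow]
      calc ((b : K)⁻¹ • y ^ (p - 1)) ^ p
          = algebraMap K _ ((b : K)⁻¹) * (y ^ p * ((b : K)⁻¹ • y ^ (p - 1)) ^ p) := by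
            rw [hy, ← mul_assoc, ← map_mul, inv_mul_cancel₀ hb, map_one, one_mul]
        _ = _ := by rw [h2, mul_one]
    · generalize (b : K)⁻¹ • y ^ (p - 1) = z at e1 e2
      have h3 : z * (y * x) * z = z * (x * y + y) * z := by rw [hyx]
      calc x * z = (z * y) * x * z := by rw [e2, one_mul]
        _ = z * (y * x) * z := by simp only [mul_assoc]
        _ = z * (x * y + y) * z := h3
        _ = z * x * (y * z) + (z * y) * z := by noncomm_ring
        _ = z * x + z := by rw [e1, e2, mul_one, one_mul]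
  refine psCl_pairs a a' (a + a') a' b b b 1 (x ⊗ₜ[K] 1 + 1 ⊗ₜ[K] x') (y ⊗ₜ[K] 1) (1 ⊗ₜ[K] x') (yi ⊗ₜ[K] y')
    ?_ ?_ ?_ ?_ ?_ ?_ ?_ ?_ ?_ ?_
  · rw [add_pow_char_of_commute _ (by
      rw [Commute, SemiconjBy, Algebra.TensorProduct.tmul_mul_tmul, Algebra.TensorProduct.tmul_mul_tmul, one_mul,
        mul_one, one_mul, mul_one]), Algebra.TensorProduct.tmul_pow, Algebra.TensorProduct.tmul_pow, one_pow, one_pow,
      hx, hx', map_add, TensorProduct.add_tmul, TensorProduct.tmul_add, al_right, ← al_left]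
    abel
  · rw [Algebra.TensorProduct.tmul_pow, one_pow, hy, al_left]
  · simp only [mul_add, add_mul, Algebra.TensorProduct.tmul_mul_tmul, hyx, TensorProduct.add_tmul, one_mul, mul_one]
    abel
  · rw [Algebra.TensorProduct.tmul_pow, one_pow, hx', TensorProduct.tmul_add, al_right]
  · rw [Algebra.TensorProduct.tmul_pow, hyin, hy', al_both, inv_mul_cancel₀ hb, Units.val_one]
  · simp only [Algebra.TensorProduct.tmul_mul_tmul, hyx', TensorProduct.tmul_add, one_mul, mul_one]
  · simp only [Commute, SemiconjBy, add_mul, mul_add, Algebra.TensorProduct.tmul_mul_tmul, one_mul, mul_one]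
  · simp only [Commute, SemiconjBy, add_mul, mul_add, Algebra.TensorProduct.tmul_mul_tmul, one_mul, mul_one, hxyi, hyx',
      TensorProduct.add_tmul, TensorProduct.tmul_add]
    abel
  · simp only [Commute, SemiconjBy, Algebra.TensorProduct.tmul_mul_tmul, one_mul, mul_one]
  · simp only [Commute, SemiconjBy, Algebra.TensorProduct.tmul_mul_tmul, one_mul, mul_one, hyi, hyi']

/-- `[a, b b') + [0, b') = [a, b) + [a, b')` -/
theorem psCl_mul_aux (a : K) (b b' : Kˣ) :
    psCl p a (b * b') * psCl p 0 b' = psCl p a b * psCl p a b' := by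
  have hx := px_pow (R := K) (p := p) (a := a) (b := (b : K))
  have hy := py_pow (R := K) (p := p) (a := a) (b := (b : K))
  have hyx := py_px (R := K) (p := p) (a := a) (b := (b : K))
  have hx' := px_pow (R := K) (p := p) (a := a) (b := (b' : K))
  have hy' := py_pow (R := K) (p := p) (a := a) (b := (b' : K))
  have hyx' := py_px (R := K) (p := p) (a := a) (b := (b' : K))
  have i1 := ps_csa (p := p) a (b : K) b.ne_zero
  have i2 := ps_csa (p := p) a (b' : K) b'.ne_zero
  haveI := i1.1
  haveI := i1.2.1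
  haveI := i1.2.2.1
  haveI := i2.1
  haveI := i2.2.1
  haveI := i2.2.2.1
  haveI i14 : IsSimpleRing (PS K p a (b : K) ⊗[K] PS K p a (b' : K)) := isSimple_tensor
  haveI : CharP (PS K p a (b : K) ⊗[K] PS K p a (b' : K)) p :=
    charP_of_injective_algebraMap (algebraMap K (PS K p a (b : K) ⊗[K] PS K p a (b' : K))).injective p
  set x := px K p a (b : K)
  set y := py K p a (b : K)
  set x' := px K p a (b' : K)
  set y' := py K p a (b' : K)
  refine psCl_pairs a a a 0 b b' (b * b') b' (x ⊗ₜ[K] 1) (y ⊗ₜ[K] y') (1 ⊗ₜ[K] x' - x ⊗ₜ[K] 1) (1 ⊗ₜ[K] y')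
    ?_ ?_ ?_ ?_ ?_ ?_ ?_ ?_ ?_ ?_
  · rw [Algebra.TensorProduct.tmul_pow, one_pow, hx, TensorProduct.add_tmul, al_left]
  · rw [Algebra.TensorProduct.tmul_pow, hy, hy', al_both, Units.val_mul]
  · simp only [Algebra.TensorProduct.tmul_mul_tmul, hyx, TensorProduct.add_tmul, one_mul, mul_one]
  · rw [sub_pow_char_of_commute _ (by
      rw [Commute, SemiconjBy, Algebra.TensorProduct.tmul_mul_tmul, Algebra.TensorProduct.tmul_mul_tmul, one_mul,
        mul_one, one_mul, mul_one]), Algebra.TensorProduct.tmul_pow, Algebra.TensorProduct.tmul_pow, one_pow, one_pow,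
      hx, hx', TensorProduct.add_tmul, TensorProduct.tmul_add, al_right, ← al_left, map_zero]
    abel
  · rw [Algebra.TensorProduct.tmul_pow, one_pow, hy', al_right]
  · simp only [mul_sub, sub_mul, Algebra.TensorProduct.tmul_mul_tmul, hyx', TensorProduct.tmul_add, one_mul, mul_one]
    abel
  · simp only [Commute, SemiconjBy, mul_sub, sub_mul, Algebra.TensorProduct.tmul_mul_tmul, one_mul, mul_one]
  · simp only [Commute, SemiconjBy, Algebra.TensorProduct.tmul_mul_tmul, one_mul, mul_one]
  · simp only [Commute, SemiconjBy, mul_sub, sub_mul, Algebra.TensorProduct.tmul_mul_tmul, one_mul, mul_one, hyx, hyx',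
      TensorProduct.add_tmul, TensorProduct.tmul_add]
    abel
  · simp only [Commute, SemiconjBy, Algebra.TensorProduct.tmul_mul_tmul, one_mul, mul_one]

theorem psCl_zero_left (b : Kˣ) : psCl p (0 : K) b = 1 := by
  have h := psCl_add_aux (p := p) (0 : K) 0 b
  rw [add_zero, psCl_zero_one, mul_one] at h
  exact (mul_eq_left.1 h.symm)

theorem psCl_mul_right (a : K) (b b' : Kˣ) : psCl p a (b * b') = psCl p a b * psCl p a b' := by
  have h := psCl_mul_aux (p := p) a b b'
  rwa [psCl_zero_left, mul_one] at h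

theorem psCl_one_right (a : K) : psCl p a 1 = 1 := by
  have h := psCl_mul_right (p := p) a 1 1
  rw [one_mul] at h
  exact (mul_eq_left.1 h.symm)

theorem psCl_add_left (a a' : K) (b : Kˣ) : psCl p (a + a') b = psCl p a b * psCl p a' b := by
  have h := psCl_add_aux (p := p) a a' b
  rwa [psCl_one_right, mul_one] at h

/-- the symbol as a bimultiplicative map -/
def psHom (p : ℕ) [hp : Fact p.Prime] (K : Type u) [Field K] [CharP K p] :
    Multiplicative K →* Kˣ →* BrauerGroup.{u, u} K where
  toFun := fun a =>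
    { toFun := fun b => psCl p (Multiplicative.toAdd a) b
      map_one' := psCl_one_right _
      map_mul' := psCl_mul_right _ }
  map_one' := by
    ext b
    exact psCl_zero_left b
  map_mul' := fun a a' => by
    ext b
    exact psCl_add_left _ _ b

theorem psHom_apply (a : K) (b : Kˣ) : psHom p K (Multiplicative.ofAdd a) b = psCl p a b := rfl

theorem psCl_tors (a : K) (b : Kˣ) : psCl p a b ^ p = 1 := by
  have h : psHom p K (Multiplicative.ofAdd a ^ p) b = psCl p a b ^ p := by
    rw [map_pow]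
    rfl
  rw [← h, ← ofAdd_nsmul, nsmul_eq_mul, CharP.cast_eq_zero, zero_mul]
  exact psCl_zero_left b

theorem psCl_pow_right (a : K) (c : Kˣ) : psCl p a (c ^ p) = 1 := by
  have h : psHom p K (Multiplicative.ofAdd a) (c ^ p) = psCl p a c ^ p := by
    rw [map_pow]
    rfl
  rw [← psHom_apply, h, psCl_tors]

/-- `[a + c^p - c, b) = [a, b)` -/
theorem psCl_shift (a c : K) (b : Kˣ) : psCl p a b = psCl p (a + (c ^ p - c)) b := by
  have hx := px_pow (R := K) (p := p) (a := a) (b := (b : K))
  have hy := py_pow (R := K) (p := p) (a := a) (b := (b : K))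
  have hyx := py_px (R := K) (p := p) (a := a) (b := (b : K))
  haveI := ps_nontrivial (p := p) a (b : K)
  haveI : CharP (PS K p a (b : K)) p :=
    charP_of_injective_algebraMap (algebraMap K (PS K p a (b : K))).injective p
  refine psCl_eq_of_gens a (a + (c ^ p - c)) b b (px K p a (b : K) + algebraMap K _ c) (py K p a (b : K)) ?_ hy ?_
  · rw [add_pow_char_of_commute _ (Algebra.commutes c (px K p a (b : K))).symm, hx, map_add, map_sub, map_pow]
    abel
  · rw [mul_add, add_mul, hyx, Algebra.commutes c (py K p a (b : K))]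
    abel

theorem psCl_wp (c : K) (b : Kˣ) : psCl p (c ^ p - c) b = 1 := by
  have h := psCl_shift (p := p) 0 c b
  rw [zero_add, psCl_zero_left] at h
  exact h.symm

/-- `c` is the class of a symbol algebra `[a, b)`: it is the class of a central simple algebra of dimension
`p ^ 2` which contains elements `x, y` with `x ^ p - x = a`, `y ^ p = b`, `y x = (x + 1) y`. -/
def IsPSym {K : Type u} [Field K] (p : ℕ) (a : K) (b : Kˣ) (c : BrauerGroup.{u, u} K) : Prop :=
  ∃ (A : Type u) (_ : Ring A) (_ : Algebra K A) (_ : Algebra.IsCentral K A) (_ : IsSimpleRing A)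
    (_ : FiniteDimensional K A), Module.finrank K A = p ^ 2 ∧ brauerClass K A = c ∧
      ∃ x y : A, x ^ p - x = algebraMap K A a ∧ y ^ p = algebraMap K A b ∧ y * x = (x + 1) * y

theorem isPSym_iff (a : K) (b : Kˣ) (c : BrauerGroup.{u, u} K) : IsPSym p a b c ↔ c = psCl p a b := by
  constructor
  · rintro ⟨A, _, _, _, _, _, hA, hc, x, y, hx, hy, hyx⟩
    rw [← hc]
    refine psCl_of_gens hA a b x y ?_ hy ?_
    · rw [← hx]; abel
    · rw [hyx, add_mul, one_mul]
  · rintro rfl
    have h := ps_csa (p := p) a (b : K) b.ne_zero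
    haveI := h.1
    haveI := h.2.1
    haveI := h.2.2.1
    exact ⟨PS K p a (b : K), inferInstance, inferInstance, inferInstance, inferInstance, inferInstance, h.2.2.2, rfl,
      px K p a b, py K p a b, by rw [px_pow]; abel, py_pow, by rw [py_px, add_mul, one_mul]⟩

theorem hasRep_one' : HasRep (1 : BrauerGroup.{u, u} K) 1 :=
  ⟨K, inferInstance, inferInstance, inferInstance, inferInstance, inferInstance, rfl, by
    rw [Module.finrank_self, one_pow]⟩

theorem hasRep_prod : ∀ (g : ℕ) (x : Fin g → K) (y : Fin g → Kˣ),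
    HasRep (∏ i, psCl p (x i) (y i)) (p ^ g) := by
  intro g
  induction g with
  | zero =>
    intro x y
    rw [Finset.univ_eq_empty, Finset.prod_empty, pow_zero]
    exact hasRep_one'
  | succ g ih =>
    intro x y
    rw [Fin.prod_univ_succ, pow_succ, mul_comm (p ^ g)]
    exact (hasRep_psCl _ _).mul (ih _ _)

end Pool.Agent.H19PS
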