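import Mathlib
import Pool.Agent.H79.LU.H552R3_SymGrp
import Pool.Agent.H79.LU.Helper346_Bra_SE

/-! The form attached to a symbol algebra. -/

set_option autoImplicit false
set_option linter.all false

namespace Pool.Agent.H552R3.Tsen

open Pool.Agent.Helper346.Bra Pool.Agent.Helper18.Br Pool.Agent.H552R3.SymBr

universe u

variable {L : Type u} [Field L] {n : ℕ} {ζ : L}

open Polynomial in
/-- `X ^ n - v` is irreducible if `v` is not a proper power and `L` contains a primitive `n`-th root of unity. -/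
theorem irred (hn : 0 < n) (hζ : IsPrimitiveRoot ζ n) (v : L) (hv0 : v ≠ 0) (hv : ∀ t, 2 ≤ t → ∀ u : L, u ^ t ≠ v) :
    Irreducible (X ^ n - C v : L[X]) := by
  classical
  haveI : NeZero n := ⟨hn.ne'⟩
  let Ω := AlgebraicClosure L
  obtain ⟨θ, hθ⟩ := IsAlgClosed.exists_pow_nat_eq (algebraMap L Ω v) hn
  have hv0' : algebraMap L Ω v ≠ 0 := by
    rw [Ne, FaithfulSMul.algebraMap_eq_zero_iff]; exact hv0
  have hθ0 : θ ≠ 0 := by
    rintro rfl
    rw [zero_pow hn.ne'] at hθ
    exact hv0' hθ.symm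
  have hint : IsIntegral L θ := Algebra.IsIntegral.isIntegral θ
  have hζΩ : IsPrimitiveRoot (algebraMap L Ω ζ) n := hζ.map_of_injective (algebraMap L Ω).injective
  obtain ⟨g, hg⟩ : ∃ g, g = minpoly L θ := ⟨_, rfl⟩
  have hgm : g.Monic := hg ▸ minpoly.monic hint
  have hgi : Irreducible g := hg ▸ minpoly.irreducible hint
  have hgd : g ∣ X ^ n - C v := by
    rw [hg]
    apply minpoly.dvd
    simp [hθ]
  -- roots of `g`
  have hroot : ∀ ρ ∈ (g.map (algebraMap L Ω)).roots, ∃ j : ℕ, ρ = (algebraMap L Ω ζ) ^ j * θ := by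
    intro ρ hρ
    have h1 : (g.map (algebraMap L Ω)).eval ρ = 0 := (mem_roots'.1 hρ).2
    have h2 : ((X ^ n - C v : L[X]).map (algebraMap L Ω)).eval ρ = 0 := by
      obtain ⟨q, hq⟩ := hgd
      rw [hq, Polynomial.map_mul, eval_mul, h1, zero_mul]
    simp only [Polynomial.map_sub, Polynomial.map_pow, map_X, map_C, eval_sub, eval_pow, eval_X, eval_C] at h2
    have h3 : (ρ / θ) ^ n = 1 := by
      rw [div_pow, hθ, sub_eq_zero.1 h2, div_self hv0']
    obtain ⟨j, -, hj⟩ := hζΩ.eq_pow_of_pow_eq_one h3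
    exact ⟨j, by rw [hj, div_mul_cancel₀ ρ hθ0]⟩
  have hprod : ∀ M : Multiset Ω, (∀ ρ ∈ M, ∃ j : ℕ, ρ = (algebraMap L Ω ζ) ^ j * θ) →
      ∃ s : ℕ, M.prod = (algebraMap L Ω ζ) ^ s * θ ^ (Multiset.card M) := by
    intro M
    induction M using Multiset.induction_on with
    | empty => intro _; exact ⟨0, by simp⟩
    | cons ρ M ih =>
      intro h
      obtain ⟨s, hs⟩ := ih fun ρ hρ => h ρ (Multiset.mem_cons_of_mem hρ)
      obtain ⟨j, hj⟩ := h ρ (Multiset.mem_cons_self _ _)
      refine ⟨j + s, ?_⟩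
      rw [Multiset.prod_cons, hs, hj, Multiset.card_cons]
      ring
  obtain ⟨s, hs⟩ := hprod _ hroot
  have hsplit : (g.map (algebraMap L Ω)).Splits := IsAlgClosed.splits _
  have hcard : Multiset.card (g.map (algebraMap L Ω)).roots = g.natDegree := by
    rw [← hsplit.natDegree_eq_card_roots, natDegree_map]
  -- `θ ^ d` lies in `L`
  obtain ⟨c, hc⟩ : ∃ c : L, algebraMap L Ω c = θ ^ g.natDegree := by
    have h1 : (g.map (algebraMap L Ω)).coeff 0 = (-1) ^ (g.map (algebraMap L Ω)).natDegree *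
        (g.map (algebraMap L Ω)).roots.prod :=
      hsplit.coeff_zero_eq_prod_roots_of_monic (hgm.map _)
    rw [coeff_map, hs, hcard, natDegree_map] at h1
    have hz : algebraMap L Ω ζ ≠ 0 := hζΩ.ne_zero hn.ne'
    refine ⟨(-1) ^ g.natDegree * g.coeff 0 * (ζ ^ s)⁻¹, ?_⟩
    rw [map_mul, map_mul, h1, map_inv₀, map_pow, map_pow, map_neg, map_one]
    have h2 : ((-1 : Ω) ^ g.natDegree) * ((-1) ^ g.natDegree) = 1 := by
      rw [← mul_pow, neg_mul_neg, one_mul, one_pow]
    have h3 := mul_inv_cancel₀ (pow_ne_zero s hz)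
    calc (-1 : Ω) ^ g.natDegree * ((-1) ^ g.natDegree * (algebraMap L Ω ζ ^ s * θ ^ g.natDegree)) *
          (algebraMap L Ω ζ ^ s)⁻¹ = ((-1) ^ g.natDegree * (-1) ^ g.natDegree) *
            (algebraMap L Ω ζ ^ s * (algebraMap L Ω ζ ^ s)⁻¹) * θ ^ g.natDegree := by ring
      _ = θ ^ g.natDegree := by rw [h2, h3, one_mul, one_mul]
  -- the subgroup of exponents
  let Z : AddSubgroup ℤ :=
    { carrier := {m | ∃ c : L, algebraMap L Ω c = θ ^ m}
      add_mem' := by
        rintro a b ⟨c, hc⟩ ⟨d, hd⟩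
        exact ⟨c * d, by rw [map_mul, hc, hd, zpow_add₀ hθ0]⟩
      zero_mem' := ⟨1, by simp⟩
      neg_mem' := by
        rintro a ⟨c, hc⟩
        exact ⟨c⁻¹, by rw [map_inv₀, hc, zpow_neg]⟩ }
  have hd : (g.natDegree : ℤ) ∈ Z := ⟨c, by rw [hc, zpow_natCast]⟩
  have hnZ : (n : ℤ) ∈ Z := ⟨v, by rw [← hθ, zpow_natCast]⟩
  have hgcd : ((Nat.gcd g.natDegree n : ℕ) : ℤ) ∈ Z := by
    rw [Nat.gcd_eq_gcd_ab]
    refine Z.add_mem ?_ ?_
    · rw [mul_comm, ← smul_eq_mul]; exact Z.zsmul_mem hd _
    · rw [mul_comm, ← smul_eq_mul]; exact Z.zsmul_mem hnZ _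
  obtain ⟨w, hw⟩ := hgcd
  rw [zpow_natCast] at hw
  obtain ⟨t, ht⟩ := Nat.gcd_dvd_right g.natDegree n
  have hwt : w ^ t = v := by
    apply (algebraMap L Ω).injective
    rw [map_pow, hw, ← pow_mul, ← ht, hθ]
  have ht1 : t = 1 := by
    by_contra ht1
    have ht0 : t ≠ 0 := by rintro rfl; omega
    exact hv t (by omega) w hwt
  rw [ht1, mul_one] at ht
  have hnd : n ∣ g.natDegree := by
    rw [ht]; exact Nat.gcd_dvd_left _ _
  have hgpos : 0 < g.natDegree := hgi.natDegree_pos
  have hge : n ≤ g.natDegree := Nat.le_of_dvd hgpos hnd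
  have hfin : X ^ n - C v = g := by
    refine Polynomial.eq_of_monic_of_dvd_of_natDegree_le hgm (monic_X_pow_sub_C v hn.ne') hgd ?_
    rw [natDegree_X_pow_sub_C]
    exact hge
  rw [hfin]
  exact hgi

section form

open MvPolynomial

theorem isUnit_aux {R : Type*} [Ring R] {a : R} (t : R) (h1 : a * t = 1) (h2 : t * a = 1) : IsUnit a :=
  ⟨⟨a, t, h1, h2⟩, rfl⟩

theorem totalDegree_matrix_pow {R I J : Type*} [CommRing R] [Fintype I] [DecidableEq I]
    (M : Matrix I I (MvPolynomial J R)) (hM : ∀ i j, (M i j).totalDegree ≤ 1) (m : ℕ) :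
    ∀ i j, ((M ^ m) i j).totalDegree ≤ m := by
  induction m with
  | zero =>
    intro i j
    rw [pow_zero, Matrix.one_apply]
    split_ifs
    · rw [totalDegree_one]
    · rw [totalDegree_zero]
  | succ m ih =>
    intro i j
    rw [pow_succ, Matrix.mul_apply]
    refine totalDegree_finsetSum_le fun l _ => (totalDegree_mul _ _).trans ?_
    exact Nat.add_le_add (ih i l) (hM l j)

/-- If every polynomial of degree at most `n` in `n + 1` variables without constant term has a nontrivial
zero and `v` is not a proper power, then `{v, y} = 1`. -/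
theorem symCl_eq_one_of_c1 (hn : 0 < n) (hζ : IsPrimitiveRoot ζ n)
    (hC1 : ∀ Ψ : MvPolynomial (Option (Fin n)) L, Ψ.totalDegree ≤ n → eval 0 Ψ = 0 →
      ∃ a : Option (Fin n) → L, a ≠ 0 ∧ eval a Ψ = 0)
    (v y : Lˣ) (hv : ∀ t, 2 ≤ t → ∀ u : L, u ^ t ≠ v) : symCl hn hζ v y = 1 := by
  classical
  have hirr := irred hn hζ (v : L) v.ne_zero hv
  have hX : gx L n ζ (v : L) (y : L) ^ n = algebraMap L _ (v : L) := gx_pow
  have hY : gy L n ζ (v : L) (y : L) ^ n = algebraMap L _ (y : L) := gy_pow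
  have hYX := gyx (n := n) (ζ := ζ) (v : L) (y : L)
  have hcsa := symb_csa n hn ζ (v : L) (y : L) hζ (n_ne_zero hn hζ) v.ne_zero y.ne_zero
  haveI : Algebra.IsCentral L (Symb L n ζ (v : L) (y : L)) := hcsa.1
  haveI : IsSimpleRing (Symb L n ζ (v : L) (y : L)) := hcsa.2.1
  haveI : FiniteDimensional L (Symb L n ζ (v : L) (y : L)) := hcsa.2.2.1
  obtain ⟨E, hE⟩ := symb_basis n hn ζ (v : L) (y : L) hζ.pow_eq_one
  have hadj := adjoin_gens hn hζ (v : L) (y : L)
  set B := Symb L n ζ (v : L) (y : L) with hB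
  set x := gx L n ζ (v : L) (y : L) with hxdef
  set z := gy L n ζ (v : L) (y : L) with hzdef
  let o : Fin n × Fin n := (⟨0, hn⟩, ⟨0, hn⟩)
  have hEo : E o = 1 := by rw [hE]; simp [o]
  -- the elements `w a`
  let s : (Fin n → L) → B := fun a => ∑ i, a i • x ^ (i : ℕ)
  let w : (Fin n → L) → B := fun a => s a * z
  have hsx : ∀ a, Commute (s a) x := fun a =>
    Commute.sum_left _ _ _ fun i _ => Commute.smul_left ((Commute.refl x).pow_left _) _
  have hwx : ∀ a, w a * x = ζ • (x * w a) := by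
    intro a
    change s a * z * x = ζ • (x * (s a * z))
    rw [mul_assoc, hYX, mul_smul_comm, ← mul_assoc, (hsx a).eq, mul_assoc]
  have hsunit : ∀ a : Fin n → L, a ≠ 0 → ∃ t : B, t * s a = 1 ∧ s a * t = 1 := by
    intro a ha
    let q : Polynomial L := ∑ i : Fin n, Polynomial.C (a i) * Polynomial.X ^ (i : ℕ)
    have hq : Polynomial.aeval x q = s a := by
      simp only [q, s, map_sum, map_mul, Polynomial.aeval_C, map_pow, Polynomial.aeval_X]
      exact Finset.sum_congr rfl fun i _ => (Algebra.smul_def _ _).symm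
    have hqc : ∀ i : Fin n, q.coeff (i : ℕ) = a i := by
      intro i
      simp only [q, Polynomial.finset_sum_coeff, Polynomial.coeff_C_mul, Polynomial.coeff_X_pow,
        mul_ite, mul_one, mul_zero]
      rw [Finset.sum_eq_single i]
      · simp
      · intro j _ hj
        rw [if_neg]
        intro h
        exact hj (Fin.ext h.symm)
      · intro h
        exact absurd (Finset.mem_univ i) h
    have hq0 : q ≠ 0 := by
      intro h
      apply ha
      funext i
      rw [← hqc, h, Polynomial.coeff_zero]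
      rfl
    have hqd : q.degree < n := by
      refine (Polynomial.degree_sum_le _ _).trans_lt ?_
      rw [Finset.sup_lt_iff (by exact_mod_cast WithBot.bot_lt_coe n)]
      intro i _
      refine (Polynomial.degree_C_mul_X_pow_le _ _).trans_lt ?_
      exact_mod_cast i.2
    have hcop : IsCoprime (Polynomial.X ^ n - Polynomial.C (v : L)) q := by
      rw [hirr.coprime_iff_not_dvd]
      intro hdvd
      have h1 := Polynomial.degree_le_of_dvd hdvd hq0
      rw [Polynomial.degree_X_pow_sub_C hn] at h1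
      exact absurd (h1.trans_lt hqd) (lt_irrefl _)
    obtain ⟨c, d, hcd⟩ := hcop
    have h1 := congrArg (Polynomial.aeval x) hcd
    rw [map_add, map_mul, map_mul, map_one, hq, map_sub, map_pow, Polynomial.aeval_X, Polynomial.aeval_C, hX,
      sub_self, mul_zero, zero_add] at h1
    refine ⟨Polynomial.aeval x d, h1, ?_⟩
    rw [← hq, ← map_mul, mul_comm, map_mul, hq]
    exact h1
  have hzunit : ∃ t : B, z * t = 1 ∧ t * z = 1 := by
    refine ⟨(y : L)⁻¹ • z ^ (n - 1), ?_, ?_⟩
    · rw [mul_smul_comm, ← pow_succ', Nat.sub_add_cancel hn, hY, Algebra.smul_def, ← map_mul,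
        inv_mul_cancel₀ y.ne_zero, map_one]
    · rw [smul_mul_assoc, ← pow_succ, Nat.sub_add_cancel hn, hY, Algebra.smul_def, ← map_mul,
        inv_mul_cancel₀ y.ne_zero, map_one]
  have hwunit : ∀ a : Fin n → L, a ≠ 0 → w a ^ n ≠ 0 := by
    intro a ha h0
    obtain ⟨t, ht1, ht2⟩ := hsunit a ha
    obtain ⟨t', ht1', ht2'⟩ := hzunit
    have hu : IsUnit (w a) := (isUnit_aux t ht2 ht1).mul
      (isUnit_aux t' ht1' ht2')
    exact (hu.pow n).ne_zero h0
  -- `w a ^ n` is a scalar
  have hscalar : ∀ a : Fin n → L, ∃ c : L, w a ^ n = algebraMap L B c := by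
    intro a
    by_cases ha : a = 0
    · refine ⟨0, ?_⟩
      have : w a = 0 := by simp [w, s, ha]
      rw [this, zero_pow hn.ne', map_zero]
    · obtain ⟨t, ht1, ht2⟩ := hsunit a ha
      have h1 : Commute (w a ^ n) x := by
        rw [Commute, SemiconjBy, mv_y_pow_x (hwx a), hζ.pow_eq_one, one_smul]
      have h2 : Commute (w a ^ n) (s a) :=
        Commute.sum_right _ _ _ fun i _ => Commute.smul_right (h1.pow_right _) _
      have h3 : Commute (w a ^ n) t := by
        rw [Commute, SemiconjBy]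
        calc w a ^ n * t = (t * s a) * (w a ^ n * t) := by rw [ht1, one_mul]
          _ = t * (s a * w a ^ n) * t := by simp only [mul_assoc]
          _ = t * (w a ^ n * s a) * t := by rw [h2.eq]
          _ = t * w a ^ n * (s a * t) := by simp only [mul_assoc]
          _ = t * w a ^ n := by rw [ht2, mul_one]
      have h4 : Commute (w a ^ n) z := by
        have h5 : z = t * w a := by
          change z = t * (s a * z)
          rw [← mul_assoc, ht1, one_mul]
        rw [h5]
        exact h3.mul_right ((Commute.refl (w a)).pow_left n)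
      have hc : w a ^ n ∈ Subalgebra.center L B := by
        rw [Subalgebra.mem_center_iff]
        intro b
        have hb : b ∈ Subalgebra.centralizer L {w a ^ n} := by
          have hle : Algebra.adjoin L {x, z} ≤ Subalgebra.centralizer L {w a ^ n} := by
            rw [Algebra.adjoin_le_iff]
            rintro c (rfl | hc)
            · intro g hg
              rw [Set.mem_singleton_iff.1 hg]
              exact h1.eq
            · rw [Set.mem_singleton_iff.1 hc]
              intro g hg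
              rw [Set.mem_singleton_iff.1 hg]
              exact h4.eq
          exact hle (hadj b)
        exact (hb (w a ^ n) (Set.mem_singleton _)).symm
      rw [Algebra.IsCentral.center_eq_bot] at hc
      obtain ⟨c, hc⟩ := Algebra.mem_bot.1 hc
      exact ⟨c, hc.symm⟩
  -- the form
  let M : Matrix (Fin n × Fin n) (Fin n × Fin n) (MvPolynomial (Fin n) L) :=
    ∑ i, (X i : MvPolynomial (Fin n) L) • (Algebra.leftMulMatrix E (x ^ (i : ℕ) * z)).map C
  let G : MvPolynomial (Fin n) L := (M ^ n) o o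
  have hMdeg : ∀ i j, (M i j).totalDegree ≤ 1 := by
    intro i j
    simp only [M, Matrix.sum_apply, Matrix.smul_apply, Matrix.map_apply, smul_eq_mul]
    refine totalDegree_finsetSum_le fun l _ => (totalDegree_mul _ _).trans ?_
    rw [totalDegree_X, totalDegree_C]
  have hGdeg : G.totalDegree ≤ n := totalDegree_matrix_pow M hMdeg n o o
  have hMev : ∀ a : Fin n → L, M.map (eval a) = Algebra.leftMulMatrix E (w a) := by
    intro a
    have h1 : w a = ∑ i, a i • (x ^ (i : ℕ) * z) := by
      simp only [w, s]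
      rw [Finset.sum_mul]
      exact Finset.sum_congr rfl fun i _ => smul_mul_assoc _ _ _
    rw [h1, map_sum]
    ext i j
    simp only [M, Matrix.map_apply, Matrix.sum_apply, Matrix.smul_apply, smul_eq_mul, map_sum, map_mul,
      eval_X, eval_C, map_smul]
  have hGev : ∀ a : Fin n → L, w a ^ n = algebraMap L B (eval a G) := by
    intro a
    obtain ⟨c, hc⟩ := hscalar a
    have h1 : eval a G = c := by
      have h2 : (M ^ n).map (eval a) = Algebra.leftMulMatrix E (w a ^ n) := by
        rw [map_pow, ← hMev]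
        exact map_pow (RingHom.mapMatrix (eval a)) M n
      have h3 := congrFun (congrFun h2 o) o
      rw [Matrix.map_apply, Algebra.leftMulMatrix_eq_repr_mul, hEo, mul_one, hc,
        Algebra.algebraMap_eq_smul_one, ← hEo, map_smul, E.repr_self, Finsupp.smul_apply,
        Finsupp.single_eq_same, smul_eq_mul, mul_one] at h3
      exact h3
    rw [h1, hc]
  let Ψ : MvPolynomial (Option (Fin n)) L := rename some G - X none ^ n
  have hΨdeg : Ψ.totalDegree ≤ n := by
    refine (totalDegree_sub _ _).trans (max_le ((totalDegree_rename_le _ _).trans hGdeg) ?_)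
    rw [totalDegree_X_pow]
  have hΨev : ∀ a : Option (Fin n) → L, eval a Ψ = eval (fun i => a (some i)) G - a none ^ n := by
    intro a
    simp only [Ψ, map_sub, map_pow, eval_X, eval_rename]
    rfl
  have hΨ0 : eval 0 Ψ = 0 := by
    rw [hΨev]
    have h1 := hGev 0
    have h2 : w 0 = 0 := by simp [w, s]
    rw [h2, zero_pow hn.ne'] at h1
    have h3 : eval (0 : Fin n → L) G = 0 := by
      have h4 := h1.symm
      rwa [FaithfulSMul.algebraMap_eq_zero_iff] at h4
    change eval (0 : Fin n → L) G - 0 ^ n = 0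
    rw [h3, zero_pow hn.ne', sub_zero]
  obtain ⟨a, ha0, ha⟩ := hC1 Ψ hΨdeg hΨ0
  rw [hΨev, sub_eq_zero] at ha
  obtain ⟨a', ha'⟩ : ∃ a' : Fin n → L, a' = fun i => a (some i) := ⟨_, rfl⟩
  rw [← ha'] at ha
  have hw := hGev a'
  rw [ha] at hw
  have ha'0 : a' ≠ 0 := by
    rintro rfl
    apply ha0
    have h1 : w 0 = 0 := by simp [w, s]
    rw [h1, zero_pow hn.ne', eq_comm, FaithfulSMul.algebraMap_eq_zero_iff] at hw
    funext i
    cases i with
    | none => exact pow_eq_zero_iff hn.ne' |>.1 hw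
    | some i => exact (congrFun ha' i).symm
  have hc0 : a none ≠ 0 := by
    intro h
    apply hwunit a' ha'0
    rw [hw, h, zero_pow hn.ne', map_zero]
  have h1 : symCl hn hζ v y = symCl hn hζ v (Units.mk0 (a none) hc0 ^ n) := by
    refine symCl_eq_of_gens hn hζ v y v (Units.mk0 (a none) hc0 ^ n) x (w a') hX ?_ ?_
    · rw [hw, Units.val_pow_eq_pow_val, Units.val_mk0]
    · rw [hwx, Algebra.smul_def]
  have h2 := symCl_scale hn hζ v 1 (Units.mk0 (a none) hc0)
  rw [one_mul, symCl_one_right] at h2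
  rw [h1, ← h2]

end form

end Pool.Agent.H552R3.Tsen
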