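import Mathlib
import Pool.Agent.H79.LU.H552R3_SymFinal
import Pool.Agent.H79.LU.H552R3_Tsen_C1
import Pool.Agent.H79.LU.H552R3_Tsen_Form

/-! Tsen's theorem for symbols. -/

set_option autoImplicit false
set_option linter.all false

namespace Pool.Agent.H552R3.Tsen

open Pool.Agent.Helper346.Bra Pool.Agent.Helper18.Br Pool.Agent.H552R3.SymBr

universe u

open Polynomial

section tower

variable {k E L : Type u} [Field k] [Field E] [Field L] [Algebra k E] [Algebra E L] [Algebra k L]
  [IsScalarTower k E L]

/-- common denominators -/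
theorem common_denom (x : E) (hE : ∀ c : E, ∃ p q : k[X], aeval x q ≠ 0 ∧ c * aeval x q = aeval x p)
    {J : Type*} [Fintype J] (c : J → E) :
    ∃ h : k[X], aeval x h ≠ 0 ∧ ∃ p : J → k[X], ∀ j, aeval x h * c j = aeval x (p j) := by
  classical
  choose p q hq hpq using fun j => hE (c j)
  refine ⟨∏ j, q j, ?_, fun j => p j * ∏ i ∈ Finset.univ.erase j, q i, ?_⟩
  · rw [map_prod]
    exact Finset.prod_ne_zero_iff.2 fun j _ => hq j
  · intro j
    rw [map_mul, ← hpq j, ← Finset.mul_prod_erase Finset.univ q (Finset.mem_univ j), map_mul]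
    ring

theorem power_bound [FiniteDimensional E L] (x : E) (hx : Transcendental k x)
    (hE : ∀ c : E, ∃ p q : k[X], aeval x q ≠ 0 ∧ c * aeval x q = aeval x p) (v : L) (t : ℕ)
    (hv : v ^ t = algebraMap E L x) : t ≤ Module.finrank E L := by
  classical
  have hX : Transcendental k (algebraMap E L x) := by
    rwa [transcendental_algebraMap_iff (algebraMap E L).injective]
  have hvt : Transcendental k v := by
    intro hv'
    apply hX
    rw [← hv]
    exact hv'.pow t
  have hli : LinearIndependent E (fun i : Fin t => v ^ (i : ℕ)) := by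
    rw [Fintype.linearIndependent_iff]
    intro c hc i0
    obtain ⟨h, hh, p, hp⟩ := common_denom x hE c
    have h1 : aeval v (∑ i : Fin t, expand k t (p i) * X ^ (i : ℕ)) = 0 := by
      have h2 : algebraMap E L (aeval x h) * ∑ i, c i • v ^ (i : ℕ) = 0 := by rw [hc, mul_zero]
      rw [← h2, Finset.mul_sum, map_sum]
      refine Finset.sum_congr rfl fun i _ => ?_
      rw [map_mul, expand_aeval, hv, map_pow, aeval_X, aeval_algebraMap_apply, ← hp, map_mul,
        Algebra.smul_def, mul_assoc]
    have h3 : (∑ i : Fin t, expand k t (p i) * X ^ (i : ℕ)) = 0 := by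
      by_contra h0
      exact hvt ⟨_, h0, h1⟩
    have ht : 0 < t := lt_of_le_of_lt (Nat.zero_le _) i0.2
    have h4 : p i0 = 0 := by
      ext a
      have h5 := congrArg (fun q => coeff q (t * a + i0)) h3
      simp only [finset_sum_coeff, coeff_mul_X_pow', coeff_zero] at h5
      rw [Finset.sum_eq_single i0] at h5
      · rw [if_pos (Nat.le_add_left _ _), Nat.add_sub_cancel, mul_comm t a, coeff_expand_mul ht] at h5
        rw [h5, coeff_zero]
      · intro i _ hi
        split_ifs with h6
        · rw [coeff_expand ht, if_neg]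
          rintro ⟨b, hb⟩
          apply hi
          apply Fin.ext
          have h7 : t * a + i0 = t * b + i := by omega
          have h8 := congrArg (fun z => z % t) h7
          simp only [Nat.mul_add_mod] at h8
          rw [Nat.mod_eq_of_lt i0.2, Nat.mod_eq_of_lt i.2] at h8
          exact h8.symm
        · rfl
      · intro h6
        exact absurd (Finset.mem_univ i0) h6
    have h9 := hp i0
    rw [h4, map_zero] at h9
    exact (mul_eq_zero.1 h9).resolve_left hh
  have := hli.fintype_card_le_finrank
  rwa [Fintype.card_fin] at this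

theorem tsen_tower [IsAlgClosed k] [FiniteDimensional E L] (x : E) (hx : Transcendental k x)
    (hE : ∀ c : E, ∃ p q : k[X], aeval x q ≠ 0 ∧ c * aeval x q = aeval x p)
    {n : ℕ} (hn : 0 < n) {ζ : k} (hζ : IsPrimitiveRoot ζ n) (xL y : Lˣ) (hxL : (xL : L) = algebraMap E L x) :
    symCl hn (rootK L hζ) xL y = 1 := by
  classical
  have hX : Transcendental k (algebraMap E L x) := by
    rwa [transcendental_algebraMap_iff (algebraMap E L).injective]
  let ω := Module.finBasis E L
  have hspan : ∀ z : L, ∃ h : k[X], h ≠ 0 ∧ ∃ p : Fin (Module.finrank E L) → k[X],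
      aeval (algebraMap E L x) h * z = ∑ j, aeval (algebraMap E L x) (p j) * ω j := by
    intro z
    obtain ⟨h, hh, p, hp⟩ := common_denom x hE (fun j => ω.repr z j)
    refine ⟨h, ?_, p, ?_⟩
    · rintro rfl
      exact hh (map_zero _)
    · conv_lhs => rw [← ω.sum_repr z]
      rw [Finset.mul_sum]
      refine Finset.sum_congr rfl fun j _ => ?_
      rw [aeval_algebraMap_apply, aeval_algebraMap_apply, ← hp, map_mul, Algebra.smul_def, mul_assoc]
  have hlin : ∀ p : Fin (Module.finrank E L) → k[X],
      ∑ j, aeval (algebraMap E L x) (p j) * ω j = 0 → ∀ j, p j = 0 := by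
    intro p hp j
    have h1 : ∑ j, (aeval x (p j)) • ω j = 0 := by
      rw [← hp]
      refine Finset.sum_congr rfl fun j _ => ?_
      rw [aeval_algebraMap_apply, Algebra.smul_def]
    have h2 := (Fintype.linearIndependent_iff.1 ω.linearIndependent) _ h1 j
    by_contra h0
    exact hx ⟨p j, h0, h2⟩
  have hC1 : ∀ Ψ : MvPolynomial (Option (Fin n)) L, Ψ.totalDegree ≤ n → MvPolynomial.eval 0 Ψ = 0 →
      ∃ a : Option (Fin n) → L, a ≠ 0 ∧ MvPolynomial.eval a Ψ = 0 := by
    intro Ψ h1 h2
    refine exists_zero (algebraMap E L x) ω hX hspan hlin Ψ n h1 h2 ?_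
    rw [Fintype.card_option, Fintype.card_fin]
    exact Nat.lt_succ_self n
  -- the maximal root
  let P : ℕ → Prop := fun t => ∃ v : L, v ^ t = algebraMap E L x
  have hP1 : P 1 := ⟨algebraMap E L x, pow_one _⟩
  have hbound : ∀ t, P t → t ≤ Module.finrank E L := fun t ⟨v, hv⟩ => power_bound x hx hE v t hv
  have hm1 : 1 ≤ Module.finrank E L := hbound 1 hP1
  obtain ⟨t, ht⟩ : ∃ t, t = Nat.findGreatest P (Module.finrank E L) := ⟨_, rfl⟩
  have ht1 : 1 ≤ t := ht ▸ Nat.le_findGreatest hm1 hP1
  have htP : P t := ht ▸ Nat.findGreatest_spec hm1 hP1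
  obtain ⟨v, hv⟩ := htP
  have hv0 : v ≠ 0 := by
    rintro rfl
    rw [zero_pow (by omega)] at hv
    exact xL.ne_zero (hxL.trans hv.symm)
  have hvpow : ∀ s, 2 ≤ s → ∀ u : L, u ^ s ≠ v := by
    intro s hs u hu
    have h1 : P (s * t) := ⟨u, by rw [pow_mul, hu, hv]⟩
    have h2 : s * t ≤ t := by
      conv_rhs => rw [ht]
      exact Nat.le_findGreatest (hbound _ h1) h1
    nlinarith
  have h1 := symCl_eq_one_of_c1 hn (rootK L hζ) hC1 (Units.mk0 v hv0) y (by
    intro s hs u
    exact hvpow s hs u)
  have h2 : xL = (Units.mk0 v hv0) ^ t := by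
    ext
    rw [Units.val_pow_eq_pow_val, Units.val_mk0, hv, hxL]
  have h3 : symCl hn (rootK L hζ) ((Units.mk0 v hv0) ^ t) y = (symCl hn (rootK L hζ) (Units.mk0 v hv0) y) ^ t :=
    map_pow (symL hn (rootK L hζ) y) (Units.mk0 v hv0) t
  rw [h2, h3, h1, one_pow]

end tower

section dep

variable {k K : Type u} [Field k] [IsAlgClosed k] [Field K] [Algebra k K]

omit [IsAlgClosed k] in
theorem alg_of_dep (x y : K) (hx : Transcendental k x) (h : ¬ AlgebraicIndependent k ![x, y]) :
    IsAlgebraic (IntermediateField.adjoin k {x}) y := by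
  by_contra hy
  apply h
  have hx1 : AlgebraicIndependent k (fun _ : Unit => x) := algebraicIndependent_unique_type_iff.2 hx
  have hle : Algebra.adjoin k (Set.range fun _ : Unit => x) ≤ (IntermediateField.adjoin k {x}).toSubalgebra := by
    rw [Algebra.adjoin_le_iff]
    rintro _ ⟨_, rfl⟩
    exact IntermediateField.mem_adjoin_simple_self k x
  have h2 : Transcendental (Algebra.adjoin k (Set.range fun _ : Unit => x)) y := by
    rintro ⟨p, hp, hpy⟩
    apply hy
    let inc : Algebra.adjoin k (Set.range fun _ : Unit => x) →+* IntermediateField.adjoin k {x} :=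
      (Subalgebra.inclusion hle).toRingHom
    have hinc : Function.Injective inc := Subalgebra.inclusion_injective hle
    refine ⟨p.map inc, (Polynomial.map_ne_zero_iff hinc).2 hp, ?_⟩
    rw [Polynomial.aeval_def, Polynomial.eval₂_map]
    rw [Polynomial.aeval_def] at hpy
    exact hpy
  have h3 := (hx1.option_iff_transcendental y).2 h2
  have h4 := h3.comp (![some (), none] : Fin 2 → Option Unit) (by
    intro i j hij
    fin_cases i <;> fin_cases j <;> simp_all)
  convert h4 using 1
  funext i
  fin_cases i <;> rfl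

theorem mem_range_of_alg (x : K) (hx : IsAlgebraic k x) : ∃ c : k, algebraMap k K c = x := by
  have hi : IsIntegral k x := hx.isIntegral
  have h1 : (minpoly k x).degree = 1 :=
    IsAlgClosed.degree_eq_one_of_irreducible k (minpoly.irreducible hi)
  exact minpoly.mem_range_of_degree_eq_one k x h1

/-- **Tsen's theorem for symbols**: `{x, y} = 1` if `x, y` are algebraically dependent over an algebraically
closed subfield. -/
theorem tsen {n : ℕ} (hn : 0 < n) {ζ : k} (hζ : IsPrimitiveRoot ζ n) (x y : Kˣ)
    (hxy : ¬ AlgebraicIndependent k ![(x : K), (y : K)]) : symCl hn (rootK K hζ) x y = 1 := by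
  by_cases hx : IsAlgebraic k (x : K)
  · obtain ⟨c, hc⟩ := mem_range_of_alg (x : K) hx
    obtain ⟨d, hd⟩ := IsAlgClosed.exists_pow_nat_eq c hn
    have hd0 : d ≠ 0 := by
      rintro rfl
      rw [zero_pow hn.ne'] at hd
      rw [← hd, map_zero] at hc
      exact x.ne_zero hc.symm
    have hx' : x = (ι K (Units.mk0 d hd0)) ^ n := by
      ext
      rw [Units.val_pow_eq_pow_val]
      change (x : K) = (algebraMap k K d) ^ n
      rw [← map_pow, hd, hc]
    have h2 := symCl_scale hn (rootK K hζ) y 1 (ι K (Units.mk0 d hd0))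
    rw [one_mul, symCl_one_right] at h2
    rw [symCl_anti, hx', ← h2, inv_one]
  · -- the tower
    have hy := alg_of_dep (x : K) (y : K) hx hxy
    let E := IntermediateField.adjoin k {(x : K)}
    let L := IntermediateField.adjoin E {(y : K)}
    haveI : FiniteDimensional E L := IntermediateField.adjoin.finiteDimensional hy.isIntegral
    let xE : E := IntermediateField.AdjoinSimple.gen k (x : K)
    have hxE : Transcendental k xE := by
      have h1 : algebraMap E K xE = x := rfl
      rw [← transcendental_algebraMap_iff (A := K) (algebraMap E K).injective, h1]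
      exact hx
    have hE : ∀ c : E, ∃ p q : k[X], aeval xE q ≠ 0 ∧ c * aeval xE q = aeval xE p := by
      intro c
      obtain ⟨p, q, h1⟩ := (IntermediateField.mem_adjoin_simple_iff k (c : K)).1 c.2
      by_cases hq : aeval (x : K) q = 0
      · refine ⟨0, 1, by simp, ?_⟩
        rw [hq, div_zero] at h1
        have : c = 0 := Subtype.ext h1
        rw [this, zero_mul, map_zero]
      · have h3 : ∀ p : k[X], ((aeval xE p : E) : K) = aeval (x : K) p := by
          intro p
          exact (aeval_algebraMap_apply K xE p).symm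
        refine ⟨p, q, ?_, ?_⟩
        · intro h2
          apply hq
          rw [← h3, h2]
          rfl
        · apply Subtype.ext
          rw [MulMemClass.coe_mul, h3, h3, h1, div_mul_cancel₀ _ hq]
    have hxne : algebraMap E L xE ≠ 0 := by
      intro h1
      apply x.ne_zero
      have h2 := congrArg (algebraMap L K) h1
      rw [map_zero] at h2
      exact h2
    let yL : L := IntermediateField.AdjoinSimple.gen E (y : K)
    have hyne : yL ≠ 0 := by
      intro h1
      apply y.ne_zero
      have h2 := congrArg (algebraMap L K) h1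
      rw [map_zero] at h2
      exact h2
    have h1 := tsen_tower (L := L) xE hxE hE hn hζ (Units.mk0 _ hxne) (Units.mk0 _ hyne) rfl
    have h2 := congrArg (res K) h1
    rw [map_one, res_symCl] at h2
    rw [← h2]
    congr 1
    · ext; rfl
    · ext; rfl

end dep

end Pool.Agent.H552R3.Tsen
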