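import Mathlib
import Pool.Agent.H79.LU.Y109_PI_Mat
import Pool.Agent.H79.LU.Helper929_Pfaffian

/-! Linear spaces of alternating matrices over a prime field: degenerate and nondegenerate translates. -/

set_option autoImplicit false
set_option linter.all false

open Matrix MvPolynomial

noncomputable section

namespace Pool.Agent.Y109.PI

open Pool.Agent.Helper929

theorem hom_pf {ι R : Type*} [CommRing R] : ∀ (k : ℕ) (M : Matrix (Fin (2 * k)) (Fin (2 * k)) (MvPolynomial ι R)),
    (∀ i j, (M i j).IsHomogeneous 1) → (pf (2 * k) M).IsHomogeneous k := by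
  intro k
  induction k with
  | zero =>
    intro M _
    exact isHomogeneous_one _ _
  | succ k ih =>
    intro M h
    change (∑ j : Fin (2 * k + 1), (-1) ^ (j : ℕ) * M 0 j.succ * pf (2 * k)
      (M.submatrix (fun k => (j.succAbove k).succ) (fun k => (j.succAbove k).succ))).IsHomogeneous
        (k + 1)
    refine IsHomogeneous.sum _ _ _ fun j _ => ?_
    have h1 := (h 0 j.succ).mul (ih (M.submatrix (fun k => (j.succAbove k).succ)
      (fun k => (j.succAbove k).succ)) fun a b => h _ _)
    rw [Nat.add_comm 1 k] at h1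
    rcases neg_one_pow_eq_or (MvPolynomial ι R) (j : ℕ) with h2 | h2
    · rw [h2, one_mul]
      exact h1
    · rw [h2, neg_one_mul, neg_mul]
      exact h1.neg

/-- scaling -/
theorem pf_smul {R : Type*} [CommRing R] (c : R) : ∀ (k : ℕ) (M : Matrix (Fin (2 * k)) (Fin (2 * k)) R),
    pf (2 * k) (c • M) = c ^ k * pf (2 * k) M := by
  intro k
  induction k with
  | zero => intro M; simp [pf]
  | succ k ih =>
    intro M
    change (∑ j : Fin (2 * k + 1), (-1) ^ (j : ℕ) * (c • M) 0 j.succ * pf (2 * k)
      ((c • M).submatrix (fun k => (j.succAbove k).succ) (fun k => (j.succAbove k).succ))) =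
        c ^ (k + 1) * ∑ j : Fin (2 * k + 1), (-1) ^ (j : ℕ) * M 0 j.succ * pf (2 * k)
      (M.submatrix (fun k => (j.succAbove k).succ) (fun k => (j.succAbove k).succ))
    rw [Finset.mul_sum]
    refine Finset.sum_congr rfl fun j _ => ?_
    have h1 : (c • M).submatrix (fun k => (j.succAbove k).succ) (fun k => (j.succAbove k).succ) =
        c • M.submatrix (fun k => (j.succAbove k).succ) (fun k => (j.succAbove k).succ) := rfl
    rw [h1, ih, Matrix.smul_apply, smul_eq_mul]
    ring

variable {p : ℕ} [hp : Fact p.Prime]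

/-- an alternating lift -/
def liftZ {n : ℕ} (A : Matrix (Fin n) (Fin n) (ZMod p)) : Matrix (Fin n) (Fin n) ℤ :=
  Matrix.of fun u v => if u < v then ((A u v).val : ℤ) else if v < u then - ((A v u).val : ℤ) else 0

theorem liftZ_alt {n : ℕ} (A : Matrix (Fin n) (Fin n) (ZMod p)) (i j : Fin n) : liftZ A i j = - liftZ A j i := by
  simp only [liftZ, Matrix.of_apply]
  rcases lt_trichotomy i j with h | h | h
  · rw [if_pos h, if_neg h.not_gt, if_pos h, neg_neg]
  · subst h; rw [if_neg (lt_irrefl _), if_neg (lt_irrefl _), neg_zero]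
  · rw [if_neg h.not_gt, if_pos h, if_pos h]

theorem liftZ_map {n : ℕ} (A : Matrix (Fin n) (Fin n) (ZMod p)) (hA : Alt A) :
    (liftZ A).map (Int.castRingHom (ZMod p)) = A := by
  haveI : NeZero p := ⟨hp.out.ne_zero⟩
  ext i j
  simp only [liftZ, Matrix.of_apply, Matrix.map_apply, eq_intCast]
  rcases lt_trichotomy i j with h | h | h
  · rw [if_pos h]; simp
  · subst h; rw [if_neg (lt_irrefl _), if_neg (lt_irrefl _), hA.1]; simp
  · rw [if_neg h.not_gt, if_pos h, hA.2 i j]; simp

theorem pf_sq_zmod {n : ℕ} (A : Matrix (Fin n) (Fin n) (ZMod p)) (hA : Alt A) : pf n A ^ 2 = A.det := by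
  have h := congrArg (Int.castRingHom (ZMod p)) (pf_sq_int (liftZ A) (liftZ_alt A))
  rw [map_pow, pf_map, liftZ_map A hA, RingHom.map_det] at h
  rw [h]
  congr 1
  exact liftZ_map A hA

theorem det_zero_iff {n : ℕ} (A : Matrix (Fin n) (Fin n) (ZMod p)) (hA : Alt A) : A.det = 0 ↔ pf n A = 0 := by
  rw [← pf_sq_zmod A hA]
  exact pow_eq_zero_iff two_ne_zero

omit hp in
theorem Alt.add {I R : Type*} [Ring R] {b c : Matrix I I R} (hb : Alt b) (hc : Alt c) : Alt (b + c) :=
  ⟨fun u => by rw [Matrix.add_apply, hb.1, hc.1, add_zero], fun u v => by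
    rw [Matrix.add_apply, Matrix.add_apply, hb.2 u v, hc.2 u v]; abel⟩

omit hp in
theorem Alt.smul {I R : Type*} [Ring R] {b : Matrix I I R} (hb : Alt b) (c : R) : Alt (c • b) :=
  ⟨fun u => by rw [Matrix.smul_apply, hb.1, smul_zero], fun u v => by
    rw [Matrix.smul_apply, Matrix.smul_apply, hb.2 u v, smul_neg]⟩

omit hp in
theorem Alt.sum {I R κ : Type*} [Ring R] (S : Finset κ) (b : κ → Matrix I I R) (hb : ∀ k, Alt (b k)) :
    Alt (∑ k ∈ S, b k) := by
  classical
  induction S using Finset.induction_on with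
  | empty => exact ⟨fun u => by simp, fun u v => by simp⟩
  | insert a S ha ih => rw [Finset.sum_insert ha]; exact (hb a).add ih

/-- the count over the extended family -/
theorem card_fiber (g : ℕ) (P : (Option (Fin g) → ZMod p) → Prop) [DecidablePred P] :
    (Finset.univ.filter P).card =
      ∑ w : ZMod p, (Finset.univ.filter fun c : Fin g → ZMod p => P fun o => Option.elim o w c).card := by
  classical
  rw [Finset.card_eq_sum_card_fiberwise (f := fun x : Option (Fin g) → ZMod p => x none)
    (t := Finset.univ) (fun _ _ => Finset.mem_coe.2 (Finset.mem_univ _))]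
  refine Finset.sum_congr rfl fun w _ => ?_
  refine Finset.card_nbij' (fun x => fun i => x (some i)) (fun c => fun o => Option.elim o w c) ?_ ?_ ?_ ?_
  · intro x hx
    simp only [Finset.coe_filter, Finset.mem_filter, Finset.mem_univ, true_and, Set.mem_setOf_eq] at hx ⊢
    have : (fun o => Option.elim o w (fun i => x (some i))) = x := by
      funext o
      cases o with
      | none => exact hx.2.symm
      | some i => rfl
    rw [this]; exact hx.1
  · intro c hc
    simp only [Finset.coe_filter, Finset.mem_filter, Finset.mem_univ, true_and, Set.mem_setOf_eq] at hc ⊢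
    exact ⟨hc, rfl⟩
  · intro x hx
    simp only [Finset.coe_filter, Finset.mem_filter, Finset.mem_univ, true_and, Set.mem_setOf_eq] at hx
    funext o
    cases o with
    | none => exact hx.2.symm
    | some i => rfl
  · intro c hc
    rfl

/-- **Translates of an ordinary space of alternating matrices.** -/
theorem cw (g : ℕ) (hg : 0 < g) (b : Matrix (Fin (2 * g)) (Fin (2 * g)) (ZMod p)) (hb : Alt b)
    (j : Fin g → Matrix (Fin (2 * g)) (Fin (2 * g)) (ZMod p)) (hj : ∀ i, Alt (j i))
    (hcount : ¬ p ∣ (Finset.univ.filter fun c : Fin g → ZMod p => (∑ i, c i • j i).det = 0).card) :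
    (∃ c : Fin g → ZMod p, (b + ∑ i, c i • j i).det = 0) ∧ ∃ c : Fin g → ZMod p, (b + ∑ i, c i • j i).det ≠ 0 := by
  classical
  let f : MvPolynomial (Option (Fin g)) (ZMod p) :=
    pf (2 * g) (Matrix.of fun u v => C (b u v) * X none + ∑ i, C (j i u v) * X (some i))
  have hf : f.IsHomogeneous g := by
    refine hom_pf g _ fun u v => ?_
    simp only [Matrix.of_apply]
    refine IsHomogeneous.add ?_ (IsHomogeneous.sum _ _ _ fun i _ => ?_)
    · have := (isHomogeneous_C (Option (Fin g)) (b u v)).mul (isHomogeneous_X (ZMod p) (none : Option (Fin g)))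
      rwa [zero_add] at this
    · have := (isHomogeneous_C (Option (Fin g)) (j i u v)).mul (isHomogeneous_X (ZMod p) (some i))
      rwa [zero_add] at this
  have heval : ∀ x : Option (Fin g) → ZMod p, eval x f = pf (2 * g) (x none • b + ∑ i, x (some i) • j i) := by
    intro x
    simp only [f]
    rw [pf_map (eval x)]
    congr 1
    ext u v
    simp only [Matrix.map_apply, Matrix.of_apply, map_add, map_mul, eval_C, eval_X, map_sum, Matrix.add_apply,
      Matrix.smul_apply, Matrix.sum_apply, smul_eq_mul]
    rw [mul_comm]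
    congr 1
    exact Finset.sum_congr rfl fun i _ => mul_comm _ _
  have hcw : p ∣ (Finset.univ.filter fun x : Option (Fin g) → ZMod p => eval x f = 0).card := by
    have h1 : f.totalDegree < Fintype.card (Option (Fin g)) := by
      rw [Fintype.card_option, Fintype.card_fin]
      exact Nat.lt_succ_of_le hf.totalDegree_le
    have h2 := char_dvd_card_solutions p h1
    rwa [Fintype.card_subtype] at h2
  rw [card_fiber, Finset.sum_eq_add_sum_sdiff_singleton_of_mem (Finset.mem_univ (0 : ZMod p))] at hcw
  have halt : ∀ (w : ZMod p) (c : Fin g → ZMod p), Alt (w • b + ∑ i, c i • j i) := fun w c =>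
    (hb.smul w).add (Alt.sum _ _ fun i => (hj i).smul _)
  have hfib : ∀ (w : ZMod p) (c : Fin g → ZMod p), (eval (fun o : Option (Fin g) => Option.elim o w c) f = 0) ↔
      (w • b + ∑ i, c i • j i).det = 0 := by
    intro w c
    rw [heval, det_zero_iff _ (halt w c)]
    rfl
  simp only [hfib] at hcw
  have h0 : (Finset.univ.filter fun c : Fin g → ZMod p => ((0 : ZMod p) • b + ∑ i, c i • j i).det = 0) =
      Finset.univ.filter fun c : Fin g → ZMod p => (∑ i, c i • j i).det = 0 := by
    refine Finset.filter_congr fun c _ => ?_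
    rw [zero_smul, zero_add]
  rw [h0] at hcw
  have hscale : ∀ (w : ZMod p), w ≠ 0 → ∀ c : Fin g → ZMod p, (w • b + ∑ i, c i • j i).det = 0 →
      (b + ∑ i, (w⁻¹ * c i) • j i).det = 0 := by
    intro w hw c h
    have e1 : b + ∑ i, (w⁻¹ * c i) • j i = w⁻¹ • (w • b + ∑ i, c i • j i) := by
      rw [smul_add, smul_smul, inv_mul_cancel₀ hw, one_smul, Finset.smul_sum]
      simp only [smul_smul]
    rw [e1, Matrix.det_smul, h, mul_zero]
  constructor
  · by_contra hcon
    push Not at hcon
    apply hcount
    have h1 : ∑ w ∈ Finset.univ \ {(0 : ZMod p)}, (Finset.univ.filter fun c : Fin g → ZMod p =>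
        (w • b + ∑ i, c i • j i).det = 0).card = 0 := by
      refine Finset.sum_eq_zero fun w hw => ?_
      rw [Finset.mem_sdiff, Finset.mem_singleton] at hw
      rw [Finset.card_eq_zero, Finset.filter_eq_empty_iff]
      intro c _ h
      exact hcon _ (hscale w hw.2 c h)
    rw [h1, add_zero] at hcw
    exact hcw
  · by_contra hcon
    push Not at hcon
    apply hcount
    have h1 : ∀ w ∈ Finset.univ \ {(0 : ZMod p)}, (Finset.univ.filter fun c : Fin g → ZMod p =>
        (w • b + ∑ i, c i • j i).det = 0).card = p ^ g := by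
      intro w hw
      rw [Finset.mem_sdiff, Finset.mem_singleton] at hw
      rw [Finset.filter_true_of_mem, Finset.card_univ, Fintype.card_fun, ZMod.card, Fintype.card_fin]
      intro c _
      have e1 : w • b + ∑ i, c i • j i = w • (b + ∑ i, (w⁻¹ * c i) • j i) := by
        rw [smul_add, Finset.smul_sum]
        simp only [smul_smul, mul_inv_cancel_left₀ hw.2]
      rw [e1, Matrix.det_smul, hcon, mul_zero]
    rw [Finset.sum_congr rfl h1, Finset.sum_const, smul_eq_mul] at hcw
    exact (Nat.dvd_add_left (Dvd.dvd.mul_left (dvd_pow_self p hg.ne') _)).1 hcw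

/-- the same for an arbitrary index type -/
theorem cwI {I : Type*} [Fintype I] [DecidableEq I] (g : ℕ) (hg : 0 < g) (hI : Fintype.card I = 2 * g)
    (b : Matrix I I (ZMod p)) (hb : Alt b) (j : Fin g → Matrix I I (ZMod p)) (hj : ∀ i, Alt (j i))
    (hcount : ¬ p ∣ (Finset.univ.filter fun c : Fin g → ZMod p => (∑ i, c i • j i).det = 0).card) :
    (∃ c : Fin g → ZMod p, (b + ∑ i, c i • j i).det = 0) ∧ ∃ c : Fin g → ZMod p, (b + ∑ i, c i • j i).det ≠ 0 := by
  let e : Fin (2 * g) ≃ I := (finCongr hI.symm).trans (Fintype.equivFin I).symm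
  have h1 : ∀ c : Fin g → ZMod p, (∑ i, c i • (j i).submatrix e e) = (∑ i, c i • j i).submatrix e e := by
    intro c
    ext u v
    simp only [Matrix.sum_apply, Matrix.smul_apply, Matrix.submatrix_apply]
  have h2 : ∀ c : Fin g → ZMod p, (b.submatrix e e + ∑ i, c i • (j i).submatrix e e) =
      (b + ∑ i, c i • j i).submatrix e e := by
    intro c
    rw [h1]
    rfl
  have halt : ∀ a : Matrix I I (ZMod p), Alt a → Alt (a.submatrix e e) := fun a ha =>
    ⟨fun u => ha.1 _, fun u v => ha.2 _ _⟩
  have h3 := cw g hg (b.submatrix e e) (halt b hb) (fun i => (j i).submatrix e e) (fun i => halt _ (hj i)) (by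
    simp only [h1, Matrix.det_submatrix_equiv_self]
    exact hcount)
  simp only [h2, Matrix.det_submatrix_equiv_self] at h3
  exact h3

end Pool.Agent.Y109.PI
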