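import Mathlib
import Pool.Agent.H79.LU.H19PS_E
import Pool.Agent.H79.LU.Y109_PI_Chev

/-! Normal forms for sums of symbols `[x, y)`. -/

set_option autoImplicit false
set_option linter.all false

open scoped TensorProduct

noncomputable section

namespace Pool.Agent.H19PS

open Pool.Agent.Helper18.Br Pool.Agent.H552R3.SymBr Pool.Agent.H552R3.Tsen

universe u

section bil

variable {K : Type u} [Field K] {p : ℕ} [hp : Fact p.Prime] [CharP K p]

theorem S_zsmul (n : ℤ) (a : K) (y : Kˣ) : psCl p (n • a) y = psCl p a y ^ n := by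
  have h : psHom p K (Multiplicative.ofAdd a ^ n) y = psCl p a y ^ n := by
    rw [map_zpow]
    rfl
  rw [← h]
  rfl

theorem S_zpow (n : ℤ) (a : K) (y : Kˣ) : psCl p a (y ^ n) = psCl p a y ^ n := by
  have h : psHom p K (Multiplicative.ofAdd a) (y ^ n) = psCl p a y ^ n := by
    rw [map_zpow]
    rfl
  rw [← h]
  rfl

theorem S_sum {ι : Type*} (s : Finset ι) (a : ι → K) (y : Kˣ) :
    psCl p (∑ i ∈ s, a i) y = ∏ i ∈ s, psCl p (a i) y := by
  classical
  induction s using Finset.induction_on with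
  | empty => rw [Finset.sum_empty, Finset.prod_empty, psCl_zero_left]
  | insert i s hi ih => rw [Finset.sum_insert hi, Finset.prod_insert hi, psCl_add_left, ih]

theorem S_prod {ι : Type*} (s : Finset ι) (a : K) (y : ι → Kˣ) :
    psCl p a (∏ i ∈ s, y i) = ∏ i ∈ s, psCl p a (y i) := by
  classical
  induction s using Finset.induction_on with
  | empty => rw [Finset.prod_empty, Finset.prod_empty, psCl_one_right]
  | insert i s hi ih => rw [Finset.prod_insert hi, Finset.prod_insert hi, psCl_mul_right, ih]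

theorem prod_zpow_sum {G ι : Type*} [CommGroup G] (s : Finset ι) (x : G) (f : ι → ℤ) :
    ∏ i ∈ s, x ^ f i = x ^ ∑ i ∈ s, f i := by
  classical
  induction s using Finset.induction_on with
  | empty => rw [Finset.sum_empty, Finset.prod_empty, zpow_zero]
  | insert i s hi ih => rw [Finset.sum_insert hi, Finset.prod_insert hi, _root_.zpow_add, ih]

theorem S_zpow_congr (a : K) (y : Kˣ) {m n : ℤ} (h : (p : ℤ) ∣ m - n) : psCl p a y ^ m = psCl p a y ^ n := by
  obtain ⟨c, hc⟩ := h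
  have e : m = n + p * c := by linarith
  rw [e, _root_.zpow_add, _root_.zpow_mul, zpow_natCast, psCl_tors, _root_.one_zpow, mul_one]

end bil

section nf

variable {K : Type u} [Field K] {p : ℕ} [hp : Fact p.Prime] [CharP K p]
  (Λ : AddSubgroup K) (H : Subgroup Kˣ) (V : Subgroup (BrauerGroup.{u, u} K)) {g : ℕ}
  (a : Fin g → K) (b : Fin g → Kˣ)

/-- the quadratic part -/
def Qp (p : ℕ) [hp : Fact p.Prime] {K : Type u} [Field K] [CharP K p] {g : ℕ} (a : Fin g → K) (b : Fin g → Kˣ)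
    (P : Matrix (Fin g) (Fin g) ℤ) : BrauerGroup.{u, u} K := ∏ i, ∏ j, psCl p (a i) (b j) ^ P i j

theorem Qp_add (P Q : Matrix (Fin g) (Fin g) ℤ) : Qp p a b (P + Q) = Qp p a b P * Qp p a b Q := by
  simp only [Qp, Matrix.add_apply, _root_.zpow_add, Finset.prod_mul_distrib]

theorem Qp_zero : Qp p a b 0 = 1 := by
  simp [Qp]

theorem Qp_smul (c : ℤ) (P : Matrix (Fin g) (Fin g) ℤ) : Qp p a b (c • P) = Qp p a b P ^ c := by
  simp only [Qp, Matrix.smul_apply, smul_eq_mul, ← Finset.prod_zpow, ← _root_.zpow_mul, mul_comm c]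

theorem Qp_sum {ι : Type*} (s : Finset ι) (c : ι → ℤ) (P : ι → Matrix (Fin g) (Fin g) ℤ) :
    Qp p a b (∑ k ∈ s, c k • P k) = ∏ k ∈ s, Qp p a b (P k) ^ c k := by
  classical
  induction s using Finset.induction_on with
  | empty => rw [Finset.sum_empty, Finset.prod_empty, Qp_zero]
  | insert i s hi ih => rw [Finset.sum_insert hi, Finset.prod_insert hi, Qp_add, Qp_smul, ih]

/-- the lower part: elements `∑ [a_i, l_i) + ∑ [λ_j, b_j) + v` -/
def T0 (p : ℕ) [hp : Fact p.Prime] {K : Type u} [Field K] [CharP K p] (Λ : AddSubgroup K) (H : Subgroup Kˣ)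
    (V : Subgroup (BrauerGroup.{u, u} K)) {g : ℕ} (a : Fin g → K) (b : Fin g → Kˣ) :
    Subgroup (BrauerGroup.{u, u} K) where
  carrier := {γ | ∃ (l : Fin g → Kˣ) (lam : Fin g → K), (∀ i, l i ∈ H) ∧ (∀ j, lam j ∈ Λ) ∧ ∃ v ∈ V,
    γ = (∏ i, psCl p (a i) (l i)) * (∏ j, psCl p (lam j) (b j)) * v}
  mul_mem' := by
    rintro x y ⟨l, lam, hl, hlam, v, hv, rfl⟩ ⟨l', lam', hl', hlam', v', hv', rfl⟩
    refine ⟨l * l', lam + lam', fun i => H.mul_mem (hl i) (hl' i), fun i => Λ.add_mem (hlam i) (hlam' i), v * v',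
      V.mul_mem hv hv', ?_⟩
    simp only [Pi.mul_apply, Pi.add_apply, psCl_mul_right, psCl_add_left, Finset.prod_mul_distrib]
    rw [mul_mul_mul_comm, mul_mul_mul_comm (∏ i, psCl p (a i) (l i))]
  one_mem' := ⟨1, 0, fun i => H.one_mem, fun i => Λ.zero_mem, 1, V.one_mem, by
    simp [psCl_one_right, psCl_zero_left]⟩
  inv_mem' := by
    rintro x ⟨l, lam, hl, hlam, v, hv, rfl⟩
    refine ⟨l⁻¹, -lam, fun i => H.inv_mem (hl i), fun i => Λ.neg_mem (hlam i), v⁻¹, V.inv_mem hv, ?_⟩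
    have h1 : ∀ i, psCl p (a i) (l⁻¹ i) = (psCl p (a i) (l i))⁻¹ := by
      intro i
      have := S_zpow (p := p) (-1) (a i) (l i)
      rwa [_root_.zpow_neg_one, _root_.zpow_neg_one] at this
    have h2 : ∀ i, psCl p ((-lam) i) (b i) = (psCl p (lam i) (b i))⁻¹ := by
      intro i
      have := S_zsmul (p := p) (-1) (lam i) (b i)
      rwa [neg_smul, one_smul, _root_.zpow_neg_one] at this
    simp only [h1, h2]
    rw [mul_inv, mul_inv, Finset.prod_inv_distrib, Finset.prod_inv_distrib]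

variable {Λ H V a b}

theorem T0_V {v : BrauerGroup.{u, u} K} (hv : v ∈ V) : v ∈ T0 p Λ H V a b :=
  ⟨1, 0, fun i => H.one_mem, fun i => Λ.zero_mem, v, hv, by simp [psCl_one_right, psCl_zero_left]⟩

theorem T0_left (i : Fin g) {l : Kˣ} (hl : l ∈ H) : psCl p (a i) l ∈ T0 p Λ H V a b := by
  classical
  refine ⟨Pi.mulSingle i l, 0, ?_, fun i => Λ.zero_mem, 1, V.one_mem, ?_⟩
  · intro j
    by_cases hj : j = i
    · subst hj; rw [Pi.mulSingle_eq_same]; exact hl
    · rw [Pi.mulSingle_eq_of_ne hj]; exact H.one_mem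
  · rw [mul_one, Finset.prod_eq_single i]
    · simp [psCl_zero_left]
    · intro j _ hj; rw [Pi.mulSingle_eq_of_ne hj, psCl_one_right]
    · intro h; exact absurd (Finset.mem_univ _) h

theorem T0_right (j : Fin g) {x : K} (hx : x ∈ Λ) : psCl p x (b j) ∈ T0 p Λ H V a b := by
  classical
  refine ⟨1, Pi.single j x, fun i => H.one_mem, ?_, 1, V.one_mem, ?_⟩
  · intro i
    by_cases hj : i = j
    · subst hj; rw [Pi.single_eq_same]; exact hx
    · rw [Pi.single_eq_of_ne hj]; exact Λ.zero_mem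
  · rw [mul_one, Finset.prod_eq_single (s := Finset.univ) (f := fun i => psCl p ((Pi.single j x : Fin g → K) i) (b i)) j]
    · simp [psCl_one_right]
    · intro i _ hi; rw [Pi.single_eq_of_ne hi, psCl_zero_left]
    · intro h; exact absurd (Finset.mem_univ _) h

/-- elements of the additive group generated by `Λ` and the `a_i` -/
theorem mem_X {x : K} (hx : x ∈ AddSubgroup.closure ((Λ : Set K) ∪ Set.range a)) :
    ∃ lam ∈ Λ, ∃ n : Fin g → ℤ, x = lam + ∑ i, n i • a i := by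
  classical
  let T : AddSubgroup K :=
    { carrier := {x | ∃ lam ∈ Λ, ∃ n : Fin g → ℤ, x = lam + ∑ i, n i • a i}
      add_mem' := by
        rintro x y ⟨l, hl, n, rfl⟩ ⟨l', hl', n', rfl⟩
        refine ⟨l + l', Λ.add_mem hl hl', n + n', ?_⟩
        simp only [Pi.add_apply, add_smul, Finset.sum_add_distrib]
        abel
      zero_mem' := ⟨0, Λ.zero_mem, 0, by simp⟩
      neg_mem' := by
        rintro x ⟨l, hl, n, rfl⟩
        refine ⟨-l, Λ.neg_mem hl, -n, ?_⟩
        simp only [Pi.neg_apply, neg_smul, Finset.sum_neg_distrib]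
        abel }
  refine (AddSubgroup.closure_le T).2 ?_ hx
  rintro y (hy | ⟨i, rfl⟩)
  · exact ⟨y, hy, 0, by simp⟩
  · refine ⟨0, Λ.zero_mem, Pi.single i 1, ?_⟩
    rw [zero_add, Finset.sum_eq_single i]
    · simp
    · intro j _ hj; rw [Pi.single_eq_of_ne hj, zero_smul]
    · intro h; exact absurd (Finset.mem_univ _) h

/-- elements of the group generated by `H` and the `b_j` -/
theorem mem_G {y : Kˣ} (hy : y ∈ Subgroup.closure ((H : Set Kˣ) ∪ Set.range b)) :
    ∃ l ∈ H, ∃ n : Fin g → ℤ, y = l * ∏ j, b j ^ n j := by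
  classical
  let T : Subgroup Kˣ :=
    { carrier := {y | ∃ l ∈ H, ∃ n : Fin g → ℤ, y = l * ∏ j, b j ^ n j}
      mul_mem' := by
        rintro x y ⟨l, hl, n, rfl⟩ ⟨l', hl', n', rfl⟩
        refine ⟨l * l', H.mul_mem hl hl', n + n', ?_⟩
        simp only [Pi.add_apply, _root_.zpow_add, Finset.prod_mul_distrib]
        rw [mul_mul_mul_comm]
      one_mem' := ⟨1, H.one_mem, 0, by simp⟩
      inv_mem' := by
        rintro x ⟨l, hl, n, rfl⟩
        refine ⟨l⁻¹, H.inv_mem hl, -n, ?_⟩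
        simp only [Pi.neg_apply, _root_.zpow_neg, Finset.prod_inv_distrib, mul_inv] }
  refine (Subgroup.closure_le T).2 ?_ hy
  rintro y (hy | ⟨i, rfl⟩)
  · exact ⟨y, hy, 0, by simp⟩
  · refine ⟨1, H.one_mem, Pi.single i 1, ?_⟩
    rw [one_mul, Finset.prod_eq_single i]
    · simp
    · intro j _ hj; rw [Pi.single_eq_of_ne hj, zpow_zero]
    · intro h; exact absurd (Finset.mem_univ _) h

/-- expansion of a symbol -/
theorem S_expand (lam : K) (n : Fin g → ℤ) (l : Kˣ) (m : Fin g → ℤ) :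
    psCl p (lam + ∑ i, n i • a i) (l * ∏ j, b j ^ m j) =
      Qp p a b (Matrix.of fun i j => n i * m j) *
        ((∏ i, psCl p (a i) (l ^ n i)) * (∏ j, psCl p (m j • lam) (b j)) * psCl p lam l) := by
  rw [psCl_add_left, psCl_mul_right, psCl_mul_right, S_sum, S_sum, S_prod]
  have h1 : ∏ i, psCl p (n i • a i) (∏ j, b j ^ m j) = Qp p a b (Matrix.of fun i j => n i * m j) := by
    rw [Qp]
    refine Finset.prod_congr rfl fun i _ => ?_
    rw [S_prod]
    refine Finset.prod_congr rfl fun j _ => ?_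
    rw [S_zsmul, S_zpow, Matrix.of_apply, ← _root_.zpow_mul, mul_comm]
  have h2 : ∏ i, psCl p (n i • a i) l = ∏ i, psCl p (a i) (l ^ n i) :=
    Finset.prod_congr rfl fun i _ => by rw [S_zsmul, S_zpow]
  have h3 : ∏ j, psCl p lam (b j ^ m j) = ∏ j, psCl p (m j • lam) (b j) :=
    Finset.prod_congr rfl fun i _ => by rw [S_zsmul, S_zpow]
  rw [h1, h2, h3]
  simp only [mul_assoc, mul_comm, mul_left_comm]

theorem T0_low (hV : ∀ x ∈ Λ, ∀ y ∈ H, psCl p x y ∈ V) {x : K} {y : Kˣ}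
    (hx : x ∈ AddSubgroup.closure ((Λ : Set K) ∪ Set.range a)) (hy : y ∈ Subgroup.closure ((H : Set Kˣ) ∪ Set.range b))
    (h : x ∈ Λ ∨ y ∈ H) : psCl p x y ∈ T0 p Λ H V a b := by
  rcases h with h | h
  · obtain ⟨l, hl, n, rfl⟩ := mem_G hy
    rw [psCl_mul_right, S_prod]
    refine Subgroup.mul_mem _ (T0_V (hV x h l hl)) (Subgroup.prod_mem _ fun j _ => ?_)
    rw [S_zpow]
    exact Subgroup.zpow_mem _ (T0_right j h) _
  · obtain ⟨l, hl, n, rfl⟩ := mem_X hx
    rw [psCl_add_left, S_sum]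
    refine Subgroup.mul_mem _ (T0_V (hV l hl y h)) (Subgroup.prod_mem _ fun j _ => ?_)
    rw [S_zsmul]
    exact Subgroup.zpow_mem _ (T0_left j h) _

theorem nf (hV : ∀ x ∈ Λ, ∀ y ∈ H, psCl p x y ∈ V) {α : BrauerGroup.{u, u} K}
    (hα : α ∈ Subgroup.closure {γ | ∃ x ∈ AddSubgroup.closure ((Λ : Set K) ∪ Set.range a),
      ∃ y ∈ Subgroup.closure ((H : Set Kˣ) ∪ Set.range b), γ = psCl p x y}) :
    ∃ P : Matrix (Fin g) (Fin g) ℤ, ∃ t ∈ T0 p Λ H V a b, α = Qp p a b P * t := by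
  let T : Subgroup (BrauerGroup.{u, u} K) :=
    { carrier := {α | ∃ P : Matrix (Fin g) (Fin g) ℤ, ∃ t ∈ T0 p Λ H V a b, α = Qp p a b P * t}
      mul_mem' := by
        rintro x y ⟨P, t, ht, rfl⟩ ⟨P', t', ht', rfl⟩
        exact ⟨P + P', t * t', Subgroup.mul_mem _ ht ht', by rw [Qp_add, mul_mul_mul_comm]⟩
      one_mem' := ⟨0, 1, Subgroup.one_mem _, by rw [Qp_zero, one_mul]⟩
      inv_mem' := by
        rintro x ⟨P, t, ht, rfl⟩
        refine ⟨(-1 : ℤ) • P, t⁻¹, Subgroup.inv_mem _ ht, ?_⟩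
        rw [Qp_smul, _root_.zpow_neg_one, mul_inv] }
  refine (Subgroup.closure_le T).2 ?_ hα
  rintro γ ⟨x, hx, y, hy, rfl⟩
  obtain ⟨lam, hlam, n, rfl⟩ := mem_X hx
  obtain ⟨l, hl, m, rfl⟩ := mem_G hy
  refine ⟨_, _, ?_, S_expand lam n l m⟩
  exact ⟨fun i => l ^ n i, fun j => m j • lam, fun i => H.zpow_mem hl _, fun j => Λ.zsmul_mem hlam _, _,
    hV lam hlam l hl, rfl⟩

/-- absorption of the lower terms -/
theorem absorb (hV : ∀ x ∈ Λ, ∀ y ∈ H, psCl p x y ∈ V) (P : Matrix (Fin g) (Fin g) ℤ) (hP : ¬ (p : ℤ) ∣ P.det)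
    (t : BrauerGroup.{u, u} K) (ht : t ∈ T0 p Λ H V a b) :
    ∃ (x : Fin g → K) (y : Fin g → Kˣ), ∃ v ∈ V, Qp p a b P * t = (∏ i, psCl p (x i) (y i)) * v := by
  obtain ⟨l, lam, hl, hlam, v, hv, rfl⟩ := ht
  -- the inverse matrix
  obtain ⟨Q, hQ⟩ : ∃ Q : Matrix (Fin g) (Fin g) ℤ, ∀ i k, (p : ℤ) ∣ (P * Q) i k - (1 : Matrix (Fin g) (Fin g) ℤ) i k := by
    have hcop : IsCoprime (p : ℤ) P.det :=
      ((Nat.prime_iff_prime_int.1 hp.out).coprime_iff_not_dvd).2 hP
    obtain ⟨u, w, huw⟩ := hcop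
    refine ⟨w • P.adjugate, fun i k => ?_⟩
    rw [Matrix.mul_smul, Matrix.mul_adjugate, smul_smul, Matrix.smul_apply, smul_eq_mul]
    refine ⟨-(u * (1 : Matrix (Fin g) (Fin g) ℤ) i k), ?_⟩
    have e : w * P.det = 1 - u * p := by linarith
    rw [e]
    ring
  let l' : Fin g → Kˣ := fun j => ∏ k, l k ^ Q j k
  have hl' : ∀ j, l' j ∈ H := fun j => Subgroup.prod_mem _ fun k _ => Subgroup.zpow_mem _ (hl k) _
  refine ⟨fun j => (∑ i, P i j • a i) + lam j, fun j => b j * l' j, (∏ j, psCl p (lam j) (l' j))⁻¹ * v,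
    V.mul_mem (V.inv_mem (Subgroup.prod_mem _ fun j _ => hV _ (hlam j) _ (hl' j))) hv, ?_⟩
  have e1 : ∀ j, psCl p ((∑ i, P i j • a i) + lam j) (b j * l' j) =
      (∏ i, psCl p (a i) (b j) ^ P i j) * (∏ i, psCl p (a i) (l' j) ^ P i j) *
        (psCl p (lam j) (b j) * psCl p (lam j) (l' j)) := by
    intro j
    rw [psCl_add_left, psCl_mul_right, psCl_mul_right, S_sum, S_sum]
    simp only [S_zsmul]
  have e2 : ∏ j, ∏ i, psCl p (a i) (l' j) ^ P i j = ∏ i, psCl p (a i) (l i) := by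
    rw [Finset.prod_comm]
    refine Finset.prod_congr rfl fun i _ => ?_
    have e3 : ∀ j, psCl p (a i) (l' j) ^ P i j = ∏ k, psCl p (a i) (l k) ^ (P i j * Q j k) := by
      intro j
      simp only [l']
      rw [S_prod, ← Finset.prod_zpow]
      refine Finset.prod_congr rfl fun k _ => ?_
      rw [S_zpow, ← _root_.zpow_mul, mul_comm]
    simp only [e3]
    rw [Finset.prod_comm]
    have e4 : ∀ k, ∏ j, psCl p (a i) (l k) ^ (P i j * Q j k) = psCl p (a i) (l k) ^ (1 : Matrix (Fin g) (Fin g) ℤ) i k := by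
      intro k
      rw [← S_zpow_congr (a i) (l k) (hQ i k), Matrix.mul_apply, prod_zpow_sum]
    simp only [e4]
    rw [Finset.prod_eq_single i]
    · rw [Matrix.one_apply_eq, zpow_one]
    · intro k _ hk
      rw [Matrix.one_apply_ne (Ne.symm hk), zpow_zero]
    · intro h; exact absurd (Finset.mem_univ _) h
  simp only [e1, Finset.prod_mul_distrib]
  rw [e2, Qp, Finset.prod_comm]
  generalize (∏ j, ∏ i, psCl p (a i) (b j) ^ P i j) = q1
  generalize (∏ i, psCl p (a i) (l i)) = q2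
  generalize (∏ j, psCl p (lam j) (b j)) = q3
  generalize (∏ j, psCl p (lam j) (l' j)) = q4
  calc q1 * (q2 * q3 * v) = q1 * q2 * (q3 * (q4 * q4⁻¹)) * v := by rw [mul_inv_cancel, mul_one]; simp only [mul_assoc]
    _ = _ := by simp only [mul_assoc]

end nf

end Pool.Agent.H19PS
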