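import Mathlib
import Pool.Agent.H79.LU.Y109_PI_Shift

/-! Bimultiplicative alternating symbols: normal forms. -/

set_option autoImplicit false
set_option linter.all false

open Matrix

namespace Pool.Agent.Y109.PI

section

variable {G B : Type*} [CommGroup G] [CommGroup B] (s : G →* G →* B) {I : Type*} [Fintype I]

/-- monomials -/
def mon (z : I → G) (w : I → ℤ) : G := ∏ u, z u ^ w u

/-- products of symbols -/
def Q (z : I → G) (w : I → I → ℤ) : B := ∏ q : I × I, s (z q.1) (z q.2) ^ w q.1 q.2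

theorem mon_add (z : I → G) (w w' : I → ℤ) : mon z (w + w') = mon z w * mon z w' := by
  simp only [mon, Pi.add_apply, _root_.zpow_add, Finset.prod_mul_distrib]

theorem mon_neg (z : I → G) (w : I → ℤ) : mon z (-w) = (mon z w)⁻¹ := by
  simp only [mon, Pi.neg_apply, _root_.zpow_neg, Finset.prod_inv_distrib]

theorem mon_sum {κ : Type*} (z : I → G) (S : Finset κ) (c : κ → ℤ) (w : κ → I → ℤ) :
    mon z (fun v => ∑ k ∈ S, c k * w k v) = ∏ k ∈ S, mon z (w k) ^ c k := by
  simp only [mon]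
  simp only [← Finset.prod_zpow, ← _root_.zpow_mul]
  rw [Finset.prod_comm]
  refine Finset.prod_congr rfl fun v _ => ?_
  classical
  induction S using Finset.induction_on with
  | empty => simp
  | insert a S ha ih =>
    rw [Finset.sum_insert ha, Finset.prod_insert ha, _root_.zpow_add, ih, mul_comm (c a)]

theorem mon_single [DecidableEq I] (z : I → G) (u : I) (c : ℤ) : mon z (Pi.single u c) = z u ^ c := by
  rw [mon, Finset.prod_eq_single u]
  · rw [Pi.single_eq_same]
  · intro v _ h; rw [Pi.single_eq_of_ne h, _root_.zpow_zero]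
  · intro h; exact absurd (Finset.mem_univ _) h

theorem s_mon (z : I → G) (e f : I → ℤ) : s (mon z e) (mon z f) = Q s z (fun u v => e u * f v) := by
  rw [mon, map_prod, MonoidHom.finsetProd_apply, Q, Fintype.prod_prod_type]
  refine Finset.prod_congr rfl fun u _ => ?_
  rw [mon, map_prod]
  refine Finset.prod_congr rfl fun v _ => ?_
  rw [map_zpow, map_zpow, MonoidHom.zpow_apply, ← _root_.zpow_mul]

theorem Q_add (z : I → G) (w w' : I → I → ℤ) : Q s z (w + w') = Q s z w * Q s z w' := by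
  simp only [Q, Pi.add_apply, _root_.zpow_add, Finset.prod_mul_distrib]

theorem Q_neg (z : I → G) (w : I → I → ℤ) : Q s z (-w) = (Q s z w)⁻¹ := by
  simp only [Q, Pi.neg_apply, _root_.zpow_neg, Finset.prod_inv_distrib]

theorem Q_zero (z : I → G) : Q s z 0 = 1 := by
  simp [Q]

theorem Q_smul (z : I → G) (c : ℤ) (w : I → I → ℤ) : Q s z (c • w) = Q s z w ^ c := by
  simp only [Q, Pi.smul_apply, smul_eq_mul]
  rw [← Finset.prod_zpow]
  refine Finset.prod_congr rfl fun q _ => ?_
  rw [mul_comm, _root_.zpow_mul]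

theorem Q_sum {κ : Type*} (z : I → G) (S : Finset κ) (w : κ → I → I → ℤ) :
    Q s z (∑ k ∈ S, w k) = ∏ k ∈ S, Q s z (w k) := by
  classical
  induction S using Finset.induction_on with
  | empty => simp [Q_zero]
  | insert a S ha ih => rw [Finset.sum_insert ha, Finset.prod_insert ha, Q_add, ih]

theorem Q_single [DecidableEq I] (z : I → G) (u v : I) :
    Q s z (fun a b => (Pi.single u 1 : I → ℤ) a * (Pi.single v 1 : I → ℤ) b) = s (z u) (z v) := by
  rw [← s_mon, mon_single, mon_single, zpow_one, zpow_one]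

/-- the subgroup of lower terms -/
def low (H : Subgroup G) (V : Subgroup B) (z : I → G) : Subgroup B :=
  V ⊔ Subgroup.closure {γ | ∃ h ∈ H, ∃ u, γ = s h (z u)}

theorem low_sym {H : Subgroup G} {V : Subgroup B} {z : I → G} {h : G} (hh : h ∈ H) (u : I) :
    s h (z u) ∈ low s H V z := le_sup_right (a := V) (Subgroup.subset_closure ⟨h, hh, u, rfl⟩)

theorem low_V {H : Subgroup G} {V : Subgroup B} {z : I → G} : V ≤ low s H V z := le_sup_left

variable {s}

/-- symmetric exponents give lower terms -/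
theorem Q_sym (hanti : ∀ a b, s a b = (s b a)⁻¹) (n : ℕ) (htors : ∀ a b, s a b ^ n = 1) (ε : G)
    (H : Subgroup G) (hε : ε ∈ H) (hdiag : ∀ a, s a a = 1 ∨ s a a = s a ε) (V : Subgroup B) (z : I → G)
    (δ : I → I → ℤ) (hδ : ∀ u v, (n : ℤ) ∣ δ u v - δ v u) : Q s z δ ∈ low s H V z := by
  rw [← QuotientGroup.eq_one_iff]
  have h0 : ((Q s z δ : B) : B ⧸ low s H V z) =
      ∏ q : I × I, ((s (z q.1) (z q.2) ^ δ q.1 q.2 : B) : B ⧸ low s H V z) := by
    rw [Q]
    exact map_prod (QuotientGroup.mk' (low s H V z)) _ _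
  rw [h0]
  refine Finset.prod_involution (fun q _ => (q.2, q.1)) ?_ ?_ ?_ ?_
  · rintro ⟨u, v⟩ _
    simp only
    rw [← QuotientGroup.mk_mul]
    have h1 : s (z u) (z v) ^ δ u v * s (z v) (z u) ^ δ v u = 1 := by
      rw [hanti (z v) (z u), _root_.inv_zpow, ← _root_.zpow_neg, ← _root_.zpow_add]
      obtain ⟨c, hc⟩ := hδ u v
      have e1 : δ u v + - δ v u = n * c := by rw [← hc]; ring
      rw [e1, _root_.zpow_mul, zpow_natCast, htors, _root_.one_zpow]
    rw [h1]
    exact QuotientGroup.mk_one _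
  · rintro ⟨u, v⟩ _ h h'
    simp only [Prod.mk.injEq] at h'
    apply h
    obtain rfl := h'.1
    simp only
    rw [QuotientGroup.eq_one_iff]
    apply Subgroup.zpow_mem
    rcases hdiag (z v) with h2 | h2
    · rw [h2]; exact Subgroup.one_mem _
    · rw [h2, hanti]
      exact Subgroup.inv_mem _ (low_sym s hε v)
  · intro a _; exact Finset.mem_univ _
  · intro a _; rfl

/-- symbols of a generated group -/
theorem mem_of_gens (s : G →* G →* B) (T : Subgroup B) (S : Set G) (h : ∀ a ∈ S, ∀ b ∈ S, s a b ∈ T) :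
    ∀ a ∈ Subgroup.closure S, ∀ b ∈ Subgroup.closure S, s a b ∈ T := by
  have hright : ∀ a ∈ S, ∀ b ∈ Subgroup.closure S, s a b ∈ T := by
    intro a ha b hb
    have h2 : Subgroup.closure S ≤ T.comap (s a) := by
      rw [Subgroup.closure_le]
      intro b hb
      exact h a ha b hb
    exact h2 hb
  intro a ha b hb
  have h2 : Subgroup.closure S ≤ T.comap (s.flip b) := by
    rw [Subgroup.closure_le]
    intro a ha
    exact hright a ha b hb
  exact h2 ha

/-- the normal form modulo lower terms -/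
theorem exists_Q [DecidableEq I] (hanti : ∀ a b, s a b = (s b a)⁻¹)
    (H : Subgroup G) (V : Subgroup B) (hV : ∀ a ∈ H, ∀ b ∈ H, s a b ∈ V) (z : I → G)
    (α : B) (hα : α ∈ Subgroup.closure {γ | ∃ a ∈ H ⊔ Subgroup.closure (Set.range z),
      ∃ b ∈ H ⊔ Subgroup.closure (Set.range z), γ = s a b}) :
    ∃ w : I → I → ℤ, α * (Q s z w)⁻¹ ∈ low s H V z := by
  let T : Subgroup B :=
    { carrier := {α | ∃ w : I → I → ℤ, α * (Q s z w)⁻¹ ∈ low s H V z}
      mul_mem' := by
        rintro x y ⟨w, hw⟩ ⟨w', hw'⟩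
        refine ⟨w + w', ?_⟩
        rw [Q_add, mul_inv, mul_mul_mul_comm]
        exact Subgroup.mul_mem _ hw hw'
      one_mem' := ⟨0, by rw [Q_zero, inv_one, one_mul]; exact Subgroup.one_mem _⟩
      inv_mem' := by
        rintro x ⟨w, hw⟩
        refine ⟨-w, ?_⟩
        rw [Q_neg, ← mul_inv]
        exact Subgroup.inv_mem _ hw }
  have hlow : ∀ γ ∈ low s H V z, γ ∈ T := fun γ hγ => ⟨0, by rw [Q_zero, inv_one, mul_one]; exact hγ⟩
  have hgen : H ⊔ Subgroup.closure (Set.range z) = Subgroup.closure ((H : Set G) ∪ Set.range z) := by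
    rw [Subgroup.closure_union, Subgroup.closure_eq]
  have hall := mem_of_gens s T ((H : Set G) ∪ Set.range z) (by
    rintro a (ha | ⟨u, rfl⟩) b (hb | ⟨v, rfl⟩)
    · exact hlow _ (low_V s (hV a ha b hb))
    · exact hlow _ (low_sym s ha v)
    · rw [hanti]; exact T.inv_mem (hlow _ (low_sym s hb u))
    · refine ⟨fun a b => (Pi.single u 1 : I → ℤ) a * (Pi.single v 1 : I → ℤ) b, ?_⟩
      rw [Q_single, mul_inv_cancel]
      exact Subgroup.one_mem _)
  rw [← hgen] at hall
  have hle : Subgroup.closure {γ | ∃ a ∈ H ⊔ Subgroup.closure (Set.range z),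
      ∃ b ∈ H ⊔ Subgroup.closure (Set.range z), γ = s a b} ≤ T := by
    rw [Subgroup.closure_le]
    rintro γ ⟨a, ha, b, hb, rfl⟩
    exact hall a ha b hb
  exact hle hα

/-- the class of exponents only depends on the alternating part modulo `n` -/
theorem Q_congr (hanti : ∀ a b, s a b = (s b a)⁻¹) (n : ℕ) (htors : ∀ a b, s a b ^ n = 1) (ε : G)
    (H : Subgroup G) (hε : ε ∈ H) (hdiag : ∀ a, s a a = 1 ∨ s a a = s a ε) (V : Subgroup B) (z : I → G)
    (w w' : I → I → ℤ) (h : ∀ u v, (n : ℤ) ∣ (w u v - w v u) - (w' u v - w' v u)) :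
    Q s z w * (Q s z w')⁻¹ ∈ low s H V z := by
  rw [← Q_neg, ← Q_add]
  refine Q_sym hanti n htors ε H hε hdiag V z _ fun u v => ?_
  have e1 : (w + -w') u v - (w + -w') v u = (w u v - w v u) - (w' u v - w' v u) := by
    simp only [Pi.add_apply, Pi.neg_apply]; ring
  rw [e1]; exact h u v

/-- a decomposition modulo `n` gives a product of symbols modulo lower terms -/
theorem mod_low (hanti : ∀ a b, s a b = (s b a)⁻¹) (n : ℕ) (htors : ∀ a b, s a b ^ n = 1) (ε : G)
    (H : Subgroup G) (hε : ε ∈ H) (hdiag : ∀ a, s a a = 1 ∨ s a a = s a ε) (V : Subgroup B) (z : I → G)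
    (w : I → I → ℤ) (r : ℕ) (e f : Fin r → I → ℤ)
    (h : ∀ u v, (n : ℤ) ∣ (w u v - w v u) - (∑ i, wdg (e i) (f i)) u v) :
    Q s z w * (∏ i, s (mon z (e i)) (mon z (f i)))⁻¹ ∈ low s H V z := by
  have h1 : ∏ i, s (mon z (e i)) (mon z (f i)) = Q s z (∑ i, fun u v => e i u * f i v) := by
    rw [Q_sum]
    exact Finset.prod_congr rfl fun i _ => s_mon s z _ _
  rw [h1]
  refine Q_congr hanti n htors ε H hε hdiag V z _ _ fun u v => ?_
  have e1 : (∑ i, fun u v => e i u * f i v : I → I → ℤ) u v - (∑ i, fun u v => e i u * f i v : I → I → ℤ) v u =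
      (∑ i, wdg (e i) (f i)) u v := by
    simp only [Finset.sum_apply, Matrix.sum_apply, wdg, Matrix.of_apply]
    rw [← Finset.sum_sub_distrib]
    refine Finset.sum_congr rfl fun i _ => ?_
    ring
  rw [e1]; exact h u v

/-- lower terms in the new coordinates -/
theorem low_absorb [DecidableEq I] (n : ℕ) (htors : ∀ a b, s a b ^ n = 1)
    (H : Subgroup G) (V : Subgroup B) (z : I → G) (g : ℕ) (hI : Fintype.card I = 2 * g)
    (e f : Fin g → I → ℤ) (hdet : IsCoprime (∑ i, wdg (e i) (f i) : Matrix I I ℤ).det (n : ℤ))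
    (γ : B) (hγ : γ ∈ low s H V z) :
    ∃ a b : Fin g → G, (∀ i, a i ∈ H) ∧ (∀ i, b i ∈ H) ∧ ∃ v ∈ V,
      γ = (∏ i, (s (a i) (mon z (e i)) * s (b i) (mon z (f i)))) * v := by
  let T : Subgroup B :=
    { carrier := {γ | ∃ a b : Fin g → G, (∀ i, a i ∈ H) ∧ (∀ i, b i ∈ H) ∧ ∃ v ∈ V,
        γ = (∏ i, (s (a i) (mon z (e i)) * s (b i) (mon z (f i)))) * v}
      mul_mem' := by
        rintro x y ⟨a, b, ha, hb, v, hv, rfl⟩ ⟨a', b', ha', hb', v', hv', rfl⟩
        refine ⟨a * a', b * b', fun i => H.mul_mem (ha i) (ha' i), fun i => H.mul_mem (hb i) (hb' i), v * v',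
          V.mul_mem hv hv', ?_⟩
        rw [mul_mul_mul_comm, ← Finset.prod_mul_distrib]
        congr 1
        refine Finset.prod_congr rfl fun i _ => ?_
        rw [Pi.mul_apply, Pi.mul_apply, map_mul, map_mul, MonoidHom.mul_apply, MonoidHom.mul_apply,
          mul_mul_mul_comm]
      one_mem' := ⟨1, 1, fun i => H.one_mem, fun i => H.one_mem, 1, V.one_mem, by simp⟩
      inv_mem' := by
        rintro x ⟨a, b, ha, hb, v, hv, rfl⟩
        refine ⟨a⁻¹, b⁻¹, fun i => H.inv_mem (ha i), fun i => H.inv_mem (hb i), v⁻¹, V.inv_mem hv, ?_⟩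
        rw [mul_inv, ← Finset.prod_inv_distrib]
        congr 1
        refine Finset.prod_congr rfl fun i _ => ?_
        rw [Pi.inv_apply, Pi.inv_apply, map_inv, map_inv, MonoidHom.inv_apply, MonoidHom.inv_apply, mul_inv] }
  have hTV : V ≤ T := fun v hv => ⟨1, 1, fun i => H.one_mem, fun i => H.one_mem, v, hv, by simp⟩
  have hTe : ∀ h ∈ H, ∀ i, s h (mon z (e i)) ∈ T := by
    intro h hh i
    refine ⟨Pi.mulSingle i h, 1, ?_, fun i => H.one_mem, 1, V.one_mem, ?_⟩
    · intro j
      by_cases hj : j = i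
      · subst hj; rw [Pi.mulSingle_eq_same]; exact hh
      · rw [Pi.mulSingle_eq_of_ne hj]; exact H.one_mem
    · rw [mul_one, Finset.prod_eq_single i]
      · simp
      · intro j _ hj; rw [Pi.mulSingle_eq_of_ne hj]; simp
      · intro h; exact absurd (Finset.mem_univ _) h
  have hTf : ∀ h ∈ H, ∀ i, s h (mon z (f i)) ∈ T := by
    intro h hh i
    refine ⟨1, Pi.mulSingle i h, fun i => H.one_mem, ?_, 1, V.one_mem, ?_⟩
    · intro j
      by_cases hj : j = i
      · subst hj; rw [Pi.mulSingle_eq_same]; exact hh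
      · rw [Pi.mulSingle_eq_of_ne hj]; exact H.one_mem
    · rw [mul_one, Finset.prod_eq_single i]
      · simp
      · intro j _ hj; rw [Pi.mulSingle_eq_of_ne hj]; simp
      · intro h; exact absurd (Finset.mem_univ _) h
  -- the coordinate matrix
  obtain ⟨σ⟩ : Nonempty (I ≃ Fin g ⊕ Fin g) := by
    refine Fintype.card_eq.1 ?_
    rw [hI, Fintype.card_sum, Fintype.card_fin]; ring
  let M : Matrix I I ℤ := Matrix.of fun k v => Sum.elim e f (σ k) v
  let M2 : Matrix I I ℤ := Matrix.of fun k v => Sum.elim f (-e) (σ k) v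
  have hM : (∑ i, wdg (e i) (f i) : Matrix I I ℤ) = M.transpose * M2 := by
    ext u v
    rw [Matrix.mul_apply, Matrix.sum_apply, ← Equiv.sum_comp σ.symm, Fintype.sum_sum_type,
      ← Finset.sum_add_distrib]
    refine Finset.sum_congr rfl fun i _ => ?_
    simp only [M, M2, wdg, Matrix.transpose_apply, Matrix.of_apply, Equiv.apply_symm_apply, Sum.elim_inl,
      Sum.elim_inr, Pi.neg_apply]
    ring
  have hMc : IsCoprime M.det (n : ℤ) := by
    rw [hM, Matrix.det_mul, Matrix.det_transpose] at hdet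
    exact hdet.of_mul_left_left
  obtain ⟨t, t', ht⟩ := hMc
  have hzD : ∀ u, z u ^ M.det = ∏ k, mon z (M k) ^ (M.adjugate u k) := by
    intro u
    rw [← mon_sum, ← mon_single z u]
    congr 1
    funext v
    have h1 := congrFun (congrFun (Matrix.adjugate_mul M) u) v
    rw [Matrix.mul_apply] at h1
    have h2 : ∑ k, M.adjugate u k * M k v = (M.det • (1 : Matrix I I ℤ)) u v := h1
    rw [h2, Matrix.smul_apply, Matrix.one_apply, smul_eq_mul]
    by_cases huv : u = v
    · subst huv; rw [Pi.single_eq_same, if_pos rfl, mul_one]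
    · rw [Pi.single_eq_of_ne (Ne.symm huv), if_neg huv, mul_zero]
  have hTz : ∀ h ∈ H, ∀ u, s h (z u) ∈ T := by
    intro h hh u
    have h1 : s h (z u) = (s h (z u ^ M.det)) ^ t := by
      rw [map_zpow, ← _root_.zpow_mul]
      have e1 : M.det * t = 1 - t' * n := by rw [← ht]; ring
      rw [e1, _root_.zpow_sub, zpow_one, mul_comm t', _root_.zpow_mul, zpow_natCast, htors, _root_.one_zpow,
        inv_one, mul_one]
    rw [h1, hzD, map_prod]
    refine T.zpow_mem (T.prod_mem fun k _ => ?_) _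
    rw [map_zpow]
    refine T.zpow_mem ?_ _
    rcases hk : σ k with i | i
    · have : M k = e i := by funext v; simp only [M, Matrix.of_apply, hk, Sum.elim_inl]
      rw [this]; exact hTe h hh i
    · have : M k = f i := by funext v; simp only [M, Matrix.of_apply, hk, Sum.elim_inr]
      rw [this]; exact hTf h hh i
  have hle : low s H V z ≤ T := by
    refine sup_le hTV ?_
    rw [Subgroup.closure_le]
    rintro γ ⟨h, hh, u, rfl⟩
    exact hTz h hh u
  exact hle hγ

/-- **The main theorem on abstract symbols.** -/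
theorem abs_main [DecidableEq I] (hanti : ∀ a b, s a b = (s b a)⁻¹) (n : ℕ) (hn : 0 < n)
    (htors : ∀ a b, s a b ^ n = 1) (ε : G)
    (H : Subgroup G) (hε : ε ∈ H) (hdiag : ∀ a, s a a = 1 ∨ s a a = s a ε) (V : Subgroup B)
    (hV : ∀ a ∈ H, ∀ b ∈ H, s a b ∈ V) (z : I → G) (g : ℕ) (hI : Fintype.card I = 2 * g)
    (hND : ∀ b : Matrix I I ℤ, Alt b → ∃ w0 : I → I → ℤ, Q s z w0 ∈ low s H V z ∧
      IsCoprime (b + Matrix.of fun u v => w0 u v - w0 v u).det (n : ℤ))
    (α : B) (hα : α ∈ Subgroup.closure {γ | ∃ a ∈ H ⊔ Subgroup.closure (Set.range z),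
      ∃ b ∈ H ⊔ Subgroup.closure (Set.range z), γ = s a b}) :
    ∃ x y : Fin g → G, ∃ v ∈ V, α = (∏ i, s (x i) (y i)) * v := by
  obtain ⟨w, hw⟩ := exists_Q hanti H V hV z α hα
  obtain ⟨w0, hw0, hdet⟩ := hND (Matrix.of fun u v => w u v - w v u)
    ⟨fun u => by simp, fun u v => by simp⟩
  set b : Matrix I I ℤ := (Matrix.of fun u v => w u v - w v u) + Matrix.of fun u v => w0 u v - w0 v u with hb
  have hbalt : Alt b := ⟨fun u => by simp [hb], fun u v => by
    rw [hb]; simp only [Matrix.add_apply, Matrix.of_apply]; ring⟩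
  obtain ⟨e, f, hef⟩ := decomp (K := ℚ) (RingHom.injective_int (algebraMap ℤ ℚ)) g b hbalt (by
    have := Matrix.rank_le_card_width (b.map (algebraMap ℤ ℚ))
    omega)
  have h1 := mod_low hanti n htors ε H hε hdiag V z (w + w0) g e f (by
    intro u v
    rw [← hef]
    simp only [hb, Matrix.add_apply, Matrix.of_apply, Pi.add_apply]
    have : w u v + w0 u v - (w v u + w0 v u) - (w u v - w v u + (w0 u v - w0 v u)) = 0 := by ring
    rw [this]; exact dvd_zero _)
  rw [Q_add] at h1
  have h2 : α * (∏ i, s (mon z (e i)) (mon z (f i)))⁻¹ ∈ low s H V z := by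
    have h3 := Subgroup.mul_mem _ (Subgroup.mul_mem _ hw h1) (Subgroup.inv_mem _ hw0)
    have e1 : α * (Q s z w)⁻¹ * (Q s z w * Q s z w0 * (∏ i, s (mon z (e i)) (mon z (f i)))⁻¹) * (Q s z w0)⁻¹ =
        α * (∏ i, s (mon z (e i)) (mon z (f i)))⁻¹ := by
      generalize Q s z w = p
      generalize Q s z w0 = q
      generalize (∏ i, s (mon z (e i)) (mon z (f i)))⁻¹ = r
      calc α * p⁻¹ * (p * q * r) * q⁻¹ = α * r * (p * p⁻¹) * (q * q⁻¹) := by
            simp only [mul_assoc, mul_comm, mul_left_comm]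
        _ = α * r := by rw [mul_inv_cancel, mul_inv_cancel, mul_one, mul_one]
    rw [e1] at h3
    exact h3
  obtain ⟨a, c, ha, hc, v, hv, h⟩ := low_absorb n htors H V z g hI e f (by rw [← hef]; exact hdet) _ h2
  refine ⟨fun i => mon z (e i) * c i, fun i => mon z (f i) * (a i)⁻¹, (∏ i, s (c i) (a i)) * v,
    V.mul_mem (V.prod_mem fun i _ => hV _ (hc i) _ (ha i)) hv, ?_⟩
  have h4 : α = (∏ i, s (mon z (e i)) (mon z (f i))) *
      ((∏ i, (s (a i) (mon z (e i)) * s (c i) (mon z (f i)))) * v) := by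
    rw [← h, mul_comm α, mul_inv_cancel_left]
  rw [h4, ← mul_assoc, ← mul_assoc, ← Finset.prod_mul_distrib, ← Finset.prod_mul_distrib]
  congr 1
  refine Finset.prod_congr rfl fun i _ => ?_
  simp only [map_mul, MonoidHom.mul_apply, map_inv]
  rw [hanti (a i) (mon z (e i))]
  generalize s (mon z (e i)) (mon z (f i)) = p
  generalize s (mon z (e i)) (a i) = q
  generalize s (c i) (mon z (f i)) = r
  generalize s (c i) (a i) = t
  calc p * (q⁻¹ * r) = p * r * q⁻¹ * (t⁻¹ * t) := by
        rw [inv_mul_cancel, mul_one]; simp only [mul_assoc, mul_comm, mul_left_comm]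
    _ = p * r * (q⁻¹ * t⁻¹) * t := by simp only [mul_assoc]
    _ = _ := by simp only [mul_inv, mul_assoc, mul_comm, mul_left_comm]

end

end Pool.Agent.Y109.PI
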