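import Mathlib
import Pool.Agent.H79.LU.H19PS_G

/-! The index bound for sums of symbols `[x, y)`. -/

set_option autoImplicit false
set_option linter.all false

open scoped TensorProduct

noncomputable section

namespace Pool.Agent.H19PS

open Pool.Agent.Helper18.Br Pool.Agent.H552R3.SymBr Pool.Agent.H552R3.Tsen Pool.Agent.Y109.PI

universe u

section main

variable {K : Type u} [Field K] {p : ℕ} [hp : Fact p.Prime] [CharP K p]
  {Λ : AddSubgroup K} {H : Subgroup Kˣ} {V : Subgroup (BrauerGroup.{u, u} K)} {g r : ℕ}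
  {a : Fin g → K} {b : Fin g → Kˣ}

/-- **Sum of `g` symbols.** -/
theorem main_sum (hV : ∀ x ∈ Λ, ∀ y ∈ H, psCl p x y ∈ V) (w : Fin r → Matrix (Fin g) (Fin g) ℤ)
    (hw : ∀ k, Qp p a b (w k) ∈ T0 p Λ H V a b)
    (hcond : ∀ P : Matrix (Fin g) (Fin g) (ZMod p), ∃ c : Fin r → ZMod p,
      (P + ∑ k, c k • (w k).map (Int.castRingHom (ZMod p))).det ≠ 0)
    {α : BrauerGroup.{u, u} K}
    (hα : α ∈ Subgroup.closure {γ | ∃ x ∈ AddSubgroup.closure ((Λ : Set K) ∪ Set.range a),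
      ∃ y ∈ Subgroup.closure ((H : Set Kˣ) ∪ Set.range b), γ = psCl p x y}) :
    ∃ (x : Fin g → K) (y : Fin g → Kˣ), ∃ v ∈ V, α = (∏ i, psCl p (x i) (y i)) * v := by
  haveI : NeZero p := ⟨hp.out.ne_zero⟩
  obtain ⟨P, t, ht, rfl⟩ := nf hV hα
  obtain ⟨c, hc⟩ := hcond (P.map (Int.castRingHom (ZMod p)))
  have hlift : ∀ k, (((c k).val : ℤ) : ZMod p) = c k := fun k => by
    rw [Int.cast_natCast, ZMod.natCast_zmod_val]
  have h1 : ¬ (p : ℤ) ∣ (P + ∑ k, ((c k).val : ℤ) • w k).det := by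
    rw [det_dvd_iff, red_sum]
    simp only [hlift]
    exact hc
  have h2 : Qp p a b (∑ k, ((c k).val : ℤ) • w k) ∈ T0 p Λ H V a b := by
    rw [Qp_sum]
    exact Subgroup.prod_mem _ fun k _ => Subgroup.zpow_mem _ (hw k) _
  obtain ⟨x, y, v, hv, h⟩ := absorb hV (P + ∑ k, ((c k).val : ℤ) • w k) h1
    ((Qp p a b (∑ k, ((c k).val : ℤ) • w k))⁻¹ * t) (Subgroup.mul_mem _ (Subgroup.inv_mem _ h2) ht)
  refine ⟨x, y, v, hv, ?_⟩
  rw [← h, Qp_add, mul_assoc, mul_inv_cancel_left]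

/-- **Sum of `g - 1` symbols.** -/
theorem main_sing {a : Fin (g + 1) → K} {b : Fin (g + 1) → Kˣ} (P : Matrix (Fin (g + 1)) (Fin (g + 1)) ℤ)
    (hP : (p : ℤ) ∣ P.det) :
    ∃ (x : Fin g → K) (y : Fin g → Kˣ), Qp p a b P = ∏ i, psCl p (x i) (y i) := by
  haveI : NeZero p := ⟨hp.out.ne_zero⟩
  rw [det_dvd_iff] at hP
  obtain ⟨v, hv0, hv⟩ := Matrix.exists_vecMul_eq_zero_iff.2 hP
  obtain ⟨i0, hi0⟩ : ∃ i, v i ≠ 0 := by
    by_contra hcon
    push Not at hcon
    exact hv0 (funext hcon)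
  -- integral coefficients
  let n : Fin (g + 1) → ℤ := fun i => (((v i0)⁻¹ * v i).val : ℤ)
  have hn : ∀ i, ((n i : ℤ) : ZMod p) = (v i0)⁻¹ * v i := fun i => by
    simp only [n]
    rw [Int.cast_natCast, ZMod.natCast_zmod_val]
  have hrel : ∀ j, (p : ℤ) ∣ ∑ i, n i * P i j := by
    intro j
    rw [← ZMod.intCast_zmod_eq_zero_iff_dvd, Int.cast_sum]
    simp only [Int.cast_mul, hn]
    have h1 := congrFun hv j
    rw [Matrix.vecMul, dotProduct] at h1
    simp only [Matrix.map_apply, eq_intCast, Pi.zero_apply] at h1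
    have h2 : ∑ i, (v i0)⁻¹ * v i * (P i j : ZMod p) = (v i0)⁻¹ * ∑ i, v i * (P i j : ZMod p) := by
      rw [Finset.mul_sum]
      exact Finset.sum_congr rfl fun i _ => by ring
    rw [h2, h1, mul_zero]
  let B : Fin (g + 1) → Kˣ := fun i => ∏ j, b j ^ P i j
  have hQ : Qp p a b P = ∏ i, psCl p (a i) (B i) := by
    rw [Qp]
    refine Finset.prod_congr rfl fun i _ => ?_
    simp only [B]
    rw [S_prod]
    exact Finset.prod_congr rfl fun j _ => (S_zpow _ _ _).symm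
  -- the relation
  have h3 : ∏ i, psCl p (a i0) (B i) ^ n i = 1 := by
    have h4 : ∀ i, psCl p (a i0) (B i) ^ n i = ∏ j, psCl p (a i0) (b j) ^ (n i * P i j) := by
      intro i
      simp only [B]
      rw [S_prod, ← Finset.prod_zpow]
      refine Finset.prod_congr rfl fun j _ => ?_
      rw [S_zpow, ← _root_.zpow_mul, mul_comm]
    simp only [h4]
    rw [Finset.prod_comm]
    refine Finset.prod_eq_one fun j _ => ?_
    rw [prod_zpow_sum]
    have h5 := S_zpow_congr (p := p) (a i0) (b j) (m := ∑ i, n i * P i j) (n := 0) (by rw [sub_zero]; exact hrel j)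
    rw [h5, zpow_zero]
  have hn0 : (p : ℤ) ∣ n i0 - 1 := by
    rw [← ZMod.intCast_zmod_eq_zero_iff_dvd, Int.cast_sub, hn, inv_mul_cancel₀ hi0, Int.cast_one, sub_self]
  rw [Fin.prod_univ_succAbove _ i0, S_zpow_congr (a i0) (B i0) hn0, zpow_one] at h3
  refine ⟨fun t => a (i0.succAbove t) - n (i0.succAbove t) • a i0, fun t => B (i0.succAbove t), ?_⟩
  rw [hQ, Fin.prod_univ_succAbove _ i0]
  have h6 : ∀ t : Fin g, psCl p (a (i0.succAbove t) - n (i0.succAbove t) • a i0) (B (i0.succAbove t)) =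
      psCl p (a (i0.succAbove t)) (B (i0.succAbove t)) * (psCl p (a i0) (B (i0.succAbove t)) ^ n (i0.succAbove t))⁻¹ := by
    intro t
    rw [sub_eq_add_neg, psCl_add_left, ← neg_smul, S_zsmul, _root_.zpow_neg]
  simp only [h6, Finset.prod_mul_distrib, Finset.prod_inv_distrib]
  rw [mul_comm, eq_inv_of_mul_eq_one_left h3]

end main

end Pool.Agent.H19PS
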