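import Mathlib
import Pool.Agent.H79.LU.Y109_PI_Mat

/-! Lifting degenerate translates of alternating matrices from a residue field to a finite local ring. -/

set_option autoImplicit false
set_option linter.all false

open Matrix

namespace Pool.Agent.Q128.PI

open Pool.Agent.Y109.PI

section

variable {I : Type*} [Fintype I] [DecidableEq I] (i j : I)

/-- the other indices -/
abbrev Oth := {k : I // k ≠ i ∧ k ≠ j}

theorem sum_split {R : Type*} [AddCommMonoid R] (hij : i ≠ j) (f : I → R) :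
    ∑ l, f l = f i + f j + ∑ l : Oth i j, f l := by
  have h1 : ∑ l : Oth i j, f l = ∑ l ∈ Finset.univ.filter (fun k : I => k ≠ i ∧ k ≠ j), f l := by
    rw [← Finset.sum_subtype (Finset.univ.filter fun k : I => k ≠ i ∧ k ≠ j) (by simp) f]
  have h2 : (Finset.univ.filter fun k : I => ¬ (k ≠ i ∧ k ≠ j)) = {i, j} := by
    ext k
    simp only [Finset.mem_filter, Finset.mem_univ, true_and, Finset.mem_insert, Finset.mem_singleton]
    tauto
  rw [← Finset.sum_filter_add_sum_filter_not Finset.univ (fun k : I => k ≠ i ∧ k ≠ j) f, h2, Finset.sum_pair hij,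
    ← h1, add_comm]

variable {R : Type*} [CommRing R]

/-- the submatrix on the other indices -/
abbrev subm (M : Matrix I I R) : Matrix (Oth i j) (Oth i j) R := M.submatrix Subtype.val Subtype.val

theorem exists_vec (hij : i ≠ j) (M : Matrix I I R) (hF : IsUnit (subm i j M).det) (t : I → R) :
    ∃ u : I → R, u i = t i ∧ u j = t j ∧ ∀ k, k ≠ i → k ≠ j → (M *ᵥ u) k = 0 := by
  let w : Oth i j → R := - ((subm i j M)⁻¹ *ᵥ fun k : Oth i j => M k i * t i + M k j * t j)
  have hw : subm i j M *ᵥ w = - fun k : Oth i j => M k i * t i + M k j * t j := by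
    simp only [w]
    rw [mulVec_neg, mulVec_mulVec, Matrix.mul_nonsing_inv _ hF, one_mulVec]
  refine ⟨fun k => if h : k ≠ i ∧ k ≠ j then w ⟨k, h⟩ else t k, ?_, ?_, ?_⟩
  · simp
  · simp
  · intro k hki hkj
    have h1 : (M *ᵥ fun k => if h : k ≠ i ∧ k ≠ j then w ⟨k, h⟩ else t k) k =
        M k i * t i + M k j * t j + (subm i j M *ᵥ w) ⟨k, hki, hkj⟩ := by
      simp only [mulVec, dotProduct]
      rw [sum_split i j hij]
      congr 1
      · simp
      · refine Finset.sum_congr rfl fun l _ => ?_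
        rw [dif_pos l.2]
        rfl
    rw [h1, hw, Pi.neg_apply, add_neg_cancel]

theorem unique_vec {F : Type*} [Field F] (hij : i ≠ j) (M : Matrix I I F) (hF : (subm i j M).det ≠ 0) (u u' : I → F)
    (hi : u i = u' i) (hj : u j = u' j) (h : ∀ k, k ≠ i → k ≠ j → (M *ᵥ u) k = 0)
    (h' : ∀ k, k ≠ i → k ≠ j → (M *ᵥ u') k = 0) : u = u' := by
  have h1 : subm i j M *ᵥ (fun k : Oth i j => u k - u' k) = 0 := by
    funext k
    have e1 := h k k.2.1 k.2.2
    have e2 := h' k k.2.1 k.2.2
    simp only [mulVec, dotProduct] at e1 e2 ⊢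
    rw [sum_split i j hij] at e1 e2
    rw [hi, hj] at e1
    simp only [mul_sub, Finset.sum_sub_distrib, Pi.zero_apply]
    have e3 := e1.trans e2.symm
    have e4 := add_left_cancel e3
    rw [sub_eq_zero]
    exact e4
  have h2 := Matrix.eq_zero_of_mulVec_eq_zero hF h1
  funext k
  by_cases hk : k ≠ i ∧ k ≠ j
  · exact sub_eq_zero.1 (congrFun h2 ⟨k, hk⟩)
  · by_cases hki : k = i
    · subst hki; exact hi
    · have : k = j := by tauto
      subst this; exact hj

theorem alt_dot' {b : Matrix I I R} (hb : Alt b) (x y : I → R) : x ⬝ᵥ (b *ᵥ y) = - (y ⬝ᵥ (b *ᵥ x)) := by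
  simp only [dotProduct, mulVec, Finset.mul_sum]
  rw [Finset.sum_comm, ← Finset.sum_neg_distrib]
  refine Finset.sum_congr rfl fun u _ => ?_
  rw [← Finset.sum_neg_distrib]
  refine Finset.sum_congr rfl fun v _ => ?_
  rw [hb.2 v u]; ring

theorem alt_dot_self' {b : Matrix I I R} (hb : Alt b) (x : I → R) : x ⬝ᵥ (b *ᵥ x) = 0 := by
  simp only [dotProduct, mulVec, Finset.mul_sum]
  rw [← Finset.sum_product']
  refine Finset.sum_involution (fun q _ => (q.2, q.1)) ?_ ?_ ?_ ?_
  · rintro ⟨i, j⟩ _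
    simp only
    rw [hb.2 j i]
    ring
  · rintro ⟨i, j⟩ _ h h'
    simp only [Prod.mk.injEq] at h'
    apply h
    simp only
    rw [h'.1, hb.1, zero_mul, mul_zero]
  · intro a _; simp
  · intro a _; rfl

theorem dot_split (hij : i ≠ j) (u y : I → R) (hy : ∀ k, k ≠ i → k ≠ j → y k = 0) :
    u ⬝ᵥ y = u i * y i + u j * y j := by
  rw [dotProduct, sum_split i j hij]
  have : ∑ l : Oth i j, u l * y l = 0 := Finset.sum_eq_zero fun l _ => by rw [hy l l.2.1 l.2.2, mul_zero]
  rw [this, add_zero]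

/-- the value `c` of a vector `v` with `v_i = 0`, `v_j = 1` -/
theorem vj_zero (hij : i ≠ j) {M : Matrix I I R} (hM : Alt M) (v : I → R) (hvi : v i = 0) (hvj : v j = 1)
    (hv : ∀ k, k ≠ i → k ≠ j → (M *ᵥ v) k = 0) : (M *ᵥ v) j = 0 := by
  have h := alt_dot_self' hM v
  rw [dot_split i j hij v _ hv, hvi, hvj, zero_mul, zero_add, one_mul] at h
  exact h

theorem ui_zero (hij : i ≠ j) {M : Matrix I I R} (hM : Alt M) (u : I → R) (hui : u i = 1) (huj : u j = 0)
    (hu : ∀ k, k ≠ i → k ≠ j → (M *ᵥ u) k = 0) : (M *ᵥ u) i = 0 := by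
  have h := alt_dot_self' hM u
  rw [dot_split i j hij u _ hu, hui, huj, zero_mul, add_zero, one_mul] at h
  exact h

/-- the difference of the values -/
theorem diff_value (hij : i ≠ j) {M M' : Matrix I I R} (hM : Alt M) (hM' : Alt M') (u u' v v' : I → R)
    (hui' : u' i = 1) (huj' : u' j = 0) (hvi : v i = 0) (hvj : v j = 1) (hvi' : v' i = 0) (hvj' : v' j = 1)
    (hv : ∀ k, k ≠ i → k ≠ j → (M *ᵥ v) k = 0) (hu' : ∀ k, k ≠ i → k ≠ j → (M' *ᵥ u') k = 0)
    (hv' : ∀ k, k ≠ i → k ≠ j → (M' *ᵥ v') k = 0) :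
    (M *ᵥ v) i - (M' *ᵥ v') i = u' ⬝ᵥ ((M - M') *ᵥ v) := by
  have h1 : u' ⬝ᵥ (M *ᵥ v) = (M *ᵥ v) i := by
    rw [dot_split i j hij u' _ hv, hui', huj', one_mul, zero_mul, add_zero]
  have h2 : u' ⬝ᵥ (M' *ᵥ v) = (M' *ᵥ v') i := by
    have e1 : u' ⬝ᵥ (M' *ᵥ v) = - (M' *ᵥ u') j := by
      rw [alt_dot' hM', dot_split i j hij v _ hu', hvi, hvj, zero_mul, zero_add, one_mul]
    have e2 : u' ⬝ᵥ (M' *ᵥ v') = - (M' *ᵥ u') j := by
      rw [alt_dot' hM', dot_split i j hij v' _ hu', hvi', hvj', zero_mul, zero_add, one_mul]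
    have e3 : u' ⬝ᵥ (M' *ᵥ v') = (M' *ᵥ v') i := by
      rw [dot_split i j hij u' _ hv', hui', huj', one_mul, zero_mul, add_zero]
    rw [e1, ← e2, e3]
  rw [sub_mulVec, dotProduct_sub, h1, h2]

end

section

variable {I : Type*} [Fintype I] [DecidableEq I] {R F : Type*} [CommRing R] [Finite R] [Field F] (π : R →+* F)

/-- **Lifting.** A nondegenerate simple root over the residue field lifts: some translate `B + x D`, with `x` in
the maximal ideal, is killed by two vectors with the standard coordinates at `i`, `j`. -/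
theorem lift_root (hπ : ∀ r : R, π r ≠ 0 → IsUnit r) (i j : I) (hij : i ≠ j) (B D : Matrix I I R) (hB : Alt B)
    (hD : Alt D) (hF : (subm i j (B.map π)).det ≠ 0) (a b : I → F) (ha : (B.map π) *ᵥ a = 0)
    (hb : (B.map π) *ᵥ b = 0) (hai : a i = 1) (haj : a j = 0) (hbi : b i = 0) (hbj : b j = 1)
    (hδ : a ⬝ᵥ ((D.map π) *ᵥ b) ≠ 0) :
    ∃ (x : R) (u v : I → R), u i = 1 ∧ u j = 0 ∧ v i = 0 ∧ v j = 1 ∧ (B + x • D) *ᵥ u = 0 ∧ (B + x • D) *ᵥ v = 0 := by
  classical
  let 𝔪 := {x : R // π x = 0}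
  have hmap : ∀ x : 𝔪, (B + x.1 • D).map π = B.map π := by
    intro x
    ext k l
    simp only [Matrix.map_apply, Matrix.add_apply, Matrix.smul_apply, smul_eq_mul, map_add, map_mul, x.2, zero_mul,
      add_zero]
  have halt : ∀ x : R, Alt (B + x • D) := fun x =>
    ⟨fun u => by rw [Matrix.add_apply, Matrix.smul_apply, hB.1, hD.1, smul_zero, add_zero], fun u v => by
      rw [Matrix.add_apply, Matrix.add_apply, Matrix.smul_apply, Matrix.smul_apply, hB.2 u v, hD.2 u v, smul_neg,
        neg_add]⟩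
  have hunit : ∀ x : 𝔪, IsUnit (subm i j (B + x.1 • D)).det := by
    intro x
    apply hπ
    have h1 := RingHom.map_det π (subm i j (B + x.1 • D))
    rw [h1]
    have h2 : π.mapMatrix (subm i j (B + x.1 • D)) = subm i j (B.map π) := by
      rw [← hmap x]
      rfl
    rw [h2]
    exact hF
  have hu : ∀ x : 𝔪, ∃ u : I → R, u i = 1 ∧ u j = 0 ∧ ∀ k, k ≠ i → k ≠ j → ((B + x.1 • D) *ᵥ u) k = 0 := fun x => by
    obtain ⟨u, h1, h2, h3⟩ := exists_vec i j hij (B + x.1 • D) (hunit x) (Pi.single i 1)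
    exact ⟨u, by rw [h1, Pi.single_eq_same], by rw [h2, Pi.single_eq_of_ne (Ne.symm hij)], h3⟩
  have hv : ∀ x : 𝔪, ∃ u : I → R, u i = 0 ∧ u j = 1 ∧ ∀ k, k ≠ i → k ≠ j → ((B + x.1 • D) *ᵥ u) k = 0 := fun x => by
    obtain ⟨u, h1, h2, h3⟩ := exists_vec i j hij (B + x.1 • D) (hunit x) (Pi.single j 1)
    exact ⟨u, by rw [h1, Pi.single_eq_of_ne hij], by rw [h2, Pi.single_eq_same], h3⟩
  choose u hui huj hu3 using hu
  choose v hvi hvj hv3 using hv
  have hmv : ∀ (M : Matrix I I R) (y : I → R) (k : I), π ((M *ᵥ y) k) = ((M.map π) *ᵥ (fun l => π (y l))) k := by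
    intro M y k
    simp only [mulVec, dotProduct, map_sum, map_mul, Matrix.map_apply]
  have hua : ∀ x : 𝔪, (fun k => π (u x k)) = a := fun x => by
    refine unique_vec i j hij (B.map π) hF _ _ (by rw [hui, map_one, hai]) (by rw [huj, map_zero, haj]) ?_ ?_
    · intro k h1 h2
      rw [← hmap x, ← hmv, hu3 x k h1 h2, map_zero]
    · intro k _ _
      rw [ha]; rfl
  have hvb : ∀ x : 𝔪, (fun k => π (v x k)) = b := fun x => by
    refine unique_vec i j hij (B.map π) hF _ _ (by rw [hvi, map_zero, hbi]) (by rw [hvj, map_one, hbj]) ?_ ?_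
    · intro k h1 h2
      rw [← hmap x, ← hmv, hv3 x k h1 h2, map_zero]
    · intro k _ _
      rw [hb]; rfl
  -- the function `c`
  have hc0 : ∀ x : 𝔪, π (((B + x.1 • D) *ᵥ v x) i) = 0 := fun x => by
    rw [hmv, hmap x, hvb x, hb]; rfl
  let c : 𝔪 → 𝔪 := fun x => ⟨((B + x.1 • D) *ᵥ v x) i, hc0 x⟩
  have hinj : Function.Injective c := by
    intro x y hxy
    have h1 : ((B + x.1 • D) *ᵥ v x) i = ((B + y.1 • D) *ᵥ v y) i := congrArg Subtype.val hxy
    have h2 := diff_value i j hij (halt x.1) (halt y.1) (u x) (u y) (v x) (v y) (hui y) (huj y) (hvi x) (hvj x)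
      (hvi y) (hvj y) (hv3 x) (hu3 y) (hv3 y)
    rw [h1, sub_self] at h2
    have h3 : (B + x.1 • D) - (B + y.1 • D) = (x.1 - y.1) • D := by
      rw [sub_smul]; abel
    rw [h3, smul_mulVec, dotProduct_smul, smul_eq_mul] at h2
    have h4 : IsUnit (u y ⬝ᵥ (D *ᵥ v x)) := by
      apply hπ
      have h5 : π (u y ⬝ᵥ (D *ᵥ v x)) = a ⬝ᵥ ((D.map π) *ᵥ b) := by
        rw [dotProduct, map_sum, dotProduct]
        refine Finset.sum_congr rfl fun k _ => ?_
        rw [map_mul, hmv, hvb x]
        congr 1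
        exact congrFun (hua y) k
      rw [h5]; exact hδ
    have h6 : x.1 - y.1 = 0 := (h4.mul_left_eq_zero).1 h2.symm
    exact Subtype.ext (sub_eq_zero.1 h6)
  have hsurj : Function.Surjective c := Finite.surjective_of_injective hinj
  obtain ⟨x, hx⟩ := hsurj ⟨0, map_zero π⟩
  have hx' : ((B + x.1 • D) *ᵥ v x) i = 0 := congrArg Subtype.val hx
  refine ⟨x.1, u x, v x, hui x, huj x, hvi x, hvj x, ?_, ?_⟩
  · funext k
    by_cases hk : k ≠ i ∧ k ≠ j
    · exact hu3 x k hk.1 hk.2
    · by_cases hki : k = i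
      · subst hki
        exact ui_zero k j hij (halt x.1) (u x) (hui x) (huj x) (hu3 x)
      · have hkj : k = j := by tauto
        subst hkj
        -- `(M u)_j = - (M v)_i`
        have e1 := alt_dot' (halt x.1) (u x) (v x)
        rw [dot_split i k hij (u x) _ (hv3 x), dot_split i k hij (v x) _ (hu3 x), hui, huj, hvi, hvj, hx'] at e1
        simp only [mul_zero, zero_mul, add_zero, zero_add, one_mul] at e1
        rw [Pi.zero_apply]
        exact neg_eq_zero.1 e1.symm
  · funext k
    by_cases hk : k ≠ i ∧ k ≠ j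
    · exact hv3 x k hk.1 hk.2
    · by_cases hki : k = i
      · subst hki
        exact hx'
      · have hkj : k = j := by tauto
        subst hkj
        exact vj_zero i k hij (halt x.1) (v x) (hvi x) (hvj x) (hv3 x)

end

section

variable {I : Type*} [Fintype I] [DecidableEq I] {R : Type*} [CommRing R] (i j : I)

/-- a vector orthogonal to `u` and `v` with prescribed other coordinates -/
def extv (u v : I → R) (e : Oth i j → R) : I → R := fun l =>
  if h : l ≠ i ∧ l ≠ j then e ⟨l, h⟩ else if l = i then - ∑ m : Oth i j, u m * e m else - ∑ m : Oth i j, v m * e m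

theorem extv_oth (u v : I → R) (e : Oth i j → R) (l : Oth i j) : extv i j u v e l = e l := by
  rw [extv, dif_pos l.2]

theorem extv_u (hij : i ≠ j) (u v : I → R) (hui : u i = 1) (huj : u j = 0) (e : Oth i j → R) :
    u ⬝ᵥ extv i j u v e = 0 := by
  rw [dotProduct, sum_split i j hij, hui, huj, one_mul, zero_mul, add_zero]
  have h1 : extv i j u v e i = - ∑ m : Oth i j, u m * e m := by
    rw [extv, dif_neg (by tauto), if_pos rfl]
  rw [h1]
  simp only [extv_oth]
  exact neg_add_cancel _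

theorem extv_v (hij : i ≠ j) (u v : I → R) (hvi : v i = 0) (hvj : v j = 1) (e : Oth i j → R) :
    v ⬝ᵥ extv i j u v e = 0 := by
  rw [dotProduct, sum_split i j hij, hvi, hvj, one_mul, zero_mul, zero_add]
  have h1 : extv i j u v e j = - ∑ m : Oth i j, v m * e m := by
    rw [extv, dif_neg (by tauto), if_neg (Ne.symm hij)]
  rw [h1]
  simp only [extv_oth]
  exact neg_add_cancel _

theorem alt_eq_zero (hij : i ≠ j) (E : Matrix I I R) (hE : Alt E) (u v : I → R) (hui : u i = 1) (huj : u j = 0)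
    (hvi : v i = 0) (hvj : v j = 1) (hu : E *ᵥ u = 0) (hv : E *ᵥ v = 0)
    (hs : ∀ k l : Oth i j, E k l = 0) : E = 0 := by
  have h1 : ∀ k : Oth i j, E k i = 0 := by
    intro k
    have := congrFun hu k
    rw [mulVec, dotProduct, sum_split i j hij, hui, huj, mul_one, mul_zero, add_zero] at this
    have h0 : ∑ l : Oth i j, E k l * u l = 0 := Finset.sum_eq_zero fun l _ => by rw [hs k l, zero_mul]
    rw [h0, add_zero] at this
    exact this
  have h2 : ∀ k : Oth i j, E k j = 0 := by
    intro k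
    have := congrFun hv k
    rw [mulVec, dotProduct, sum_split i j hij, hvi, hvj, mul_one, mul_zero, zero_add] at this
    have h0 : ∑ l : Oth i j, E k l * v l = 0 := Finset.sum_eq_zero fun l _ => by rw [hs k l, zero_mul]
    rw [h0, add_zero] at this
    exact this
  have h3 : E i j = 0 := by
    have := congrFun hv i
    rw [mulVec, dotProduct, sum_split i j hij, hvi, hvj, mul_one, mul_zero, zero_add] at this
    have h0 : ∑ l : Oth i j, E i l * v l = 0 := Finset.sum_eq_zero fun l _ => by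
      rw [hE.2 i l, h1 l, neg_zero, zero_mul]
    rw [h0, add_zero] at this
    exact this
  ext k l
  rw [Matrix.zero_apply]
  by_cases hk : k ≠ i ∧ k ≠ j
  · by_cases hl : l ≠ i ∧ l ≠ j
    · exact hs ⟨k, hk⟩ ⟨l, hl⟩
    · by_cases hli : l = i
      · rw [hli]; exact h1 ⟨k, hk⟩
      · have : l = j := by tauto
        rw [this]; exact h2 ⟨k, hk⟩
  · by_cases hki : k = i
    · subst hki
      by_cases hl : l ≠ k ∧ l ≠ j
      · rw [hE.2, h1 ⟨l, hl⟩, neg_zero]
      · by_cases hli : l = k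
        · rw [hli]; exact hE.1 k
        · have : l = j := by tauto
          rw [this]; exact h3
    · have : k = j := by tauto
      subst this
      by_cases hl : l ≠ i ∧ l ≠ k
      · rw [hE.2, h2 ⟨l, hl⟩, neg_zero]
      · by_cases hli : l = i
        · rw [hli, hE.2, h3, neg_zero]
        · have : l = k := by tauto
          rw [this]; exact hE.1 k

theorem wdg_mulVec (e f x : I → R) : wdg e f *ᵥ x = (f ⬝ᵥ x) • e - (e ⬝ᵥ x) • f := by
  funext u
  simp only [mulVec, dotProduct, wdg, Matrix.of_apply, Pi.sub_apply, Pi.smul_apply, smul_eq_mul, Finset.sum_mul,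
    ← Finset.sum_sub_distrib]
  exact Finset.sum_congr rfl fun w _ => by ring

/-- decompositions extend from the other indices -/
theorem decomp_ext (hij : i ≠ j) (M : Matrix I I R) (hM : Alt M) (u v : I → R) (hui : u i = 1) (huj : u j = 0)
    (hvi : v i = 0) (hvj : v j = 1) (hu : M *ᵥ u = 0) (hv : M *ᵥ v = 0) (r : ℕ) (e f : Fin r → Oth i j → R)
    (h : subm i j M = ∑ k, wdg (e k) (f k)) :
    M = ∑ k, wdg (extv i j u v (e k)) (extv i j u v (f k)) := by
  rw [← sub_eq_zero]
  have hA : Alt (∑ k, wdg (extv i j u v (e k)) (extv i j u v (f k))) := by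
    constructor
    · intro a
      rw [Matrix.sum_apply]
      exact Finset.sum_eq_zero fun k _ => (alt_wdg _ _).1 a
    · intro a b
      rw [Matrix.sum_apply, Matrix.sum_apply, ← Finset.sum_neg_distrib]
      exact Finset.sum_congr rfl fun k _ => (alt_wdg _ _).2 a b
  refine alt_eq_zero i j hij _ (hM.sub' hA) u v hui huj hvi hvj ?_ ?_ ?_
  · rw [sub_mulVec, hu, zero_sub, neg_eq_zero, Matrix.sum_mulVec]
    refine Finset.sum_eq_zero fun k _ => ?_
    rw [wdg_mulVec, dotProduct_comm _ u, dotProduct_comm _ u, extv_u i j hij u v hui huj,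
      extv_u i j hij u v hui huj, zero_smul, zero_smul, sub_zero]
  · rw [sub_mulVec, hv, zero_sub, neg_eq_zero, Matrix.sum_mulVec]
    refine Finset.sum_eq_zero fun k _ => ?_
    rw [wdg_mulVec, dotProduct_comm _ v, dotProduct_comm _ v, extv_v i j hij u v hvi hvj,
      extv_v i j hij u v hvi hvj, zero_smul, zero_smul, sub_zero]
  · intro k l
    have h1 : M k l = (∑ k, wdg (e k) (f k)) k l := congrFun (congrFun h k) l
    rw [Matrix.sum_apply] at h1
    rw [Matrix.sub_apply, h1, Matrix.sum_apply, sub_eq_zero]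
    refine Finset.sum_congr rfl fun m _ => ?_
    simp only [wdg, Matrix.of_apply, extv_oth]

end

theorem card_oth {I : Type*} [Fintype I] [DecidableEq I] (i j : I) (hij : i ≠ j) :
    Fintype.card (Oth i j) + 2 = Fintype.card I := by
  have h := sum_split (R := ℕ) i j hij (fun _ => 1)
  simp only [Finset.sum_const, smul_eq_mul, mul_one, Finset.card_univ] at h
  omega

/-- **Lifting a nondegenerate simple root modulo `p` to a decomposition modulo `p ^ s`.** -/
theorem lift_decomp {I : Type*} [Fintype I] [DecidableEq I] (p s : ℕ) [hp : Fact p.Prime] (hs : 0 < s) (g : ℕ)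
    (hI : Fintype.card I = 2 * g) (Mt Dt : Matrix I I ℤ) (hMt : Alt Mt) (hDt : Alt Dt) (a b : I → ZMod p)
    (i j : I) (hab : a i * b j - a j * b i ≠ 0)
    (ha : Mt.map (Int.castRingHom (ZMod p)) *ᵥ a = 0) (hb : Mt.map (Int.castRingHom (ZMod p)) *ᵥ b = 0)
    (hker : ∀ c, Mt.map (Int.castRingHom (ZMod p)) *ᵥ c = 0 → ∃ y z : ZMod p, c = y • a + z • b)
    (hδ : a ⬝ᵥ (Dt.map (Int.castRingHom (ZMod p)) *ᵥ b) ≠ 0) :
    ∃ (x : ℤ) (e f : Fin (g - 1) → I → ℤ), ∀ u v,
      ((p ^ s : ℕ) : ℤ) ∣ (Mt + x • Dt) u v - (∑ k, wdg (e k) (f k)) u v := by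
  classical
  haveI : NeZero p := ⟨hp.out.ne_zero⟩
  haveI : NeZero (p ^ s) := ⟨(pow_pos hp.out.pos s).ne'⟩
  haveI : Finite (ZMod (p ^ s)) := inferInstance
  have hij : i ≠ j := by
    rintro rfl
    apply hab
    ring
  set Mp := Mt.map (Int.castRingHom (ZMod p)) with hMp
  set Dp := Dt.map (Int.castRingHom (ZMod p)) with hDp
  have hMpA : Alt Mp := ⟨fun u => by rw [hMp, Matrix.map_apply, hMt.1, map_zero], fun u v => by
    rw [hMp, Matrix.map_apply, Matrix.map_apply, hMt.2 u v, map_neg]⟩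
  have hDpA : Alt Dp := ⟨fun u => by rw [hDp, Matrix.map_apply, hDt.1, map_zero], fun u v => by
    rw [hDp, Matrix.map_apply, Matrix.map_apply, hDt.2 u v, map_neg]⟩
  set δ := a i * b j - a j * b i with hδ0
  let a' : I → ZMod p := (b j / δ) • a - (a j / δ) • b
  let b' : I → ZMod p := (a i / δ) • b - (b i / δ) • a
  have ha' : Mp *ᵥ a' = 0 := by
    simp only [a']
    rw [mulVec_sub, mulVec_smul, mulVec_smul, ha, hb, smul_zero, smul_zero, sub_zero]
  have hb' : Mp *ᵥ b' = 0 := by
    simp only [b']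
    rw [mulVec_sub, mulVec_smul, mulVec_smul, ha, hb, smul_zero, smul_zero, sub_zero]
  have hai : a' i = 1 := by
    simp only [a', Pi.sub_apply, Pi.smul_apply, smul_eq_mul]
    field_simp
    rw [hδ0]; ring
  have haj : a' j = 0 := by
    simp only [a', Pi.sub_apply, Pi.smul_apply, smul_eq_mul]
    field_simp
    ring
  have hbi : b' i = 0 := by
    simp only [b', Pi.sub_apply, Pi.smul_apply, smul_eq_mul]
    field_simp
    ring
  have hbj : b' j = 1 := by
    simp only [b', Pi.sub_apply, Pi.smul_apply, smul_eq_mul]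
    field_simp
    rw [hδ0]; ring
  have hF : (subm i j Mp).det ≠ 0 := by
    intro h0
    obtain ⟨w, hw0, hw⟩ := Matrix.exists_mulVec_eq_zero_iff.2 h0
    let W : I → ZMod p := fun l => if h : l ≠ i ∧ l ≠ j then w ⟨l, h⟩ else 0
    have hWi : W i = 0 := by simp [W]
    have hWj : W j = 0 := by simp [W]
    have hWo : ∀ l : Oth i j, W l = w l := fun l => by simp only [W]; rw [dif_pos l.2]
    have hW1 : ∀ k, k ≠ i → k ≠ j → (Mp *ᵥ W) k = 0 := by
      intro k hki hkj
      rw [mulVec, dotProduct, sum_split i j hij, hWi, hWj, mul_zero, mul_zero, add_zero, zero_add]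
      simp only [hWo]
      exact congrFun hw ⟨k, hki, hkj⟩
    have hW2 : (Mp *ᵥ W) i = 0 := by
      have e1 := dot_split i j hij a' (Mp *ᵥ W) hW1
      rw [alt_dot' hMpA, ha', dotProduct_zero, neg_zero, hai, haj, zero_mul, add_zero, one_mul] at e1
      exact e1.symm
    have hW3 : (Mp *ᵥ W) j = 0 := by
      have e1 := dot_split i j hij b' (Mp *ᵥ W) hW1
      rw [alt_dot' hMpA, hb', dotProduct_zero, neg_zero, hbi, hbj, zero_mul, zero_add, one_mul] at e1
      exact e1.symm
    have hW : Mp *ᵥ W = 0 := by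
      funext k
      by_cases hk : k ≠ i ∧ k ≠ j
      · exact hW1 k hk.1 hk.2
      · by_cases hki : k = i
        · rw [hki]; exact hW2
        · have : k = j := by tauto
          rw [this]; exact hW3
    obtain ⟨y, z, hyz⟩ := hker W hW
    have e1 := congrFun hyz i
    have e2 := congrFun hyz j
    rw [hWi] at e1
    rw [hWj] at e2
    simp only [Pi.add_apply, Pi.smul_apply, smul_eq_mul] at e1 e2
    have hy : y = 0 := by
      have : y * δ = 0 := by rw [hδ0]; linear_combination b i * e2 - b j * e1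
      exact (mul_eq_zero.1 this).resolve_right hab
    have hz : z = 0 := by
      have : z * δ = 0 := by rw [hδ0]; linear_combination a j * e1 - a i * e2
      exact (mul_eq_zero.1 this).resolve_right hab
    subst hy hz
    apply hw0
    funext l
    rw [← hWo l, hyz]
    simp
  have hδ' : a' ⬝ᵥ (Dp *ᵥ b') ≠ 0 := by
    have e1 : a' ⬝ᵥ (Dp *ᵥ b') = (a ⬝ᵥ (Dp *ᵥ b)) / δ := by
      simp only [a', b']
      rw [mulVec_sub, mulVec_smul, mulVec_smul, sub_dotProduct, dotProduct_sub, dotProduct_sub, smul_dotProduct,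
        smul_dotProduct, smul_dotProduct, smul_dotProduct, dotProduct_smul, dotProduct_smul, dotProduct_smul,
        dotProduct_smul, alt_dot_self' hDpA a, alt_dot_self' hDpA b, alt_dot' hDpA b a]
      simp only [smul_eq_mul, mul_zero, sub_zero, zero_sub]
      field_simp
      rw [hδ0]; ring
    rw [e1]
    exact div_ne_zero hδ hab
  -- the local ring
  let R := ZMod (p ^ s)
  let π : R →+* ZMod p := ZMod.castHom (dvd_pow_self p hs.ne') (ZMod p)
  have hπ : ∀ r : R, π r ≠ 0 → IsUnit r := by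
    intro r hr
    obtain ⟨m, rfl⟩ : ∃ m : ℕ, (m : R) = r := ⟨r.val, ZMod.natCast_zmod_val r⟩
    rw [ZMod.isUnit_iff_coprime]
    refine Nat.Coprime.pow_right s ?_
    rw [Nat.coprime_comm, hp.out.coprime_iff_not_dvd]
    intro hd
    apply hr
    rw [map_natCast]
    exact (ZMod.natCast_eq_zero_iff m p).2 hd
  have hπc : ∀ m : ℤ, π ((m : ℤ) : R) = (m : ZMod p) := fun m => map_intCast π m
  have hmapM : (Mt.map (Int.castRingHom R)).map π = Mp := by
    ext u v
    simp only [Matrix.map_apply, hMp, eq_intCast]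
    exact hπc _
  have hmapD : (Dt.map (Int.castRingHom R)).map π = Dp := by
    ext u v
    simp only [Matrix.map_apply, hDp, eq_intCast]
    exact hπc _
  have hBA : Alt (Mt.map (Int.castRingHom R)) := ⟨fun u => by rw [Matrix.map_apply, hMt.1, map_zero], fun u v => by
    rw [Matrix.map_apply, Matrix.map_apply, hMt.2 u v, map_neg]⟩
  have hDA : Alt (Dt.map (Int.castRingHom R)) := ⟨fun u => by rw [Matrix.map_apply, hDt.1, map_zero], fun u v => by
    rw [Matrix.map_apply, Matrix.map_apply, hDt.2 u v, map_neg]⟩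
  obtain ⟨x, u, v, hui, huj, hvi, hvj, hu, hv⟩ := lift_root π hπ i j hij (Mt.map (Int.castRingHom R))
    (Dt.map (Int.castRingHom R)) hBA hDA (by rw [hmapM]; exact hF) a' b' (by rw [hmapM]; exact ha')
    (by rw [hmapM]; exact hb') hai haj hbi hbj (by rw [hmapD]; exact hδ')
  -- integral decomposition on the other indices
  set N : Matrix I I ℤ := Mt + ((x.val : ℕ) : ℤ) • Dt with hN
  have hNA : Alt N := ⟨fun u => by rw [hN, Matrix.add_apply, Matrix.smul_apply, hMt.1, hDt.1, smul_zero, add_zero],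
    fun u v => by
      rw [hN, Matrix.add_apply, Matrix.add_apply, Matrix.smul_apply, Matrix.smul_apply, hMt.2 u v, hDt.2 u v,
        smul_neg, neg_add]⟩
  have hNm : N.map (Int.castRingHom R) = Mt.map (Int.castRingHom R) + x • Dt.map (Int.castRingHom R) := by
    ext k l
    simp only [hN, Matrix.map_apply, Matrix.add_apply, Matrix.smul_apply, smul_eq_mul, map_add, map_mul, eq_intCast,
      Int.cast_natCast]
    rw [ZMod.natCast_zmod_val x]
  have hsA : Alt (subm i j N) := ⟨fun u => hNA.1 _, fun u v => hNA.2 _ _⟩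
  obtain ⟨e, f, hef⟩ := decomp (R := ℤ) (K := ℚ) (RingHom.injective_int (algebraMap ℤ ℚ)) (g - 1) (subm i j N) hsA (by
    have h1 := Matrix.rank_le_card_width ((subm i j N).map (algebraMap ℤ ℚ))
    have h2 := card_oth i j hij
    omega)
  have hmain := decomp_ext i j hij (Mt.map (Int.castRingHom R) + x • Dt.map (Int.castRingHom R))
    (by rw [← hNm]; exact ⟨fun u => by rw [Matrix.map_apply, hNA.1, map_zero], fun u v => by
      rw [Matrix.map_apply, Matrix.map_apply, hNA.2 u v, map_neg]⟩) u v hui huj hvi hvj hu hv (g - 1)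
    (fun k l => ((e k l : ℤ) : R)) (fun k l => ((f k l : ℤ) : R)) (by
      rw [← hNm]
      ext k l
      have h1 := congrFun (congrFun hef k) l
      rw [Matrix.sum_apply] at h1
      simp only [Matrix.submatrix_apply, Matrix.map_apply, Matrix.sum_apply] at h1 ⊢
      rw [h1, map_sum]
      refine Finset.sum_congr rfl fun m _ => ?_
      simp only [wdg, Matrix.of_apply, eq_intCast]
      push_cast
      ring)
  refine ⟨((x.val : ℕ) : ℤ), fun k l => (((extv i j u v fun l => ((e k l : ℤ) : R)) l).val : ℤ),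
    fun k l => (((extv i j u v fun l => ((f k l : ℤ) : R)) l).val : ℤ), fun k l => ?_⟩
  rw [← ZMod.intCast_zmod_eq_zero_iff_dvd, Int.cast_sub, sub_eq_zero]
  have h1 := congrFun (congrFun hmain k) l
  rw [← hNm] at h1
  rw [Matrix.map_apply, eq_intCast] at h1
  rw [← hN, h1, Matrix.sum_apply, Matrix.sum_apply, Int.cast_sum]
  refine Finset.sum_congr rfl fun m _ => ?_
  simp only [wdg, Matrix.of_apply]
  push_cast
  simp only [ZMod.natCast_zmod_val]

end Pool.Agent.Q128.PI
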