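import Mathlib
import Pool.Agent.H79.LU.Q128_PI_Count

/-! Second moments: more than half of all alternating matrices have a degenerate translate. -/

set_option autoImplicit false
set_option linter.all false

open Matrix

namespace Pool.Agent.Q128.PI

/-- the second moment method -/
theorem second_moment {Ω T : Type*} [Fintype Ω] (S : Finset T) (E : T → Ω → Prop) [∀ t w, Decidable (E t w)]
    [DecidablePred fun w => ∃ t ∈ S, E t w] (n A B : ℕ) (hn : 0 < n) (hS : 0 < S.card)
    (hA : ∀ t ∈ S, (Finset.univ.filter fun w => E t w).card * n = A)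
    (hB : ∀ t ∈ S, ∑ t' ∈ S, (Finset.univ.filter fun w => E t w ∧ E t' w).card * n ^ 2 ≤ B) :
    S.card * A ^ 2 ≤ (Finset.univ.filter fun w => ∃ t ∈ S, E t w).card * B := by
  classical
  set G := Finset.univ.filter fun w => ∃ t ∈ S, E t w with hG
  let W : Ω → ℕ := fun w => (S.filter fun t => E t w).card
  have h1 : ∑ w, W w = ∑ t ∈ S, (Finset.univ.filter fun w => E t w).card := by
    simp only [W, Finset.card_filter]
    exact Finset.sum_comm
  have h2 : ∑ w, W w ^ 2 = ∑ t ∈ S, ∑ t' ∈ S, (Finset.univ.filter fun w => E t w ∧ E t' w).card := by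
    have e1 : ∀ w, W w ^ 2 = ∑ t ∈ S, ∑ t' ∈ S, if E t w ∧ E t' w then 1 else 0 := by
      intro w
      simp only [W, Finset.card_filter, sq, Finset.sum_mul_sum]
      refine Finset.sum_congr rfl fun t _ => Finset.sum_congr rfl fun t' _ => ?_
      by_cases h : E t w <;> by_cases h' : E t' w <;> simp [h, h']
    simp only [e1, Finset.card_filter]
    rw [Finset.sum_comm]
    refine Finset.sum_congr rfl fun t _ => ?_
    exact Finset.sum_comm
  have h3 : ∑ w ∈ G, W w = ∑ w, W w := by
    refine Finset.sum_subset (Finset.subset_univ _) fun w _ hw => ?_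
    rw [hG, Finset.mem_filter, not_and] at hw
    have := hw (Finset.mem_univ _)
    push Not at this
    exact Finset.card_eq_zero.2 (Finset.filter_eq_empty_iff.2 fun t ht => this t ht)
  have h4 : (∑ w ∈ G, W w) ^ 2 ≤ G.card * ∑ w ∈ G, W w ^ 2 := by
    have := sq_sum_le_card_mul_sum_sq (s := G) (f := fun w => W w)
    exact this
  have h5 : ∑ w ∈ G, W w ^ 2 ≤ ∑ w, W w ^ 2 :=
    Finset.sum_le_sum_of_subset (Finset.subset_univ _)
  have h6 : (∑ w, W w) * n = S.card * A := by
    rw [h1, Finset.sum_mul, Finset.sum_congr rfl hA, Finset.sum_const, smul_eq_mul]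
  have h7 : (∑ w, W w ^ 2) * n ^ 2 ≤ S.card * B := by
    rw [h2, Finset.sum_mul]
    calc ∑ t ∈ S, (∑ t' ∈ S, (Finset.univ.filter fun w => E t w ∧ E t' w).card) * n ^ 2
        ≤ ∑ t ∈ S, B := Finset.sum_le_sum fun t ht => by rw [Finset.sum_mul]; exact hB t ht
      _ = _ := by rw [Finset.sum_const, smul_eq_mul]
  have h8 : (S.card * A) ^ 2 ≤ G.card * (S.card * B) := by
    calc (S.card * A) ^ 2 = (∑ w ∈ G, W w) ^ 2 * n ^ 2 := by rw [h3, ← h6]; ring
      _ ≤ (G.card * ∑ w ∈ G, W w ^ 2) * n ^ 2 := Nat.mul_le_mul_right _ h4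
      _ ≤ (G.card * ∑ w, W w ^ 2) * n ^ 2 := Nat.mul_le_mul_right _ (Nat.mul_le_mul_left _ h5)
      _ = G.card * ((∑ w, W w ^ 2) * n ^ 2) := by ring
      _ ≤ _ := Nat.mul_le_mul_left _ h7
  have h9 : S.card * (S.card * A ^ 2) ≤ S.card * (G.card * B) := by
    calc S.card * (S.card * A ^ 2) = (S.card * A) ^ 2 := by ring
      _ ≤ _ := h8
      _ = _ := by ring
  exact Nat.le_of_mul_le_mul_left h9 hS

variable {F : Type*} [Field F] [Fintype F] [DecidableEq F] {I : Type*} [Fintype I] [DecidableEq I]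

/-- `b` is not a multiple of `a` -/
def Indep (a b : I → F) : Prop := ∃ i j, a i * b j - a j * b i ≠ 0

instance (a b : I → F) : Decidable (Indep a b) := by unfold Indep; infer_instance

/-- the event that `a` lies in the kernel of the translate by `D` -/
abbrev Ev (D : Matrix I I F) (a : I → F) (w : Matrix I I F) : Prop := (al w + D) *ᵥ a = 0

omit [Fintype F] [DecidableEq F] [DecidableEq I] in
theorem ev_iff (D : Matrix I I F) (a : I → F) (w : Matrix I I F) : Ev D a w ↔ al w *ᵥ a = - (D *ᵥ a) := by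
  rw [Ev, add_mulVec]
  exact ⟨eq_neg_of_add_eq_zero_left, fun h => by rw [h, neg_add_cancel]⟩

/-- alternating: the values `a ⬝ D a` vanish -/
def AltM (D : Matrix I I F) : Prop := (∀ u, D u u = 0) ∧ ∀ u v, D u v = - D v u

omit [Fintype F] [DecidableEq F] [DecidableEq I] in
theorem AltM.dot {D : Matrix I I F} (h : AltM D) (x y : I → F) : x ⬝ᵥ (D *ᵥ y) = - (y ⬝ᵥ (D *ᵥ x)) := by
  simp only [dotProduct, mulVec, Finset.mul_sum]
  rw [Finset.sum_comm, ← Finset.sum_neg_distrib]
  refine Finset.sum_congr rfl fun u _ => ?_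
  rw [← Finset.sum_neg_distrib]
  refine Finset.sum_congr rfl fun v _ => ?_
  rw [h.2 v u]; ring

omit [Fintype F] [DecidableEq F] [DecidableEq I] in
theorem AltM.dot_self {D : Matrix I I F} (h : AltM D) (x : I → F) : x ⬝ᵥ (D *ᵥ x) = 0 := by
  simp only [dotProduct, mulVec, Finset.mul_sum]
  rw [← Finset.sum_product']
  refine Finset.sum_involution (fun q _ => (q.2, q.1)) ?_ ?_ ?_ ?_
  · rintro ⟨i, j⟩ _
    simp only
    rw [h.2 j i]
    ring
  · rintro ⟨i, j⟩ _ h1 h2
    simp only [Prod.mk.injEq] at h2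
    apply h1
    simp only
    rw [h2.1, h.1, zero_mul, mul_zero]
  · intro a _; simp
  · intro a _; rfl

/-- **first moment** -/
theorem card_ev {D : Matrix I I F} (hD : AltM D) (a : I → F) (ha : a ≠ 0) :
    (Finset.univ.filter fun w : Matrix I I F => Ev D a w).card * Fintype.card (I → F) =
      Fintype.card F * Fintype.card (Matrix I I F) := by
  rw [← fib1 a ha (-(D *ᵥ a)) (by rw [dotProduct_neg, hD.dot_self, neg_zero])]
  simp only [ev_iff]

/-- pairs, independent vectors -/
theorem card_ev2 (D D' : Matrix I I F) (a b : I → F) (hab : Indep a b) :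
    (Finset.univ.filter fun w : Matrix I I F => Ev D a w ∧ Ev D' b w).card * Fintype.card (I → F) ^ 2 ≤
      Fintype.card F ^ 3 * Fintype.card (Matrix I I F) := by
  obtain ⟨i, j, hij⟩ := hab
  have h := fib2 a b i j hij (-(D *ᵥ a)) (-(D' *ᵥ b))
  simp only [← ev_iff] at h
  exact h

/-- pairs: incompatible values -/
theorem card_ev2_zero (D D' : Matrix I I F) (hD : AltM D) (a b : I → F) (hab : a ⬝ᵥ ((D' - D) *ᵥ b) ≠ 0) :
    (Finset.univ.filter fun w : Matrix I I F => Ev D a w ∧ Ev D' b w).card = 0 := by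
  rw [Finset.card_eq_zero, Finset.filter_eq_empty_iff]
  rintro w _ ⟨h1, h2⟩
  rw [ev_iff] at h1 h2
  apply hab
  have h3 := al_dot w a b
  rw [h1, h2, dotProduct_neg, dotProduct_neg, neg_neg] at h3
  rw [sub_mulVec, dotProduct_sub, hD.dot a b]
  linear_combination -h3

/-- pairs: the same translate and vector direction -/
theorem card_ev2_dep (D D' : Matrix I I F) (hD : AltM D) (a b : I → F) (ha : a ≠ 0) :
    (Finset.univ.filter fun w : Matrix I I F => Ev D a w ∧ Ev D' b w).card * Fintype.card (I → F) ^ 2 ≤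
      Fintype.card F * Fintype.card (I → F) * Fintype.card (Matrix I I F) := by
  have h := card_ev hD a ha
  have h1 : (Finset.univ.filter fun w : Matrix I I F => Ev D a w ∧ Ev D' b w).card ≤
      (Finset.univ.filter fun w : Matrix I I F => Ev D a w).card :=
    Finset.card_le_card fun w hw => by
      rw [Finset.mem_filter] at hw ⊢
      exact ⟨hw.1, hw.2.1⟩
  calc _ ≤ (Finset.univ.filter fun w : Matrix I I F => Ev D a w).card * Fintype.card (I → F) ^ 2 :=
        Nat.mul_le_mul_right _ h1
    _ = ((Finset.univ.filter fun w : Matrix I I F => Ev D a w).card * Fintype.card (I → F)) * Fintype.card (I → F) := by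
        ring
    _ = _ := by rw [h]; ring

omit [Fintype F] [DecidableEq F] [DecidableEq I] in
theorem AltM.smul {D : Matrix I I F} (hD : AltM D) (x : F) : AltM (x • D) :=
  ⟨fun u => by rw [Matrix.smul_apply, hD.1, smul_zero], fun u v => by
    rw [Matrix.smul_apply, Matrix.smul_apply, hD.2 u v, smul_neg]⟩

/-- vectors proportional to `a` -/
theorem card_dep_le (a : I → F) (ha : a ≠ 0) (P : (I → F) → Prop) [DecidablePred P] (hP : ¬ P 0) :
    (Finset.univ.filter fun b : I → F => P b ∧ ¬ Indep a b).card ≤ Fintype.card F - 1 := by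
  have h1 : (Finset.univ.filter fun b : I → F => P b ∧ ¬ Indep a b) ⊆
      ((Finset.univ : Finset F).erase 0).image fun t => t • a := by
    intro b hb
    rw [Finset.mem_filter] at hb
    obtain ⟨_, hb1, hb2⟩ := hb
    rw [Indep] at hb2
    push Not at hb2
    obtain ⟨t, rfl⟩ := dep_of a b ha hb2
    rw [Finset.mem_image]
    refine ⟨t, ?_, rfl⟩
    rw [Finset.mem_erase]
    refine ⟨?_, Finset.mem_univ _⟩
    rintro rfl
    rw [zero_smul] at hb1
    exact hP hb1
  refine (Finset.card_le_card h1).trans (Finset.card_image_le.trans ?_)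
  rw [Finset.card_erase_of_mem (Finset.mem_univ _), Finset.card_univ]

theorem arith1 (q h κ N1 n : ℕ) (hq : 2 ≤ q) (hκ : κ ≤ h) (hh0 : 0 < h) (f1 : h * q = n) (hκN : κ + N1 = n)
    (g3 : 2 * q ^ 3 * N1 ≤ q ^ 3 * N1 + q * n * (q - 1) + (q - 1) * (q ^ 3 * (h - κ))) : False := by
  obtain ⟨q', rfl⟩ : ∃ q', q = q' + 2 := ⟨q - 2, by omega⟩
  obtain ⟨d, rfl⟩ : ∃ d, h = κ + d := ⟨h - κ, by omega⟩
  subst f1
  have g4 : q' + 2 - 1 = q' + 1 := by omega
  have g5 : κ + d - κ = d := by omega
  rw [g4, g5] at g3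
  have g7 : (N1 : ℤ) = (κ + d) * (q' + 2) - κ := by
    have := congrArg (Nat.cast (R := ℤ)) hκN
    push_cast at this
    linarith
  have g8 : (2 * ((q' : ℤ) + 2) ^ 3 * N1) ≤ ((q' : ℤ) + 2) ^ 3 * N1 + (q' + 2) * ((κ + d) * (q' + 2)) * (q' + 1) +
      (q' + 1) * ((q' + 2) ^ 3 * d) := by exact_mod_cast g3
  rw [g7] at g8
  have hκ0 : (0 : ℤ) ≤ κ := Int.natCast_nonneg _
  have hd0 : (0 : ℤ) ≤ d := Int.natCast_nonneg _
  have hq0 : (0 : ℤ) ≤ q' := Int.natCast_nonneg _
  have hkd : (0 : ℤ) < κ + d := by exact_mod_cast hh0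
  have g9 : 0 < ((q' : ℤ) + 2) ^ 2 * (κ + d) := by positivity
  have g10 : 0 ≤ ((q' : ℤ) + 2) ^ 3 * κ * q' := by positivity
  nlinarith [g8, g9, g10]

/-- **More than half.** -/
theorem half (D : Matrix I I F) (hD : AltM D) (hD0 : D ≠ 0) :
    Fintype.card (Matrix I I F) < 2 * (Finset.univ.filter fun w : Matrix I I F => ∃ x : F, (al w + x • D).det = 0).card := by
  classical
  set q := Fintype.card F with hq
  set n := Fintype.card (I → F) with hn
  set M := Fintype.card (Matrix I I F) with hM
  have hq2 : 2 ≤ q := Fintype.one_lt_card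
  have hn0 : 0 < n := Fintype.card_pos
  have hM0 : 0 < M := Fintype.card_pos
  set κ := (Finset.univ.filter fun a : I → F => D *ᵥ a = 0).card with hκ
  set N1 := (Finset.univ.filter fun a : I → F => D *ᵥ a ≠ 0).card with hN1
  have hκN : κ + N1 = n := by
    rw [hκ, hN1, hn, ← Finset.card_univ]
    exact Finset.card_filter_add_card_filter_not (s := (Finset.univ : Finset (I → F))) (fun a => D *ᵥ a = 0)
  have hN1p : 0 < N1 := by
    obtain ⟨v, hv⟩ : ∃ v, D *ᵥ Pi.single v 1 ≠ 0 := by
      by_contra hc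
      push Not at hc
      apply hD0
      ext u v
      have := congrFun (hc v) u
      rw [mulVec_single_one] at this
      exact this
    rw [hN1, Finset.card_pos]
    exact ⟨_, Finset.mem_filter.2 ⟨Finset.mem_univ _, hv⟩⟩
  let S : Finset (F × (I → F)) := Finset.univ.filter fun t => D *ᵥ t.2 ≠ 0
  have hS : S.card = q * N1 := by
    have : S = (Finset.univ : Finset F) ×ˢ (Finset.univ.filter fun a : I → F => D *ᵥ a ≠ 0) := by
      ext t
      simp only [S, Finset.mem_filter, Finset.mem_univ, true_and, Finset.mem_product]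
    rw [this, Finset.card_product, Finset.card_univ]
  have key := second_moment (Ω := Matrix I I F) S (fun t w => Ev (t.1 • D) t.2 w) n (q * M)
    (q ^ 3 * M * N1 + q * n * M * (q - 1) + (q - 1) * (q ^ 3 * M * (n / q - κ))) hn0
    (by rw [hS]; exact Nat.mul_pos (by omega) hN1p) ?_ ?_
  · set G' := (Finset.univ.filter fun w : Matrix I I F => ∃ t ∈ S, Ev (t.1 • D) t.2 w).card with hG'
    set G := (Finset.univ.filter fun w : Matrix I I F => ∃ x : F, (al w + x • D).det = 0).card with hG
    have hGG : G' ≤ G := by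
      refine Finset.card_le_card fun w hw => ?_
      rw [Finset.mem_filter] at hw ⊢
      obtain ⟨_, ⟨x, a⟩, ht, hw⟩ := hw
      simp only [S, Finset.mem_filter, Finset.mem_univ, true_and] at ht
      refine ⟨Finset.mem_univ _, x, Matrix.exists_mulVec_eq_zero_iff.1 ⟨a, ?_, hw⟩⟩
      rintro rfl
      exact ht (mulVec_zero _)
    -- arithmetic
    obtain ⟨a, ha⟩ : ∃ a : I → F, D *ᵥ a ≠ 0 := by
      obtain ⟨a, ha⟩ := Finset.card_pos.1 hN1p
      exact ⟨a, (Finset.mem_filter.1 ha).2⟩
    have f1 := card_hyp (D *ᵥ a) ha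
    set h := (Finset.univ.filter fun y : I → F => (D *ᵥ a) ⬝ᵥ y = 0).card with hh
    have hdiv : n / q = h := Nat.div_eq_of_eq_mul_left (by omega) f1.symm
    have hκh : κ ≤ h := by
      refine Finset.card_le_card fun b hb => ?_
      rw [Finset.mem_filter] at hb ⊢
      refine ⟨hb.1, ?_⟩
      rw [dotProduct_comm, hD.dot b a, hb.2, dotProduct_zero, neg_zero]
    have hh0 : 0 < h := by
      rcases Nat.eq_zero_or_pos h with h0 | h0
      · rw [h0, zero_mul] at f1; omega
      · exact h0
    rw [hS, hdiv] at key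
    by_contra hcon
    push Not at hcon
    have h2G : 2 * G' ≤ M := by omega
    have g1 : q * N1 * (q * M) ^ 2 * 2 ≤ M * (q ^ 3 * M * N1 + q * n * M * (q - 1) + (q - 1) * (q ^ 3 * M * (h - κ))) := by
      calc q * N1 * (q * M) ^ 2 * 2 ≤ (G' * (q ^ 3 * M * N1 + q * n * M * (q - 1) + (q - 1) * (q ^ 3 * M * (h - κ)))) * 2 :=
            Nat.mul_le_mul_right _ key
        _ = (2 * G') * (q ^ 3 * M * N1 + q * n * M * (q - 1) + (q - 1) * (q ^ 3 * M * (h - κ))) := by ring
        _ ≤ _ := Nat.mul_le_mul_right _ h2G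
    have g2 : (M * M) * (2 * q ^ 3 * N1) ≤ (M * M) * (q ^ 3 * N1 + q * n * (q - 1) + (q - 1) * (q ^ 3 * (h - κ))) := by
      calc (M * M) * (2 * q ^ 3 * N1) = q * N1 * (q * M) ^ 2 * 2 := by ring
        _ ≤ _ := g1
        _ = _ := by ring
    have g3 := Nat.le_of_mul_le_mul_left g2 (Nat.mul_pos hM0 hM0)
    exact arith1 q h κ N1 n hq2 hκh hh0 f1 hκN g3
  · rintro ⟨x, a⟩ ht
    simp only [S, Finset.mem_filter, Finset.mem_univ, true_and] at ht
    exact card_ev (hD.smul x) a (by rintro rfl; exact ht (mulVec_zero _))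
  · rintro ⟨x, a⟩ ht
    simp only [S, Finset.mem_filter, Finset.mem_univ, true_and] at ht
    have ha : a ≠ 0 := by rintro rfl; exact ht (mulVec_zero _)
    have e1 : ∑ t' ∈ S, (Finset.univ.filter fun w => Ev (x • D) a w ∧ Ev (t'.1 • D) t'.2 w).card * n ^ 2 =
        ∑ x' : F, ∑ b ∈ Finset.univ.filter fun b : I → F => D *ᵥ b ≠ 0,
          (Finset.univ.filter fun w => Ev (x • D) a w ∧ Ev (x' • D) b w).card * n ^ 2 := by
      have : S = (Finset.univ : Finset F) ×ˢ (Finset.univ.filter fun a : I → F => D *ᵥ a ≠ 0) := by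
        ext t
        simp only [S, Finset.mem_filter, Finset.mem_univ, true_and, Finset.mem_product]
      rw [this, Finset.sum_product]
    change ∑ t' ∈ S, (Finset.univ.filter fun w => Ev (x • D) a w ∧ Ev (t'.1 • D) t'.2 w).card * n ^ 2 ≤ _
    rw [e1, ← Finset.add_sum_erase _ _ (Finset.mem_univ x)]
    refine Nat.add_le_add ?_ ?_
    · -- the same translate
      rw [← Finset.sum_filter_add_sum_filter_not _ (fun b => Indep a b)]
      refine Nat.add_le_add ?_ ?_
      · calc _ ≤ ∑ b ∈ (Finset.univ.filter fun b : I → F => D *ᵥ b ≠ 0).filter (fun b => Indep a b), q ^ 3 * M :=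
              Finset.sum_le_sum fun b hb => card_ev2 _ _ a b (Finset.mem_filter.1 hb).2
          _ ≤ q ^ 3 * M * N1 := by
              rw [Finset.sum_const, smul_eq_mul, mul_comm]
              exact Nat.mul_le_mul_left _ (Finset.card_le_card (Finset.filter_subset _ _))
      · calc _ ≤ ∑ b ∈ (Finset.univ.filter fun b : I → F => D *ᵥ b ≠ 0).filter (fun b => ¬ Indep a b), q * n * M :=
              Finset.sum_le_sum fun b hb => card_ev2_dep _ _ (hD.smul x) a b ha
          _ ≤ q * n * M * (q - 1) := by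
              rw [Finset.sum_const, smul_eq_mul, mul_comm, Finset.filter_filter]
              exact Nat.mul_le_mul_left _ (card_dep_le a ha (fun b => D *ᵥ b ≠ 0) (by simp))
    · -- other translates
      have e2 : ((Finset.univ : Finset F).erase x).card = q - 1 := by
        rw [Finset.card_erase_of_mem (Finset.mem_univ _), Finset.card_univ]
      rw [← e2, ← smul_eq_mul]
      refine Finset.sum_le_card_nsmul _ _ _ fun x' hx' => ?_
      have hxx : x' - x ≠ 0 := sub_ne_zero.2 (Finset.ne_of_mem_erase hx')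
      have e3 : ∀ b, (x' • D - x • D) *ᵥ b = (x' - x) • (D *ᵥ b) := fun b => by
        rw [← sub_smul, smul_mulVec]
      -- the vectors orthogonal to `D a`
      have e4 : (Finset.univ.filter fun b : I → F => D *ᵥ b ≠ 0 ∧ a ⬝ᵥ (D *ᵥ b) = 0).card = n / q - κ := by
        have f1 := card_hyp (D *ᵥ a) ht
        have f2 : (Finset.univ.filter fun b : I → F => (D *ᵥ a) ⬝ᵥ b = 0) =
            Finset.univ.filter fun b : I → F => a ⬝ᵥ (D *ᵥ b) = 0 := by
          ext b
          simp only [Finset.mem_filter, Finset.mem_univ, true_and]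
          rw [dotProduct_comm, hD.dot b a, neg_eq_zero]
        have f3 : (Finset.univ.filter fun b : I → F => a ⬝ᵥ (D *ᵥ b) = 0).card = n / q := by
          rw [f2] at f1
          exact (Nat.div_eq_of_eq_mul_left (by omega) f1.symm).symm
        have f4 := Finset.card_filter_add_card_filter_not (s := Finset.univ.filter fun b : I → F => a ⬝ᵥ (D *ᵥ b) = 0)
          (fun b => D *ᵥ b = 0)
        rw [f3, Finset.filter_filter, Finset.filter_filter] at f4
        have f5 : (Finset.univ.filter fun b : I → F => a ⬝ᵥ (D *ᵥ b) = 0 ∧ D *ᵥ b = 0) =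
            Finset.univ.filter fun b : I → F => D *ᵥ b = 0 := by
          ext b
          simp only [Finset.mem_filter, Finset.mem_univ, true_and]
          exact ⟨fun h => h.2, fun h => ⟨by rw [h, dotProduct_zero], h⟩⟩
        have f6 : (Finset.univ.filter fun b : I → F => a ⬝ᵥ (D *ᵥ b) = 0 ∧ ¬ D *ᵥ b = 0) =
            Finset.univ.filter fun b : I → F => D *ᵥ b ≠ 0 ∧ a ⬝ᵥ (D *ᵥ b) = 0 := by
          ext b
          simp only [Finset.mem_filter, Finset.mem_univ, true_and]
          exact and_comm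
        rw [f5, f6, ← hκ] at f4
        omega
      rw [← Finset.sum_filter_add_sum_filter_not _ (fun b => a ⬝ᵥ (D *ᵥ b) = 0), Finset.filter_filter,
        Finset.filter_filter]
      have e5 : ∑ b ∈ Finset.univ.filter fun b : I → F => D *ᵥ b ≠ 0 ∧ ¬ a ⬝ᵥ (D *ᵥ b) = 0,
          (Finset.univ.filter fun w => Ev (x • D) a w ∧ Ev (x' • D) b w).card * n ^ 2 = 0 := by
        refine Finset.sum_eq_zero fun b hb => ?_
        rw [Finset.mem_filter] at hb
        rw [card_ev2_zero (x • D) (x' • D) (hD.smul x) a b, zero_mul]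
        rw [e3, dotProduct_smul, smul_eq_mul]
        exact mul_ne_zero hxx hb.2.2
      rw [e5, add_zero, ← e4, mul_comm (q ^ 3 * M), ← smul_eq_mul]
      refine Finset.sum_le_card_nsmul _ _ _ fun b hb => ?_
      rw [Finset.mem_filter] at hb
      by_cases hab : Indep a b
      · exact card_ev2 _ _ a b hab
      · -- proportional vectors are impossible
        have : (Finset.univ.filter fun w => Ev (x • D) a w ∧ Ev (x' • D) b w).card = 0 := by
          rw [Finset.card_eq_zero, Finset.filter_eq_empty_iff]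
          rintro w _ ⟨h1, h2⟩
          rw [Indep] at hab
          push Not at hab
          obtain ⟨t, rfl⟩ := dep_of a b ha hab
          have ht0 : t ≠ 0 := by
            rintro rfl
            apply hb.2.1
            rw [zero_smul, mulVec_zero]
          rw [Ev, mulVec_smul, smul_eq_zero] at h2
          have h3 := h2.resolve_left ht0
          rw [Ev] at h1
          rw [add_mulVec, smul_mulVec] at h1 h3
          have h4 : (x' - x) • (D *ᵥ a) = 0 := by
            rw [sub_smul]
            have := congrArg₂ (· - ·) h3 h1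
            simpa using this
          rw [smul_eq_zero] at h4
          exact h4.elim hxx ht
        rw [this, zero_mul]
        exact Nat.zero_le _

end Pool.Agent.Q128.PI
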