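import Mathlib
import Pool.Agent.H79.LU.Q128_PI_Pow

/-! A translate by a plane: a simple degenerate translate exists. -/

set_option autoImplicit false
set_option linter.all false

open Matrix

namespace Pool.Agent.Q128.PI

open Pool.Agent.Y109.PI

variable {F : Type*} [Field F] {I : Type*} [Fintype I] [DecidableEq I]

/-- a nondegenerate translate on the complement of a plane gives a simple degenerate translate -/
theorem core {r : ℕ} (B : Matrix I I F) (hB : Alt B) (D : Fin r → Matrix I I F) (hD : ∀ i, Alt (D i))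
    (x y α β : I → F) (hαx : α ⬝ᵥ x = 1) (hβx : β ⬝ᵥ x = 0) (hαy : α ⬝ᵥ y = 0) (hβy : β ⬝ᵥ y = 1)
    (hx : ∀ i, ∃ t : F, D i *ᵥ x = t • β) (hy : ∀ i, ∃ t : F, D i *ᵥ y = t • α)
    (c0 : Fin r → F) (hE : ∑ i, c0 i • D i = wdg α β)
    (hnd : ∀ B' : Matrix I I F, Alt B' → ∃ c : Fin r → F, (B' + ∑ i, c i • D i).det ≠ 0) :
    ∃ (c : Fin r → F) (a b : I → F), Indep a b ∧ (B + ∑ i, c i • D i) *ᵥ a = 0 ∧
      (B + ∑ i, c i • D i) *ᵥ b = 0 ∧
      (∀ v, (B + ∑ i, c i • D i) *ᵥ v = 0 → ∃ s t : F, v = s • a + t • b) ∧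
      a ⬝ᵥ (wdg α β *ᵥ b) ≠ 0 := by
  classical
  set Q : Matrix I I F := 1 - (vecMulVec x α + vecMulVec y β) with hQ
  have hQv : ∀ v, Q *ᵥ v = v - ((α ⬝ᵥ v) • x + (β ⬝ᵥ v) • y) := by
    intro v
    rw [hQ, sub_mulVec, one_mulVec, add_mulVec, vecMulVec_mulVec, vecMulVec_mulVec, op_smul_eq_smul,
      op_smul_eq_smul]
  have hαQ : ∀ v, α ⬝ᵥ (Q *ᵥ v) = 0 := by
    intro v
    rw [hQv, dotProduct_sub, dotProduct_add, dotProduct_smul, dotProduct_smul, hαx, hαy]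
    simp
  have hβQ : ∀ v, β ⬝ᵥ (Q *ᵥ v) = 0 := by
    intro v
    rw [hQv, dotProduct_sub, dotProduct_add, dotProduct_smul, dotProduct_smul, hβx, hβy]
    simp
  have hQw : ∀ w, α ⬝ᵥ w = 0 → β ⬝ᵥ w = 0 → Q *ᵥ w = w := by
    intro w h1 h2
    rw [hQv, h1, h2]
    simp
  have hB1 : Alt (Qᵀ * B * Q) := by
    have e : ∀ u v, (Qᵀ * B * Q) u v = (fun k => Q k u) ⬝ᵥ (B *ᵥ fun k => Q k v) := by
      intro u v
      rw [Matrix.mul_assoc, Matrix.mul_apply]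
      simp only [dotProduct, Matrix.transpose_apply]
      refine Finset.sum_congr rfl fun k _ => ?_
      rw [Matrix.mul_apply]
      rfl
    exact ⟨fun u => by rw [e]; exact alt_dot_self' hB _, fun u v => by rw [e, e]; exact alt_dot' hB _ _⟩
  obtain ⟨c, hc⟩ := hnd _ hB1
  set Dc : Matrix I I F := ∑ i, c i • D i with hDc
  have hDcA : Alt Dc := Alt.sum _ _ fun i => (hD i).smul _
  obtain ⟨t1, ht1⟩ : ∃ t : F, Dc *ᵥ x = t • β := by
    choose t ht using hx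
    refine ⟨∑ i, c i * t i, ?_⟩
    rw [hDc, Matrix.sum_mulVec, Finset.sum_smul]
    exact Finset.sum_congr rfl fun i _ => by rw [smul_mulVec, ht, smul_smul]
  obtain ⟨t2, ht2⟩ : ∃ t : F, Dc *ᵥ y = t • α := by
    choose t ht using hy
    refine ⟨∑ i, c i * t i, ?_⟩
    rw [hDc, Matrix.sum_mulVec, Finset.sum_smul]
    exact Finset.sum_congr rfl fun i _ => by rw [smul_mulVec, ht, smul_smul]
  set N : Matrix I I F := Qᵀ * B * Q + Dc with hN
  set C : Matrix I I F := B + Dc with hC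
  have hCA : Alt C := hB.add hDcA
  -- the pairing with vectors of the complement
  have hpair : ∀ w u, α ⬝ᵥ w = 0 → β ⬝ᵥ w = 0 → w ⬝ᵥ (N *ᵥ u) = w ⬝ᵥ (C *ᵥ (Q *ᵥ u)) := by
    intro w u h1 h2
    have e1 : w ⬝ᵥ ((Qᵀ * B * Q) *ᵥ u) = w ⬝ᵥ (B *ᵥ (Q *ᵥ u)) := by
      rw [← mulVec_mulVec, ← mulVec_mulVec, dotProduct_mulVec w Qᵀ, vecMul_transpose, hQw w h1 h2]
    have e2 : u = Q *ᵥ u + ((α ⬝ᵥ u) • x + (β ⬝ᵥ u) • y) := by
      rw [hQv]; abel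
    have e3 : w ⬝ᵥ (Dc *ᵥ u) = w ⬝ᵥ (Dc *ᵥ (Q *ᵥ u)) := by
      conv_lhs => rw [e2]
      rw [mulVec_add, mulVec_add, mulVec_smul, mulVec_smul, ht1, ht2, dotProduct_add, dotProduct_add,
        dotProduct_smul, dotProduct_smul, dotProduct_smul, dotProduct_smul, dotProduct_comm w α, dotProduct_comm w β,
        h1, h2]
      simp
    rw [hN, add_mulVec, dotProduct_add, e1, e3, hC, add_mulVec, dotProduct_add]
  have hsolve : ∀ z : I → F, ∃ u : I → F, ∀ w, α ⬝ᵥ w = 0 → β ⬝ᵥ w = 0 → w ⬝ᵥ (C *ᵥ (z + Q *ᵥ u)) = 0 := by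
    intro z
    refine ⟨N⁻¹ *ᵥ (-(Qᵀ *ᵥ (C *ᵥ z))), fun w h1 h2 => ?_⟩
    rw [mulVec_add, dotProduct_add, ← hpair w _ h1 h2, mulVec_mulVec, Matrix.mul_nonsing_inv _ (Ne.isUnit hc),
      one_mulVec, dotProduct_neg, dotProduct_mulVec w Qᵀ, vecMul_transpose, hQw w h1 h2, add_neg_cancel]
  obtain ⟨ux, hux⟩ := hsolve x
  obtain ⟨uy, huy⟩ := hsolve y
  set a : I → F := x + Q *ᵥ ux with ha
  set b : I → F := y + Q *ᵥ uy with hb
  have hαa : α ⬝ᵥ a = 1 := by rw [ha, dotProduct_add, hαx, hαQ, add_zero]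
  have hβa : β ⬝ᵥ a = 0 := by rw [ha, dotProduct_add, hβx, hβQ, add_zero]
  have hαb : α ⬝ᵥ b = 0 := by rw [hb, dotProduct_add, hαy, hαQ, add_zero]
  have hβb : β ⬝ᵥ b = 1 := by rw [hb, dotProduct_add, hβy, hβQ, add_zero]
  -- nondegeneracy on the complement
  have hW : ∀ v, α ⬝ᵥ v = 0 → β ⬝ᵥ v = 0 → (∀ w, α ⬝ᵥ w = 0 → β ⬝ᵥ w = 0 → w ⬝ᵥ (C *ᵥ v) = 0) → v = 0 := by
    intro v h1 h2 h3
    refine Matrix.eq_zero_of_mulVec_eq_zero hc ?_
    change N *ᵥ v = 0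
    refine dotProduct_eq_zero _ fun w => ?_
    rw [dotProduct_comm]
    have e2 : w = Q *ᵥ w + ((α ⬝ᵥ w) • x + (β ⬝ᵥ w) • y) := by
      rw [hQv]; abel
    have hxN : x ⬝ᵥ (N *ᵥ v) = 0 := by
      rw [hN, add_mulVec, dotProduct_add, ← mulVec_mulVec, ← mulVec_mulVec, dotProduct_mulVec x Qᵀ, vecMul_transpose,
        alt_dot' hDcA, ht1, dotProduct_smul, dotProduct_comm v β, h2, hQv, hαx, hβx]
      simp
    have hyN : y ⬝ᵥ (N *ᵥ v) = 0 := by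
      rw [hN, add_mulVec, dotProduct_add, ← mulVec_mulVec, ← mulVec_mulVec, dotProduct_mulVec y Qᵀ, vecMul_transpose,
        alt_dot' hDcA, ht2, dotProduct_smul, dotProduct_comm v α, h1, hQv, hαy, hβy]
      simp
    rw [e2, add_dotProduct, add_dotProduct, smul_dotProduct, smul_dotProduct, hxN, hyN, smul_zero, smul_zero, add_zero,
      add_zero, hpair _ _ (hαQ w) (hβQ w), hQw v h1 h2]
    exact h3 _ (hαQ w) (hβQ w)
  have hwd : ∀ u v, u ⬝ᵥ (wdg α β *ᵥ v) = (α ⬝ᵥ u) * (β ⬝ᵥ v) - (β ⬝ᵥ u) * (α ⬝ᵥ v) := by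
    intro u v
    rw [wdg_mulVec, dotProduct_sub, dotProduct_smul, dotProduct_smul, dotProduct_comm u α, dotProduct_comm u β,
      smul_eq_mul, smul_eq_mul]
    ring
  set t : F := -(a ⬝ᵥ (C *ᵥ b)) with ht
  have hC' : B + ∑ i, (c + t • c0) i • D i = C + t • wdg α β := by
    rw [hC, hDc, ← hE, Finset.smul_sum, add_assoc, ← Finset.sum_add_distrib]
    congr 1
    refine Finset.sum_congr rfl fun i _ => ?_
    rw [Pi.add_apply, Pi.smul_apply, smul_eq_mul, add_smul, mul_smul]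
  set C' : Matrix I I F := C + t • wdg α β with hC'd
  have hC'A : Alt C' := hCA.add ((alt_wdg α β).smul t)
  have hC'p : ∀ u v, u ⬝ᵥ (C' *ᵥ v) = u ⬝ᵥ (C *ᵥ v) + t * ((α ⬝ᵥ u) * (β ⬝ᵥ v) - (β ⬝ᵥ u) * (α ⬝ᵥ v)) := by
    intro u v
    rw [hC'd, add_mulVec, dotProduct_add, smul_mulVec, dotProduct_smul, hwd, smul_eq_mul]
  have hab0 : a ⬝ᵥ (C' *ᵥ b) = 0 := by
    rw [hC'p, hαa, hβa, hβb, hαb, ht]; ring
  -- the splitting of a vector
  have hsplit : ∀ v : I → F, α ⬝ᵥ (v - ((α ⬝ᵥ v) • a + (β ⬝ᵥ v) • b)) = 0 ∧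
      β ⬝ᵥ (v - ((α ⬝ᵥ v) • a + (β ⬝ᵥ v) • b)) = 0 := by
    intro v
    constructor
    · rw [dotProduct_sub, dotProduct_add, dotProduct_smul, dotProduct_smul, hαa, hαb]; simp
    · rw [dotProduct_sub, dotProduct_add, dotProduct_smul, dotProduct_smul, hβa, hβb]; simp
  have hCa : C' *ᵥ a = 0 := by
    refine dotProduct_eq_zero _ fun v => ?_
    rw [dotProduct_comm]
    obtain ⟨h1, h2⟩ := hsplit v
    set w := v - ((α ⬝ᵥ v) • a + (β ⬝ᵥ v) • b) with hw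
    have e : v = w + ((α ⬝ᵥ v) • a + (β ⬝ᵥ v) • b) := by rw [hw]; abel
    have h3 : w ⬝ᵥ (C' *ᵥ a) = 0 := by
      rw [hC'p, h1, h2, hux w h1 h2]; ring
    have h4 : b ⬝ᵥ (C' *ᵥ a) = 0 := by
      rw [alt_dot' hC'A, hab0, neg_zero]
    rw [e, add_dotProduct, add_dotProduct, smul_dotProduct, smul_dotProduct, h3, h4, alt_dot_self' hC'A]
    simp
  have hCb : C' *ᵥ b = 0 := by
    refine dotProduct_eq_zero _ fun v => ?_
    rw [dotProduct_comm]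
    obtain ⟨h1, h2⟩ := hsplit v
    set w := v - ((α ⬝ᵥ v) • a + (β ⬝ᵥ v) • b) with hw
    have e : v = w + ((α ⬝ᵥ v) • a + (β ⬝ᵥ v) • b) := by rw [hw]; abel
    have h3 : w ⬝ᵥ (C' *ᵥ b) = 0 := by
      rw [hC'p, h1, h2, huy w h1 h2]; ring
    rw [e, add_dotProduct, add_dotProduct, smul_dotProduct, smul_dotProduct, h3, hab0, alt_dot_self' hC'A]
    simp
  refine ⟨c + t • c0, a, b, ?_, ?_, ?_, ?_, ?_⟩
  · by_contra hcon
    have h0 : ∀ i j, a i * b j - a j * b i = 0 := by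
      intro i j
      by_contra h
      exact hcon ⟨i, j, h⟩
    have h1 : (α ⬝ᵥ a) * (β ⬝ᵥ b) - (β ⬝ᵥ a) * (α ⬝ᵥ b) = ∑ i, ∑ j, α i * β j * (a i * b j - a j * b i) := by
      simp only [dotProduct, Finset.sum_mul_sum, mul_sub, Finset.sum_sub_distrib]
      congr 1
      · exact Finset.sum_congr rfl fun i _ => Finset.sum_congr rfl fun j _ => by ring
      · rw [Finset.sum_comm]
        exact Finset.sum_congr rfl fun i _ => Finset.sum_congr rfl fun j _ => by ring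
    rw [hαa, hβb, hβa, hαb] at h1
    simp [h0] at h1
  · rw [hC']; exact hCa
  · rw [hC']; exact hCb
  · intro v hv
    rw [hC'] at hv
    obtain ⟨h1, h2⟩ := hsplit v
    set w := v - ((α ⬝ᵥ v) • a + (β ⬝ᵥ v) • b) with hw
    have h3 : C' *ᵥ w = 0 := by
      rw [hw, mulVec_sub, mulVec_add, mulVec_smul, mulVec_smul, hv, hCa, hCb]
      simp
    have h4 : w = 0 := by
      refine hW w h1 h2 fun w' h5 h6 => ?_
      have h7 := hC'p w' w
      rw [h3, dotProduct_zero, h5, h6] at h7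
      simpa using h7.symm
    refine ⟨α ⬝ᵥ v, β ⬝ᵥ v, ?_⟩
    rw [hw, sub_eq_zero] at h4
    exact h4
  · rw [hwd, hαa, hβb, hβa, hαb]
    simp

end Pool.Agent.Q128.PI
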