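import Mathlib
import Pool.Agent.H79.LU.Q128_PI_Core
import Pool.Agent.H79.LU.Y109_PI_RM

/-! All classes of all periods: relations of real multiplication and primes of degree one. -/

set_option autoImplicit false
set_option linter.all false

open Matrix

noncomputable section

namespace Pool.Agent.Q128.PI

open Pool.Agent.Y109.PI

/-! ### simultaneous congruences modulo prime powers -/

theorem crt_pow (n : ℕ) (a : ℕ → ℤ) : ∃ x : ℤ, ∀ p : ℕ, p.Prime → p ∣ n → 0 < n →
    ((p ^ n.factorization p : ℕ) : ℤ) ∣ x - a p := by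
  classical
  obtain ⟨k, hk⟩ := Nat.chineseRemainderOfFinset (fun p => (a p : ZMod (p ^ n.factorization p)).val)
    (fun p => p ^ n.factorization p) n.primeFactors
    (fun p hp => pow_ne_zero _ (Nat.prime_of_mem_primeFactors hp).ne_zero)
    (fun p hp q hq hpq => Nat.Coprime.pow _ _ ((Nat.coprime_primes (Nat.prime_of_mem_primeFactors hp)
      (Nat.prime_of_mem_primeFactors hq)).2 hpq))
  refine ⟨k, fun p hp hpn hn => ?_⟩
  haveI : NeZero (p ^ n.factorization p) := ⟨pow_ne_zero _ hp.ne_zero⟩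
  have h3 := hk p (Nat.mem_primeFactors.2 ⟨hp, hpn, hn.ne'⟩)
  have h4 := (ZMod.natCast_eq_natCast_iff _ _ _).2 h3
  rw [← ZMod.intCast_zmod_eq_zero_iff_dvd, Int.cast_sub, Int.cast_natCast, h4, ZMod.natCast_val, ZMod.cast_id,
    sub_self]

theorem crt_pow_fun {ι : Type*} (n : ℕ) (a : ℕ → ι → ℤ) :
    ∃ x : ι → ℤ, ∀ p : ℕ, p.Prime → p ∣ n → 0 < n → ∀ i, ((p ^ n.factorization p : ℕ) : ℤ) ∣ x i - a p i := by
  choose x hx using fun i => crt_pow n (fun p => a p i)
  exact ⟨x, fun p hp hpn hn i => hx i p hp hpn hn⟩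

theorem dvd_of_pow (n : ℕ) (hn : 0 < n) (x : ℤ)
    (h : ∀ p : ℕ, p.Prime → p ∣ n → ((p ^ n.factorization p : ℕ) : ℤ) ∣ x) : (n : ℤ) ∣ x := by
  rw [Int.natCast_dvd, Nat.dvd_iff_prime_pow_dvd_dvd]
  intro p k hp hk
  rcases Nat.eq_zero_or_pos k with rfl | hk0
  · simp
  have hpn : p ∣ n := (dvd_pow_self p hk0.ne').trans hk
  have h1 := (hp.pow_dvd_iff_le_factorization hn.ne').1 hk
  exact (pow_dvd_pow p h1).trans (Int.natCast_dvd.1 (h p hp hpn))

/-! ### the vector of a ring homomorphism to the prime field -/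

section

universe v

variable {O : Type v} [CommRing O] {g : ℕ} (ε : Module.Basis (Fin g) ℤ O) (p : ℕ) [hp : Fact p.Prime]
  (φ : O →+* ZMod p)

/-- the values on the basis -/
def fv : Fin g → ZMod p := fun k => φ (ε k)

/-- the vector representing `φ` by the trace form -/
def cv : Fin g → ZMod p := (Dp ε p)⁻¹ *ᵥ fv ε p φ

theorem phi_eq (r : O) : φ r = ∑ k, cd ε p r k * fv ε p φ k := by
  conv_lhs => rw [← ε.sum_repr r]
  rw [map_sum]
  refine Finset.sum_congr rfl fun k _ => ?_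
  rw [zsmul_eq_mul, map_mul, map_intCast, cd, fv]

theorem tr_cd (r s : O) : ((Algebra.trace ℤ O (r * s) : ℤ) : ZMod p) =
    ∑ k, cd ε p r k * ((Algebra.trace ℤ O (ε k * s) : ℤ) : ZMod p) := by
  have h1 : r * s = ∑ k, ε.repr r k • (ε k * s) := by
    conv_lhs => rw [← ε.sum_repr r]
    rw [Finset.sum_mul]
    exact Finset.sum_congr rfl fun m _ => by rw [smul_mul_assoc]
  rw [h1, map_sum, Int.cast_sum]
  refine Finset.sum_congr rfl fun k _ => ?_
  rw [map_zsmul, smul_eq_mul, Int.cast_mul, cd]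

theorem Dp_cd (r : O) (k : Fin g) : (Dp ε p *ᵥ cd ε p r) k = ((Algebra.trace ℤ O (ε k * r) : ℤ) : ZMod p) := by
  rw [mul_comm, tr_cd ε p r (ε k), mulVec, dotProduct]
  refine Finset.sum_congr rfl fun l _ => ?_
  rw [Dp, Matrix.of_apply, mul_comm, mul_comm (ε k)]

theorem Dp_cv (hd : ¬ (p : ℤ) ∣ Algebra.discr ℤ ε) : Dp ε p *ᵥ cv ε p φ = fv ε p φ := by
  have hdet : IsUnit (Dp ε p).det := by
    rw [isUnit_iff_ne_zero, det_Dp]
    exact fun h => hd ((ZMod.intCast_zmod_eq_zero_iff_dvd _ _).1 h)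
  rw [cv, mulVec_mulVec, Matrix.mul_nonsing_inv _ hdet, one_mulVec]

/-- an element of `O` representing `φ` modulo `p` -/
def ev : O := ∑ k, ((cv ε p φ k).val : ℤ) • ε k

theorem cd_ev : cd ε p (ev ε p φ) = cv ε p φ := by
  haveI : NeZero p := ⟨hp.out.ne_zero⟩
  funext k
  rw [cd, ev, map_sum]
  simp only [map_zsmul, Finsupp.coe_finset_sum, Finset.sum_apply, Finsupp.smul_apply, Module.Basis.repr_self]
  rw [Finset.sum_eq_single k]
  · simp
  · intro l _ hl
    simp [Finsupp.single_apply, hl]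
  · intro h; exact absurd (Finset.mem_univ _) h

theorem tr_ev (hd : ¬ (p : ℤ) ∣ Algebra.discr ℤ ε) (r : O) :
    ((Algebra.trace ℤ O (r * ev ε p φ) : ℤ) : ZMod p) = φ r := by
  rw [tr_cd ε p r, phi_eq ε p φ r]
  refine Finset.sum_congr rfl fun k _ => ?_
  rw [← Dp_cd, cd_ev, Dp_cv ε p φ hd]

theorem star (hd : ¬ (p : ℤ) ∣ Algebra.discr ℤ ε) (i l : Fin g) :
    ∑ k, cv ε p φ k * ((Algebra.trace ℤ O (ε k * ε i * ε l) : ℤ) : ZMod p) = fv ε p φ i * fv ε p φ l := by
  have h := tr_cd ε p (ev ε p φ) (ε i * ε l)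
  rw [mul_comm, tr_ev ε p φ hd, map_mul, cd_ev] at h
  rw [fv, fv, h]
  exact Finset.sum_congr rfl fun k _ => by rw [mul_assoc]

theorem phi_ev_ne (hd : ¬ (p : ℤ) ∣ Algebra.discr ℤ ε) : ∑ k, cv ε p φ k * fv ε p φ k ≠ 0 := by
  intro h0
  have h1 : φ (ev ε p φ) = 0 := by rw [phi_eq ε p φ, cd_ev, h0]
  have hdet : (Dp ε p).det ≠ 0 := by
    rw [det_Dp]
    exact fun h => hd ((ZMod.intCast_zmod_eq_zero_iff_dvd _ _).1 h)
  have h2 : cd ε p (ev ε p φ * ev ε p φ) = 0 := by
    refine Matrix.eq_zero_of_mulVec_eq_zero hdet ?_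
    funext k
    rw [Dp_cd, ← mul_assoc, tr_ev ε p φ hd, map_mul, h1, mul_zero]
    rfl
  have h3 : Mp ε p (ev ε p φ * ev ε p φ) = 0 := by
    rw [Mp_eq_sum, h2]
    simp
  have h4 : Mp ε p (ev ε p φ) = 0 := red_Mp ε p hd _ ⟨2, by rw [sq, ← map_mul, h3]⟩
  have h5 := cd_eq_zero_of_Mp ε p h4
  rw [cd_ev] at h5
  have h6 := Dp_cv ε p φ hd
  rw [h5, mulVec_zero] at h6
  have h7 := phi_eq ε p φ 1
  rw [← h6] at h7
  simp at h7

/-- the simple degenerate translate for real multiplication -/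
theorem rm_simple (hg : 0 < g) (hd : ¬ (p : ℤ) ∣ Algebra.discr ℤ ε)
    (B : Matrix (Fin g ⊕ Fin g) (Fin g ⊕ Fin g) (ZMod p)) (hB : Alt B) :
    ∃ (c : Fin g → ZMod p) (a b : Fin g ⊕ Fin g → ZMod p), Indep a b ∧
      (B + ∑ i, c i • red p (dif (rmw ε i))) *ᵥ a = 0 ∧
      (B + ∑ i, c i • red p (dif (rmw ε i))) *ᵥ b = 0 ∧
      (∀ v, (B + ∑ i, c i • red p (dif (rmw ε i))) *ᵥ v = 0 → ∃ s t : ZMod p, v = s • a + t • b) ∧
      a ⬝ᵥ ((∑ i, cv ε p φ i • red p (dif (rmw ε i))) *ᵥ b) ≠ 0 := by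
  classical
  set f := fv ε p φ with hf
  set c0 := cv ε p φ with hc0
  set s : ZMod p := (∑ k, c0 k * f k)⁻¹ with hs
  have hs1 : s * ∑ k, c0 k * f k = 1 := inv_mul_cancel₀ (phi_ev_ne ε p φ hd)
  have hD : ∀ i, Alt (red p (dif (rmw ε i))) := fun i => (alt_dif _).map' _
  have hent : ∀ i u v, red p (dif (rmw ε i)) u v = Sum.elim (fun k => Sum.elim (fun _ => 0)
      (fun l => ((Algebra.trace ℤ O (ε i * ε k * ε l) : ℤ) : ZMod p)) v)
      (fun l => Sum.elim (fun k => -((Algebra.trace ℤ O (ε i * ε k * ε l) : ℤ) : ZMod p)) (fun _ => 0) v) u := by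
    intro i u v
    rcases u with u | u <;> rcases v with v | v <;> simp [red, dif, rmw]
  have hE : ∑ i, c0 i • red p (dif (rmw ε i)) = wdg (Sum.elim f 0) (Sum.elim (0 : Fin g → ZMod p) f) := by
    ext u v
    rw [Matrix.sum_apply]
    simp only [Matrix.smul_apply, hent, smul_eq_mul, wdg, Matrix.of_apply]
    rcases u with u | u <;> rcases v with v | v
    · simp
    · simp only [Sum.elim_inl, Sum.elim_inr, Pi.zero_apply, zero_mul, sub_zero]
      exact star ε p φ hd u v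
    · simp only [Sum.elim_inl, Sum.elim_inr, Pi.zero_apply, zero_mul, zero_sub, mul_neg, Finset.sum_neg_distrib]
      rw [star ε p φ hd v u, mul_comm]
    · simp
  have key := core B hB (fun i => red p (dif (rmw ε i))) hD (Sum.elim (s • c0) 0) (Sum.elim 0 (s • c0))
    (Sum.elim f 0) (Sum.elim 0 f) ?_ ?_ ?_ ?_ ?_ ?_ c0 hE ?_
  · obtain ⟨c, a, b, h1, h2, h3, h4, h5⟩ := key
    exact ⟨c, a, b, h1, h2, h3, h4, by rw [hE]; exact h5⟩
  · simp only [dotProduct, Fintype.sum_sum_type, Sum.elim_inl, Sum.elim_inr, Pi.zero_apply, zero_mul,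
      Finset.sum_const_zero, add_zero, Pi.smul_apply, smul_eq_mul]
    rw [← hs1, Finset.mul_sum]
    exact Finset.sum_congr rfl fun k _ => by ring
  · simp [dotProduct, Fintype.sum_sum_type]
  · simp [dotProduct, Fintype.sum_sum_type]
  · simp only [dotProduct, Fintype.sum_sum_type, Sum.elim_inl, Sum.elim_inr, Pi.zero_apply, zero_mul,
      Finset.sum_const_zero, zero_add, Pi.smul_apply, smul_eq_mul]
    rw [← hs1, Finset.mul_sum]
    exact Finset.sum_congr rfl fun k _ => by ring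
  · intro i
    refine ⟨-(s * f i), ?_⟩
    funext u
    rcases u with u | u
    · simp [mulVec, dotProduct, Fintype.sum_sum_type, hent]
    · simp only [mulVec, dotProduct, Fintype.sum_sum_type, hent, Sum.elim_inl, Sum.elim_inr, Pi.zero_apply, zero_mul,
        mul_zero, Finset.sum_const_zero, add_zero, Pi.smul_apply, smul_eq_mul]
      have h := star ε p φ hd i u
      rw [← hf, ← hc0] at h
      rw [neg_mul, mul_assoc, ← h, Finset.mul_sum, ← Finset.sum_neg_distrib]
      refine Finset.sum_congr rfl fun k _ => ?_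
      rw [mul_comm (ε i) (ε k)]
      ring
  · intro i
    refine ⟨s * f i, ?_⟩
    funext u
    rcases u with u | u
    · simp only [mulVec, dotProduct, Fintype.sum_sum_type, hent, Sum.elim_inl, Sum.elim_inr, Pi.zero_apply, zero_mul,
        mul_zero, Finset.sum_const_zero, zero_add, Pi.smul_apply, smul_eq_mul]
      have h := star ε p φ hd i u
      rw [← hf, ← hc0] at h
      rw [mul_assoc, ← h, Finset.mul_sum]
      refine Finset.sum_congr rfl fun k _ => ?_
      have e : ε i * ε u * ε k = ε k * ε i * ε u := by ring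
      rw [e]
      ring
    · simp [mulVec, dotProduct, Fintype.sum_sum_type, hent]
  · intro B' hB'
    obtain ⟨_, h⟩ := cwI g hg (by simp [two_mul]) B' hB' (fun i => red p (dif (rmw ε i))) hD (by
      have h := rm_ord ε p hg hd
      rw [OrdAt, Nat.card_eq_fintype_card, Fintype.card_subtype] at h
      exact h)
    exact h

end

end Pool.Agent.Q128.PI
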