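import Mathlib
import Pool.Agent.H79.LU.H552R3_SymPred

/-! The index of a Brauer class and finite extensions of the base field. -/

set_option autoImplicit false

open scoped TensorProduct

noncomputable section

namespace Pool.Agent.X213.PI

open Pool.Agent.Helper346.Bra Pool.Agent.Helper18.Br Pool.Agent.H552R3.SymBr Pool.Agent.H552R3.SymPred

universe u

open scoped Matrix.Module in
/-- A representation of a division algebra on columns. -/
theorem dvd_col {F D E : Type u} [Field F] [DivisionRing D] [Algebra F D] [DivisionRing E]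
    [Algebra F E] [FiniteDimensional F E] {t : ℕ} (φ : D →ₐ[F] Matrix (Fin t) (Fin t) E) :
    Module.finrank F D ∣ t * Module.finrank F E := by
  let _ : Module D (Fin t → E) := Module.compHom (Fin t → E) (φ : D →+* Matrix (Fin t) (Fin t) E)
  have : IsScalarTower F D (Fin t → E) := ⟨fun c d v => by
    show φ (c • d) • v = c • (φ d • v)
    rw [map_smul]
    funext i
    rw [Matrix.Module.smul_apply, Pi.smul_apply, Matrix.Module.smul_apply, Finset.smul_sum]
    refine Finset.sum_congr rfl fun j _ => ?_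
    rw [Matrix.smul_apply, smul_eq_mul, smul_eq_mul, smul_mul_assoc]⟩
  have h := Module.finrank_mul_finrank F D (Fin t → E)
  rw [Module.finrank_pi_fintype, Finset.sum_const, Finset.card_univ, Fintype.card_fin,
    smul_eq_mul] at h
  exact ⟨_, h.symm⟩

/-- Wedderburn with classes -/
theorem exists_mat {K : Type u} [Field K] (A : Type u) [Ring A] [Algebra K A]
    [Algebra.IsCentral K A] [IsSimpleRing A] [FiniteDimensional K A] :
    ∃ (t : ℕ) (D : Type u) (_ : DivisionRing D) (_ : Algebra K D) (_ : Algebra.IsCentral K D)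
      (_ : FiniteDimensional K D), 0 < t ∧ Nonempty (A ≃ₐ[K] Matrix (Fin t) (Fin t) D) ∧
      brauerClass K D = brauerClass K A := by
  have := IsArtinianRing.of_finite K A
  obtain ⟨t, ht, D, _, _, _, ⟨e⟩⟩ := IsSimpleRing.exists_algEquiv_matrix_divisionRing_finite K A
  have : Algebra.IsCentral K (Matrix (Fin t) (Fin t) D) := Algebra.IsCentral.of_algEquiv K _ _ e
  have hc : Algebra.IsCentral K D := by
    constructor
    intro d hd
    rw [Subalgebra.mem_center_iff] at hd
    have h1 : Matrix.scalar (Fin t) d ∈ Subalgebra.center K (Matrix (Fin t) (Fin t) D) := by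
      rw [Subalgebra.mem_center_iff]
      intro M
      ext i j
      rw [Matrix.scalar_apply, Matrix.mul_diagonal, Matrix.diagonal_mul, hd]
    have h2 := Algebra.IsCentral.out h1
    obtain ⟨c, hc⟩ := Algebra.mem_bot.1 h2
    have h3 := congrFun (congrFun hc ⟨0, Nat.pos_of_ne_zero ht.out⟩) ⟨0, Nat.pos_of_ne_zero ht.out⟩
    rw [Matrix.scalar_apply, Matrix.diagonal_apply_eq, Matrix.algebraMap_matrix_apply, if_pos rfl] at h3
    exact Algebra.mem_bot.2 ⟨c, h3⟩
  exact ⟨t, D, inferInstance, inferInstance, hc, inferInstance, Nat.pos_of_ne_zero ht.out, ⟨e⟩,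
    (brauerClass_eq_iff (A := A) (B := D)).2 (BrEq.of_matrix ht.out e) |>.symm⟩

/-- **Transfer.** -/
theorem transfer {F K : Type u} [Field F] [Field K] [Algebra F K] [FiniteDimensional F K]
    {α : BrauerGroup.{u, u} F} {N : ℕ} (h : IndDvd (res K α) N) :
    IndDvd α (Module.finrank F K * N) := by
  intro D _ _ _ _ hD
  have i1 : IsSimpleRing (K ⊗[F] D) := isSimple_base F K D
  have i2 : Algebra.IsCentral K (K ⊗[F] D) := isCentral_base F K D
  obtain ⟨t, E, _, _, _, _, ht, ⟨e⟩, hE⟩ := exists_mat (K := K) (K ⊗[F] D)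
  have hres : brauerClass K (K ⊗[F] D) = res K α := by
    rw [← hD]
    rfl
  obtain ⟨s, hs⟩ := finrank_square (K := K) E
  have hsN := h E (hE.trans hres)
  rw [hs, Nat.sqrt_eq'] at hsN
  let _ : Algebra F E := Algebra.compHom E (algebraMap F K)
  have : IsScalarTower F K E := IsScalarTower.of_algebraMap_eq fun _ => rfl
  have : FiniteDimensional F E := Module.Finite.trans K E
  have hdim : Module.finrank F D = t ^ 2 * s ^ 2 := by
    rw [← Module.finrank_baseChange (R := K) (S := F) (M' := D), e.toLinearEquiv.finrank_eq,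
      Module.finrank_matrix, hs, Fintype.card_fin]
    ring
  have hFE : Module.finrank F E = Module.finrank F K * s ^ 2 := by
    rw [← hs, Module.finrank_mul_finrank]
  let φ : D →ₐ[F] Matrix (Fin t) (Fin t) E :=
    { ((e : (K ⊗[F] D) →ₐ[K] Matrix (Fin t) (Fin t) E) :
        (K ⊗[F] D) →+* Matrix (Fin t) (Fin t) E).comp
        ((Algebra.TensorProduct.includeRight : D →ₐ[F] K ⊗[F] D) : D →+* K ⊗[F] D) with
      commutes' := fun c => by
        show e (Algebra.TensorProduct.includeRight (algebraMap F D c)) = _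
        rw [AlgHom.commutes]
        show e (algebraMap K (K ⊗[F] D) (algebraMap F K c)) = _
        rw [e.commutes]
        rfl }
  have hcol := dvd_col φ
  rw [hdim, hFE] at hcol
  have hs0 : 0 < s := by
    rcases Nat.eq_zero_or_pos s with h0 | h0
    · exfalso
      have : 0 < Module.finrank K E := Module.finrank_pos
      rw [hs, h0] at this
      simp at this
    · exact h0
  have htm : t ∣ Module.finrank F K := by
    have h1 : t * (t * s ^ 2) ∣ Module.finrank F K * (t * s ^ 2) := by
      have e1 : t ^ 2 * s ^ 2 = t * (t * s ^ 2) := by ring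
      have e2 : t * (Module.finrank F K * s ^ 2) = Module.finrank F K * (t * s ^ 2) := by ring
      rwa [e1, e2] at hcol
    exact Nat.dvd_of_mul_dvd_mul_right (by positivity) h1
  rw [hdim, ← mul_pow, Nat.sqrt_eq']
  exact mul_dvd_mul htm hsN

theorem symbols_aux {K : Type u} [Field K] {n : ℕ} (hn : 0 < n) {ζ : K} (hζ : IsPrimitiveRoot ζ n)
    {α : BrauerGroup.{u, u} K}
    (hα : α ∈ Subgroup.closure {γ | ∃ a b : Kˣ, IsSym n ζ a b γ}) :
    (∃ r : ℕ, HasRep α (n ^ r)) ∧ ∃ r : ℕ, HasRep α⁻¹ (n ^ r) := by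
  induction hα using Subgroup.closure_induction with
  | mem γ hγ =>
    obtain ⟨a, b, h⟩ := hγ
    rw [isSym_iff hn hζ] at h
    rw [h, ← symCl_inv_right]
    exact ⟨⟨1, by rw [pow_one]; exact hasRep_symCl hn hζ a b⟩,
      ⟨1, by rw [pow_one]; exact hasRep_symCl hn hζ a b⁻¹⟩⟩
  | one =>
    have h : HasRep (1 : BrauerGroup.{u, u} K) (n ^ 0) :=
      ⟨K, inferInstance, inferInstance, inferInstance, inferInstance, inferInstance, rfl, by
        rw [Module.finrank_self, pow_zero, one_pow]⟩
    exact ⟨⟨0, h⟩, ⟨0, by rw [inv_one]; exact h⟩⟩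
  | mul x y _ _ hx hy =>
    obtain ⟨⟨r, hr⟩, ⟨r', hr'⟩⟩ := hx
    obtain ⟨⟨s, hs⟩, ⟨s', hs'⟩⟩ := hy
    refine ⟨⟨r + s, by rw [pow_add]; exact hr.mul hs⟩, ⟨r' + s', ?_⟩⟩
    rw [pow_add, mul_inv]
    exact hr'.mul hs'
  | inv x _ hx => exact ⟨hx.2, by rw [inv_inv]; exact hx.1⟩

/-- the index of a combination of symbols -/
theorem symbols {K : Type u} [Field K] {n : ℕ} (hn : 0 < n) {ζ : K} (hζ : IsPrimitiveRoot ζ n)
    {α : BrauerGroup.{u, u} K}
    (hα : α ∈ Subgroup.closure {γ | ∃ a b : Kˣ, IsSym n ζ a b γ}) : ∃ r : ℕ, IndDvd α (n ^ r) := by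
  obtain ⟨r, hr⟩ := (symbols_aux hn hζ hα).1
  exact ⟨r, hr.indDvd⟩

/-- **Transfer, without the part of the degree prime to the period.** -/
theorem transfer_prime {F K : Type u} [Field F] [Field K] [Algebra F K] [FiniteDimensional F K]
    {n : ℕ} (hn : 0 < n) {ζ : F} (hζ : IsPrimitiveRoot ζ n) {α : BrauerGroup.{u, u} F}
    (hα : α ∈ Subgroup.closure {γ | ∃ a b : Fˣ, IsSym n ζ a b γ}) {m m' : ℕ}
    (hm : Module.finrank F K = m * m') (hm' : m'.Coprime n) {N : ℕ} (h : IndDvd (res K α) N) :
    IndDvd α (m * N) := by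
  obtain ⟨r, hr⟩ := symbols hn hζ hα
  intro D _ _ _ _ hD
  have h1 := transfer h D hD
  have h2 := hr D hD
  have h3 : Nat.Coprime (Nat.sqrt (Module.finrank F D)) m' :=
    Nat.Coprime.coprime_dvd_left h2 (hm'.symm.pow_left r)
  rw [hm] at h1
  rw [mul_right_comm] at h1
  exact h3.dvd_of_dvd_mul_right h1

end Pool.Agent.X213.PI
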