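import Mathlib
import Pool.Agent.H79.LU.Y109_PI_Ord

/-! Nondegenerate translates: the Nullstellensatz condition on the Pfaffian form. -/

set_option autoImplicit false
set_option linter.all false

open Matrix MvPolynomial

noncomputable section

namespace Pool.Agent.R992.PI

open Pool.Agent.Y109.PI Pool.Agent.Helper929

section

variable {p : ℕ} [hp : Fact p.Prime] {κ : Type*} [Fintype κ] [DecidableEq κ]

theorem sum_mono (k : κ → ℕ) : ∑ c : κ → ZMod p, ∏ i, c i ^ k i = ∏ i, ∑ x : ZMod p, x ^ k i := by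
  rw [Finset.prod_univ_sum, Fintype.piFinset_univ]

theorem sum_mono_zero (k : κ → ℕ) (i : κ) (hi : k i < p - 1) : ∑ c : κ → ZMod p, ∏ i, c i ^ k i = 0 := by
  rw [sum_mono]
  refine Finset.prod_eq_zero (Finset.mem_univ i) ?_
  apply FiniteField.sum_pow_lt_card_sub_one
  rw [ZMod.card]
  exact hi

theorem sum_pow_top : ∑ x : ZMod p, x ^ (p - 1) = -1 := by
  classical
  have h1 : ∀ x : ZMod p, x ^ (p - 1) = if x = 0 then 0 else 1 := by
    intro x
    split_ifs with h
    · rw [h, zero_pow]
      have := hp.out.two_le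
      omega
    · exact ZMod.pow_card_sub_one_eq_one h
  simp only [h1]
  rw [Finset.sum_ite, Finset.sum_const_zero, zero_add, Finset.sum_const, nsmul_one]
  have h2 : (Finset.univ.filter fun x : ZMod p => ¬ x = 0).card = p - 1 := by
    have h3 := Finset.card_filter_add_card_filter_not (s := (Finset.univ : Finset (ZMod p))) (fun x => x = 0)
    rw [Finset.card_univ, ZMod.card] at h3
    have h4 : (Finset.univ.filter fun x : ZMod p => x = 0).card = 1 := by
      rw [Finset.filter_eq' Finset.univ (0 : ZMod p), if_pos (Finset.mem_univ _), Finset.card_singleton]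
    omega
  rw [h2, Nat.cast_sub hp.out.one_le, ZMod.natCast_self, Nat.cast_one, zero_sub]

/-- from a monomial with small exponents to a test polynomial -/
theorem exists_test (g : ℕ) (P : MvPolynomial κ (ZMod p)) (hP : P.IsHomogeneous g) (m : κ →₀ ℕ)
    (hm : ∀ i, m i < p) (hc : P.coeff m ≠ 0) :
    ∃ M : MvPolynomial κ (ZMod p), M.totalDegree + g ≤ Fintype.card κ * (p - 1) ∧
      ∑ c : κ → ZMod p, eval c P * eval c M ≠ 0 := by
  have hdeg : ∑ i, m i = g := by
    have h := hP hc
    rw [Finsupp.weight_apply, Finsupp.sum_fintype _ _ (fun i => by simp)] at h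
    simpa using h
  let m' : κ →₀ ℕ := Finsupp.equivFunOnFinite.symm fun i => p - 1 - m i
  have hm' : ∀ i, m' i = p - 1 - m i := fun i => rfl
  refine ⟨monomial m' 1, ?_, ?_⟩
  · have h1 : (monomial m' (1 : ZMod p)).totalDegree ≤ ∑ i, m' i := by
      refine (totalDegree_monomial_le _ _).trans ?_
      rw [Finsupp.sum_fintype _ _ (fun i => rfl)]
      exact le_rfl
    have h2 : ∑ i, m' i + g = Fintype.card κ * (p - 1) := by
      rw [← hdeg, ← Finset.sum_add_distrib]
      rw [Finset.sum_congr rfl (fun i _ => show m' i + m i = p - 1 by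
        have := hm i
        rw [hm']; omega), Finset.sum_const, Finset.card_univ, smul_eq_mul]
    omega
  · have h1 : ∑ c : κ → ZMod p, eval c P * eval c (monomial m' 1) =
        ∑ d ∈ P.support, P.coeff d * ∑ c : κ → ZMod p, ∏ i, c i ^ (d i + m' i) := by
      simp only [Finset.mul_sum]
      rw [Finset.sum_comm]
      refine Finset.sum_congr rfl fun c _ => ?_
      rw [eval_eq', Finset.sum_mul]
      refine Finset.sum_congr rfl fun d _ => ?_
      rw [eval_monomial, one_mul, Finsupp.prod_fintype _ _ (fun i => pow_zero _), mul_assoc,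
        ← Finset.prod_mul_distrib]
      congr 1
      exact Finset.prod_congr rfl fun i _ => (pow_add _ _ _).symm
    rw [h1, Finset.sum_eq_single m]
    · rw [sum_mono]
      rw [Finset.prod_congr rfl (fun i _ => show ∑ x : ZMod p, x ^ (m i + m' i) = -1 by
        have h2 : m i + m' i = p - 1 := by
          have := hm i
          rw [hm']; omega
        rw [h2, sum_pow_top]), Finset.prod_const]
      exact mul_ne_zero hc (pow_ne_zero _ (neg_ne_zero.2 one_ne_zero))
    · intro d hd hdm
      have hdd : ∑ i, d i = g := by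
        have h := hP (mem_support_iff.1 hd)
        rw [Finsupp.weight_apply, Finsupp.sum_fintype _ _ (fun i => by simp)] at h
        simpa using h
      obtain ⟨i, hi⟩ : ∃ i, d i < m i := by
        by_contra hcon
        push Not at hcon
        apply hdm
        have h2 := (Finset.sum_eq_sum_iff_of_le (s := Finset.univ) (f := fun i => m i) (g := fun i => d i)
          (fun i _ => hcon i)).1 (hdeg.trans hdd.symm)
        ext i
        exact (h2 i (Finset.mem_univ _)).symm
      rw [sum_mono_zero (fun i => d i + m' i) i (by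
        have := hm i
        simp only [hm']; omega), mul_zero]
    · intro h
      exact absurd (mem_support_iff.2 hc) h

/-- from a test polynomial to a monomial with small exponents -/
theorem exists_mono (g : ℕ) (P : MvPolynomial κ (ZMod p)) (hP : P.IsHomogeneous g) (M : MvPolynomial κ (ZMod p))
    (hM : M.totalDegree + g ≤ Fintype.card κ * (p - 1)) (hs : ∑ c : κ → ZMod p, eval c P * eval c M ≠ 0) :
    ∃ m : κ →₀ ℕ, (∀ i, m i < p) ∧ P.coeff m ≠ 0 := by
  by_contra hcon
  push Not at hcon
  apply hs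
  have h1 : ∑ c : κ → ZMod p, eval c P * eval c M =
      ∑ d ∈ P.support, ∑ d' ∈ M.support, (P.coeff d * M.coeff d') * ∑ c : κ → ZMod p, ∏ i, c i ^ (d i + d' i) := by
    simp only [Finset.mul_sum]
    rw [Finset.sum_congr rfl (fun d _ => Finset.sum_comm), Finset.sum_comm]
    refine Finset.sum_congr rfl fun c _ => ?_
    rw [eval_eq', eval_eq', Finset.sum_mul_sum]
    refine Finset.sum_congr rfl fun d _ => Finset.sum_congr rfl fun d' _ => ?_
    rw [mul_mul_mul_comm, ← Finset.prod_mul_distrib]
    congr 1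
    exact Finset.prod_congr rfl fun i _ => (pow_add _ _ _).symm
  rw [h1]
  refine Finset.sum_eq_zero fun d hd => Finset.sum_eq_zero fun d' hd' => ?_
  have hd1 := mem_support_iff.1 hd
  have hdd : ∑ i, d i = g := by
    have h := hP hd1
    rw [Finsupp.weight_apply, Finsupp.sum_fintype _ _ (fun i => by simp)] at h
    simpa using h
  have hdd' : ∑ i, d' i ≤ M.totalDegree := by
    have h := le_totalDegree hd'
    rwa [Finsupp.sum_fintype _ _ (fun i => rfl)] at h
  obtain ⟨i0, hi0⟩ : ∃ i, p ≤ d i := by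
    by_contra h
    push Not at h
    exact hd1 (hcon d h)
  obtain ⟨i1, hi1⟩ : ∃ i, d i + d' i < p - 1 := by
    by_contra h
    push Not at h
    have h2 : ∑ i : κ, (p - 1) < ∑ i, (d i + d' i) := by
      refine Finset.sum_lt_sum (fun i _ => h i) ⟨i0, Finset.mem_univ _, ?_⟩
      have := hp.out.two_le
      omega
    rw [Finset.sum_add_distrib, Finset.sum_const, Finset.card_univ, smul_eq_mul] at h2
    omega
  rw [sum_mono_zero (fun i => d i + d' i) i1 hi1, mul_zero]

/-- **Nondegenerate translates from a test polynomial.** -/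
theorem nd_sum (g : ℕ) (b : Matrix (Fin (2 * g)) (Fin (2 * g)) (ZMod p)) (hb : Alt b)
    (j : κ → Matrix (Fin (2 * g)) (Fin (2 * g)) (ZMod p)) (hj : ∀ i, Alt (j i))
    (M : MvPolynomial κ (ZMod p)) (hM : M.totalDegree + g ≤ Fintype.card κ * (p - 1))
    (hs : ∑ c : κ → ZMod p, pf (2 * g) (∑ i, c i • j i) * eval c M ≠ 0) :
    ∃ c : κ → ZMod p, (b + ∑ i, c i • j i).det ≠ 0 := by
  by_contra hcon
  push Not at hcon
  apply hs
  let f : MvPolynomial (Option κ) (ZMod p) :=
    pf (2 * g) (Matrix.of fun u v => C (b u v) * X none + ∑ i, C (j i u v) * X (some i))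
  have hf : f.IsHomogeneous g := by
    refine hom_pf g _ fun u v => ?_
    simp only [Matrix.of_apply]
    refine IsHomogeneous.add ?_ (IsHomogeneous.sum _ _ _ fun i _ => ?_)
    · have := (isHomogeneous_C (Option κ) (b u v)).mul (isHomogeneous_X (ZMod p) (none : Option κ))
      rwa [zero_add] at this
    · have := (isHomogeneous_C (Option κ) (j i u v)).mul (isHomogeneous_X (ZMod p) (some i))
      rwa [zero_add] at this
  have heval : ∀ x : Option κ → ZMod p, eval x f = pf (2 * g) (x none • b + ∑ i, x (some i) • j i) := by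
    intro x
    simp only [f]
    rw [pf_map (eval x)]
    congr 1
    ext u v
    simp only [Matrix.map_apply, Matrix.of_apply, map_add, map_mul, eval_C, eval_X, map_sum, Matrix.add_apply,
      Matrix.smul_apply, Matrix.sum_apply, smul_eq_mul]
    rw [mul_comm]
    congr 1
    exact Finset.sum_congr rfl fun i _ => mul_comm _ _
  let M' : MvPolynomial (Option κ) (ZMod p) := rename some M
  have hzero : ∑ x : Option κ → ZMod p, eval x (f * M') = 0 := by
    apply MvPolynomial.sum_eval_eq_zero
    have h1 : (f * M').totalDegree ≤ g + M.totalDegree :=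
      (totalDegree_mul _ _).trans (Nat.add_le_add hf.totalDegree_le (totalDegree_rename_le _ _))
    rw [ZMod.card, Fintype.card_option]
    have h2 : 0 < p - 1 := by have := hp.out.two_le; omega
    calc (f * M').totalDegree ≤ M.totalDegree + g := by omega
      _ ≤ Fintype.card κ * (p - 1) := hM
      _ < (p - 1) * (Fintype.card κ + 1) := by rw [mul_add, mul_one, mul_comm]; omega
  have hsplit : ∑ x : Option κ → ZMod p, eval x (f * M') =
      ∑ w : ZMod p, ∑ c : κ → ZMod p, eval (fun o : Option κ => Option.elim o w c) (f * M') := by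
    rw [← Fintype.sum_prod_type']
    refine Fintype.sum_equiv (Equiv.piOptionEquivProd) _ _ fun x => ?_
    congr 2
    funext o
    cases o with
    | none => rfl
    | some i => rfl
  rw [hsplit, Finset.sum_eq_single 0] at hzero
  · rw [← hzero]
    refine Finset.sum_congr rfl fun c _ => ?_
    rw [map_mul, heval, eval_rename]
    simp only [Option.elim, zero_smul, zero_add]
    rfl
  · intro w _ hw
    refine Finset.sum_eq_zero fun c _ => ?_
    have halt : Alt (w • b + ∑ i, c i • j i) := (hb.smul w).add (Alt.sum _ _ fun i => (hj i).smul _)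
    have e1 : w • b + ∑ i, c i • j i = w • (b + ∑ i, (w⁻¹ * c i) • j i) := by
      rw [smul_add, Finset.smul_sum]
      simp only [smul_smul, mul_inv_cancel_left₀ hw]
    have h2 : (w • b + ∑ i, c i • j i).det = 0 := by
      rw [e1, Matrix.det_smul, hcon, mul_zero]
    rw [det_zero_iff _ halt] at h2
    rw [map_mul, heval]
    simp only [Option.elim]
    rw [h2, zero_mul]
  · intro h
    exact absurd (Finset.mem_univ _) h

end

/-- The Pfaffian form: a square root of the determinant of the generic member. -/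
def IsPf {I κ : Type*} [Fintype I] [DecidableEq I] [Fintype κ] (w : κ → I → I → ℤ) (P : MvPolynomial κ ℤ) : Prop :=
  P ^ 2 = (Matrix.of fun u v => ∑ i, C (w i u v - w i v u) * X i : Matrix I I (MvPolynomial κ ℤ)).det

section

variable {κ : Type*} [Fintype κ] [DecidableEq κ]

/-- the square of the Pfaffian of an alternating matrix of integral polynomials -/
theorem pf_sq_poly {n : ℕ} (A : Matrix (Fin n) (Fin n) (MvPolynomial κ ℤ)) (hA : ∀ i j, A i j = - A j i) :
    pf n A ^ 2 = A.det := by
  apply MvPolynomial.funext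
  intro x
  have h := pf_sq_int (A.map (eval x)) (fun i j => by rw [Matrix.map_apply, Matrix.map_apply, hA i j, map_neg])
  rw [map_pow, pf_map (eval x), h, RingHom.map_det]
  rfl

/-- **Nondegenerate translates modulo a prime.** -/
theorem nd_prime {I : Type*} [Fintype I] [DecidableEq I] (g : ℕ) (hI : Fintype.card I = 2 * g) (w : κ → I → I → ℤ)
    (P : MvPolynomial κ ℤ) (hP : IsPf w P) (p : ℕ) (hp : p.Prime)
    (hm : ∃ m : κ →₀ ℕ, (∀ i, m i < p) ∧ ¬ (p : ℤ) ∣ P.coeff m) (b : Matrix I I ℤ) (hb : Alt b) :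
    ∃ c : κ → ℤ, (red p (b + ∑ i, c i • dif (w i))).det ≠ 0 := by
  haveI : Fact p.Prime := ⟨hp⟩
  haveI : NeZero p := ⟨hp.ne_zero⟩
  let e : Fin (2 * g) ≃ I := (finCongr hI.symm).trans (Fintype.equivFin I).symm
  let A : Matrix (Fin (2 * g)) (Fin (2 * g)) (MvPolynomial κ ℤ) :=
    Matrix.of fun u v => ∑ i, C (w i (e u) (e v) - w i (e v) (e u)) * X i
  have hA : ∀ i j, A i j = - A j i := by
    intro i j
    simp only [A, Matrix.of_apply, ← Finset.sum_neg_distrib]
    refine Finset.sum_congr rfl fun k _ => ?_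
    rw [← neg_mul, ← C_neg, neg_sub]
  have h1 : pf (2 * g) A ^ 2 = P ^ 2 := by
    rw [pf_sq_poly A hA, hP]
    have : A = (Matrix.of fun u v => ∑ i, C (w i u v - w i v u) * X i : Matrix I I (MvPolynomial κ ℤ)).submatrix e e := rfl
    rw [this, Matrix.det_submatrix_equiv_self]
  have h2 : pf (2 * g) A = P ∨ pf (2 * g) A = -P := sq_eq_sq_iff_eq_or_eq_neg.1 h1
  let Pb : MvPolynomial κ (ZMod p) := MvPolynomial.map (Int.castRingHom (ZMod p)) (pf (2 * g) A)
  have hPb : Pb = pf (2 * g) (A.map (MvPolynomial.map (Int.castRingHom (ZMod p)))) := by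
    simp only [Pb]
    rw [pf_map]
  have hhom : Pb.IsHomogeneous g := by
    rw [hPb]
    refine hom_pf g _ fun u v => ?_
    simp only [A, Matrix.map_apply, Matrix.of_apply, map_sum, map_mul, map_C, map_X]
    refine IsHomogeneous.sum _ _ _ fun i _ => ?_
    have := (isHomogeneous_C κ (Int.castRingHom (ZMod p) (w i (e u) (e v) - w i (e v) (e u)))).mul (isHomogeneous_X (ZMod p) i)
    rwa [zero_add] at this
  obtain ⟨m, hm1, hm2⟩ := hm
  have hc : Pb.coeff m ≠ 0 := by
    have h3 : Pb.coeff m = (((pf (2 * g) A).coeff m : ℤ) : ZMod p) := by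
      simp only [Pb]
      rw [coeff_map, eq_intCast]
    rw [h3]
    intro h4
    rw [ZMod.intCast_zmod_eq_zero_iff_dvd] at h4
    rcases h2 with h2 | h2
    · rw [h2] at h4; exact hm2 h4
    · rw [h2, coeff_neg, dvd_neg] at h4; exact hm2 h4
  obtain ⟨M, hM, hs⟩ := exists_test g Pb hhom m hm1 hc
  have halt : ∀ a : Matrix I I (ZMod p), Alt a → Alt (a.submatrix e e) := fun a ha =>
    ⟨fun u => ha.1 _, fun u v => ha.2 _ _⟩
  have hev : ∀ c : κ → ZMod p, eval c Pb = pf (2 * g) (∑ i, c i • (red p (dif (w i))).submatrix e e) := by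
    intro c
    rw [hPb, pf_map (eval c)]
    congr 1
    ext u v
    simp only [A, Matrix.map_apply, Matrix.of_apply, map_sum, map_mul, map_C, map_X, eval_C, eval_X, Matrix.sum_apply,
      Matrix.smul_apply, Matrix.submatrix_apply, red, dif, smul_eq_mul]
    exact Finset.sum_congr rfl fun i _ => mul_comm _ _
  simp only [hev] at hs
  obtain ⟨c, hc'⟩ := nd_sum g ((red p b).submatrix e e) (halt _ (hb.map' _)) (fun i => (red p (dif (w i))).submatrix e e)
    (fun i => halt _ ((alt_dif (w i)).map' _)) M hM hs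
  refine ⟨fun i => (c i).val, ?_⟩
  rw [red_add_sum]
  simp only [vcast]
  have e2 : ((red p b).submatrix e e + ∑ i, c i • (red p (dif (w i))).submatrix e e) =
      (red p b + ∑ i, c i • red p (dif (w i))).submatrix e e := by
    ext u v
    simp only [Matrix.add_apply, Matrix.sum_apply, Matrix.smul_apply, Matrix.submatrix_apply]
  rw [e2, Matrix.det_submatrix_equiv_self] at hc'
  exact hc'

/-- **Nondegenerate translates modulo a number.** -/
theorem nd_all {I : Type*} [Fintype I] [DecidableEq I] (n g : ℕ) (hn : 0 < n) (hI : Fintype.card I = 2 * g)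
    (w : κ → I → I → ℤ) (P : MvPolynomial κ ℤ) (hP : IsPf w P)
    (hm : ∀ p : ℕ, p.Prime → p ∣ n → ∃ m : κ →₀ ℕ, (∀ i, m i < p) ∧ ¬ (p : ℤ) ∣ P.coeff m)
    (b : Matrix I I ℤ) (hb : Alt b) : ∃ c : κ → ℤ, IsCoprime (b + ∑ i, c i • dif (w i)).det (n : ℤ) := by
  have h1 : ∀ p : ℕ, ∃ c : κ → ℤ, p.Prime → p ∣ n → (red p (b + ∑ i, c i • dif (w i))).det ≠ 0 := by
    intro p
    by_cases hp : p.Prime ∧ p ∣ n
    · obtain ⟨c, hc⟩ := nd_prime g hI w P hP p hp.1 (hm p hp.1 hp.2) b hb
      exact ⟨c, fun _ _ => hc⟩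
    · exact ⟨0, fun a b => absurd ⟨a, b⟩ hp⟩
  choose a ha using h1
  obtain ⟨x, hx⟩ := crt_fun n a
  refine ⟨x, ?_⟩
  rw [Int.isCoprime_iff_gcd_eq_one]
  by_contra hne
  obtain ⟨p, hp, hpd⟩ := Nat.exists_prime_and_dvd hne
  have hp1 : (p : ℤ) ∣ (b + ∑ i, x i • dif (w i)).det :=
    (Int.natCast_dvd_natCast.2 hpd).trans (Int.gcd_dvd_left _ _)
  have hp2 : p ∣ n := by
    have := (Int.natCast_dvd_natCast.2 hpd).trans
      (Int.gcd_dvd_right (b + ∑ i, x i • dif (w i)).det (n : ℤ))
    exact_mod_cast this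
  apply ha p hp hp2
  rw [red_add_sum]
  have h2 : ∀ i, ((a p i : ℤ) : ZMod p) = x i := fun i => (hx p hp hp2 hn i).symm
  simp only [h2]
  rw [← red_add_sum, ← red_det]
  exact (ZMod.intCast_zmod_eq_zero_iff_dvd _ _).2 hp1

end

end Pool.Agent.R992.PI
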