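import Mathlib
import Pool.Agent.H79.LU.R992_PI_Nss
import Pool.Agent.H79.LU.Y109_PI_RM

/-! Several copies of the trace forms of an order. -/

set_option autoImplicit false
set_option linter.all false

open Matrix MvPolynomial

noncomputable section

namespace Pool.Agent.R992.PI

open Pool.Agent.Y109.PI

universe v

/-- determinants of matrices of linear forms -/
theorem hom_det {κ R : Type*} [CommRing R] {e : ℕ} (M : Matrix (Fin e) (Fin e) (MvPolynomial κ R))
    (h : ∀ i j, (M i j).IsHomogeneous 1) : M.det.IsHomogeneous e := by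
  rw [Matrix.det_apply]
  refine IsHomogeneous.sum _ _ _ fun σ _ => ?_
  have h1 : (∏ i, M (σ i) i).IsHomogeneous e := by
    have := IsHomogeneous.prod Finset.univ (fun i => M (σ i) i) (fun _ => 1) (fun i _ => h _ _)
    simpa using this
  rcases Int.units_eq_one_or (Equiv.Perm.sign σ) with h2 | h2
  · rw [h2, one_smul]; exact h1
  · rw [h2, Units.neg_smul, one_smul]; exact h1.neg

variable {O : Type v} [CommRing O] {e : ℕ} (ε : Module.Basis (Fin e) ℤ O) (h : ℕ)

/-- the relations of `h` copies -/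
def cpw (m : Fin e) : (Fin e × Fin h) ⊕ (Fin e × Fin h) → (Fin e × Fin h) ⊕ (Fin e × Fin h) → ℤ := fun u v =>
  Sum.elim (fun a => Sum.elim (fun _ => 0)
    (fun b => if a.2 = b.2 then Algebra.trace ℤ O (ε m * ε a.1 * ε b.1) else 0) v) (fun _ => 0) u

/-- the generic trace form -/
def T0 : Matrix (Fin e) (Fin e) (MvPolynomial (Fin e) ℤ) :=
  Matrix.of fun k l => ∑ m, C (Algebra.trace ℤ O (ε m * ε k * ε l)) * X m

theorem T0_hom : (T0 ε).det.IsHomogeneous e := by
  refine hom_det _ fun k l => ?_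
  simp only [T0, Matrix.of_apply]
  refine IsHomogeneous.sum _ _ _ fun i _ => ?_
  have := (isHomogeneous_C (Fin e) (Algebra.trace ℤ O (ε i * ε k * ε l))).mul (isHomogeneous_X ℤ i)
  rwa [zero_add] at this

theorem gen_eq : (Matrix.of fun u v => ∑ i, C (cpw ε h i u v - cpw ε h i v u) * X i :
      Matrix ((Fin e × Fin h) ⊕ (Fin e × Fin h)) ((Fin e × Fin h) ⊕ (Fin e × Fin h)) (MvPolynomial (Fin e) ℤ)) =
    Matrix.fromBlocks 0 (Matrix.blockDiagonal fun _ : Fin h => T0 ε)
      (-(Matrix.blockDiagonal fun _ : Fin h => T0 ε).transpose) 0 := by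
  ext1 u v
  rcases u with u | u <;> rcases v with v | v
  · simp [cpw]
  · simp only [cpw, Matrix.of_apply, Sum.elim_inl, Sum.elim_inr, sub_zero, Matrix.fromBlocks_apply₁₂,
      Matrix.blockDiagonal_apply, T0]
    split_ifs with h1
    · rfl
    · simp
  · simp only [cpw, Matrix.of_apply, Sum.elim_inl, Sum.elim_inr, zero_sub, Matrix.fromBlocks_apply₂₁,
      Matrix.neg_apply, Matrix.transpose_apply, Matrix.blockDiagonal_apply, T0]
    split_ifs with h1
    · rw [← Finset.sum_neg_distrib]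
      exact Finset.sum_congr rfl fun i _ => by rw [C_neg, neg_mul]
    · simp
  · simp [cpw]

/-- the Pfaffian form is a power of the norm form up to sign -/
theorem pf_cop (P : MvPolynomial (Fin e) ℤ) (hP : IsPf (cpw ε h) P) :
    P = (T0 ε).det ^ h ∨ P = - (T0 ε).det ^ h := by
  rw [IsPf, gen_eq] at hP
  set T : Matrix (Fin e × Fin h) (Fin e × Fin h) (MvPolynomial (Fin e) ℤ) :=
    Matrix.blockDiagonal fun _ : Fin h => T0 ε with hT
  have hdT : T.det = (T0 ε).det ^ h := by
    rw [hT, Matrix.det_blockDiagonal, Finset.prod_const, Finset.card_univ, Fintype.card_fin]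
  have h1 : Matrix.fromBlocks 0 T (-T.transpose) 0 * Matrix.J (Fin e × Fin h) (MvPolynomial (Fin e) ℤ) =
      Matrix.fromBlocks T 0 0 T.transpose := by
    rw [Matrix.J, Matrix.fromBlocks_multiply]
    simp
  have h2 := congrArg Matrix.det h1
  rw [Matrix.det_mul, Matrix.det_fromBlocks_zero₂₁, Matrix.det_transpose, ← hP, hdT] at h2
  have hJ := Matrix.J_det_mul_J_det (Fin e × Fin h) (MvPolynomial (Fin e) ℤ)
  rcases mul_self_eq_one_iff.1 hJ with h3 | h3
  · rw [h3, mul_one, ← sq] at h2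
    exact sq_eq_sq_iff_eq_or_eq_neg.1 h2
  · rw [h3] at h2
    have h4 : ∀ x : Fin e → ℤ, eval x P = 0 ∧ eval x ((T0 ε).det ^ h) = 0 := by
      intro x
      have h5 := congrArg (eval x) h2
      rw [map_mul, map_mul, map_pow, map_neg, map_one] at h5
      have h6 := mul_self_nonneg (eval x ((T0 ε).det ^ h))
      have h7 := sq_nonneg (eval x P)
      constructor
      · exact pow_eq_zero_iff two_ne_zero |>.1 (by linarith)
      · exact mul_self_eq_zero.1 (by linarith)
    left
    apply MvPolynomial.funext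
    intro x
    rw [(h4 x).1, (h4 x).2]

variable (p : ℕ) [hp : Fact p.Prime]

/-- the norm form modulo `p` -/
def Nf : MvPolynomial (Fin e) (ZMod p) :=
  (Matrix.of fun k l => ∑ m, C (Mp ε p (ε m) k l) * X m : Matrix (Fin e) (Fin e) (MvPolynomial (Fin e) (ZMod p))).det

theorem Nf_hom : (Nf ε p).IsHomogeneous e := by
  refine hom_det _ fun k l => ?_
  simp only [Matrix.of_apply]
  refine IsHomogeneous.sum _ _ _ fun i _ => ?_
  have := (isHomogeneous_C (Fin e) (Mp ε p (ε i) k l)).mul (isHomogeneous_X (ZMod p) i)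
  rwa [zero_add] at this

theorem Nf_eval (c : Fin e → ZMod p) : eval c (Nf ε p) = (∑ i, c i • Mp ε p (ε i)).det := by
  rw [Nf, RingHom.map_det]
  congr 1
  ext k l
  simp only [RingHom.mapMatrix_apply, Matrix.map_apply, Matrix.of_apply, map_sum, map_mul, eval_C, eval_X,
    Matrix.sum_apply, Matrix.smul_apply, smul_eq_mul]
  exact Finset.sum_congr rfl fun i _ => mul_comm _ _

theorem T0_eval (c : Fin e → ZMod p) : eval c (MvPolynomial.map (Int.castRingHom (ZMod p)) (T0 ε).det) =
    eval c (Nf ε p) * (Dp ε p).det := by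
  rw [Nf_eval, RingHom.map_det, RingHom.map_det]
  have h1 : (eval c).mapMatrix ((MvPolynomial.map (Int.castRingHom (ZMod p))).mapMatrix (T0 ε)) =
      (∑ i, c i • Mp ε p (ε i)).transpose * Dp ε p := by
    have h2 : (∑ i, c i • Mp ε p (ε i)).transpose * Dp ε p =
        ∑ i, c i • (Matrix.of fun k l => ((Algebra.trace ℤ O (ε i * ε k * ε l) : ℤ) : ZMod p)) := by
      rw [Matrix.transpose_sum, Finset.sum_mul]
      refine Finset.sum_congr rfl fun i _ => ?_
      rw [Matrix.transpose_smul, Matrix.smul_mul, ← tr_mat]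
    rw [h2]
    ext k l
    simp only [RingHom.mapMatrix_apply, Matrix.map_apply, T0, Matrix.of_apply, map_sum, map_mul, map_C, map_X,
      eval_C, eval_X, Matrix.sum_apply, Matrix.smul_apply, smul_eq_mul]
    exact Finset.sum_congr rfl fun i _ => by rw [mul_comm, eq_intCast]
  rw [h1, Matrix.det_mul, Matrix.det_transpose]

theorem count_units (hd : ¬ (p : ℤ) ∣ Algebra.discr ℤ ε) : ∑ c : Fin e → ZMod p, eval c (Nf ε p) ^ (p - 1) ≠ 0 := by
  classical
  have h0 : ∀ c : Fin e → ZMod p, eval c (Nf ε p) ^ (p - 1) =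
      if ¬ (∑ i, c i • Mp ε p (ε i)).det = 0 then 1 else 0 := by
    intro c
    rw [Nf_eval]
    by_cases h : (∑ i, c i • Mp ε p (ε i)).det = 0
    · rw [if_neg (not_not.2 h), h, zero_pow]
      have := hp.out.two_le
      omega
    · rw [if_pos h]
      exact ZMod.pow_card_sub_one_eq_one h
  simp only [h0]
  rw [Finset.sum_boole]
  let B := Equiv.ofBijective _ (comb_bij ε p)
  have hB : ∀ c, ((B c : Rp ε p) : Matrix (Fin e) (Fin e) (ZMod p)) = ∑ i, c i • Mp ε p (ε i) := fun c => rfl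
  have h1 : Nat.card {c : Fin e → ZMod p // ¬ (∑ i, c i • Mp ε p (ε i)).det = 0} = Nat.card (Rp ε p)ˣ := by
    have e1 : {c : Fin e → ZMod p // ¬ (∑ i, c i • Mp ε p (ε i)).det = 0} ≃ {A : Rp ε p // IsUnit A} :=
      B.subtypeEquiv fun c => by rw [isUnit_iff_det, hB]
    have e2 : {A : Rp ε p // IsUnit A} ≃ (Rp ε p)ˣ := (Submonoid.unitsTypeEquivIsUnitSubmonoid (M := Rp ε p)).toEquiv.symm
    exact Nat.card_congr (e1.trans e2)
  intro h2
  rw [ZMod.natCast_eq_zero_iff] at h2
  rw [Nat.card_eq_fintype_card, Fintype.card_subtype] at h1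
  rw [h1] at h2
  exact units_prime ε p hd h2

/-- **The Nullstellensatz condition for copies of trace forms.** -/
theorem cop_mono (hh : h < p) (hd : ¬ (p : ℤ) ∣ Algebra.discr ℤ ε) (P : MvPolynomial (Fin e) ℤ)
    (hP : IsPf (cpw ε h) P) : ∃ m : Fin e →₀ ℕ, (∀ i, m i < p) ∧ ¬ (p : ℤ) ∣ P.coeff m := by
  classical
  have hdet : (Dp ε p).det ≠ 0 := by
    rw [det_Dp]
    exact fun h => hd ((ZMod.intCast_zmod_eq_zero_iff_dvd _ _).1 h)
  let R : MvPolynomial (Fin e) (ZMod p) := MvPolynomial.map (Int.castRingHom (ZMod p)) ((T0 ε).det ^ h)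
  have hR : R.IsHomogeneous (e * h) := ((T0_hom ε).pow h).map _
  have hev : ∀ c, eval c R = (eval c (Nf ε p) * (Dp ε p).det) ^ h := by
    intro c
    simp only [R]
    rw [map_pow, map_pow, T0_eval]
  obtain ⟨m, hm, hc⟩ := exists_mono (e * h) R hR ((Nf ε p) ^ (p - 1 - h)) (by
    have h1 : ((Nf ε p) ^ (p - 1 - h)).totalDegree ≤ e * (p - 1 - h) := ((Nf_hom ε p).pow _).totalDegree_le
    rw [Fintype.card_fin]
    have h2 : e * (p - 1 - h) + e * h = e * (p - 1) := by
      rw [← mul_add]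
      congr 1
      omega
    omega) (by
    have h1 : ∀ c : Fin e → ZMod p, eval c R * eval c ((Nf ε p) ^ (p - 1 - h)) =
        (Dp ε p).det ^ h * eval c (Nf ε p) ^ (p - 1) := by
      intro c
      rw [hev, map_pow, mul_pow, mul_right_comm, ← pow_add, mul_comm]
      congr 2
      omega
    simp only [h1]
    rw [← Finset.mul_sum]
    exact mul_ne_zero (pow_ne_zero _ hdet) (count_units ε p hd))
  refine ⟨m, hm, fun h1 => hc ?_⟩
  have h3 : R.coeff m = ((((T0 ε).det ^ h).coeff m : ℤ) : ZMod p) := by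
    simp only [R]
    rw [coeff_map, eq_intCast]
  rw [h3, ZMod.intCast_zmod_eq_zero_iff_dvd]
  rcases pf_cop ε h P hP with h2 | h2
  · rw [← h2]; exact h1
  · rw [h2, coeff_neg, dvd_neg] at h1; exact h1

end Pool.Agent.R992.PI
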