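import Mathlib
import Pool.Agent.H79.LU.R992_PI_Tow
import Pool.Agent.H79.LU.R992_PI_Cop

/-! Degenerate translates: the Fedder condition on the Pfaffian form. -/

set_option autoImplicit false
set_option linter.all false

open Matrix MvPolynomial

noncomputable section

namespace Pool.Agent.R992.PI

open Pool.Agent.Y109.PI Pool.Agent.Helper929

section

variable {p : ℕ} [hp : Fact p.Prime] {κ : Type*} [Fintype κ] [DecidableEq κ]

/-- **Degenerate translates from a test polynomial.** -/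
theorem zero_sum (g : ℕ) (hg : 0 < g) (b : Matrix (Fin (2 * g)) (Fin (2 * g)) (ZMod p)) (hb : Alt b)
    (j : κ → Matrix (Fin (2 * g)) (Fin (2 * g)) (ZMod p)) (hj : ∀ i, Alt (j i))
    (M : MvPolynomial κ (ZMod p)) (hM : M.totalDegree + g * (p - 1) ≤ Fintype.card κ * (p - 1))
    (hs : ∑ c : κ → ZMod p, pf (2 * g) (∑ i, c i • j i) ^ (p - 1) * eval c M ≠ 0) :
    ∃ c : κ → ZMod p, (b + ∑ i, c i • j i).det = 0 := by
  by_contra hcon
  push Not at hcon
  apply hs
  have h2p : 0 < p - 1 := by have := hp.out.two_le; omega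
  let f : MvPolynomial (Option κ) (ZMod p) :=
    pf (2 * g) (Matrix.of fun u v => C (b u v) * X none + ∑ i, C (j i u v) * X (some i))
  have hf : f.IsHomogeneous g := by
    refine hom_pf g _ fun u v => ?_
    simp only [Matrix.of_apply]
    refine IsHomogeneous.add ?_ (IsHomogeneous.sum _ _ _ fun i _ => ?_)
    · have := (isHomogeneous_C (Option κ) (b u v)).mul (isHomogeneous_X (ZMod p) (none : Option κ))
      rwa [zero_add] at this
    · have := (isHomogeneous_C (Option κ) (j i u v)).mul (isHomogeneous_X (ZMod p) (some i))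
      rwa [zero_add] at this
  have heval : ∀ x : Option κ → ZMod p, eval x f = pf (2 * g) (x none • b + ∑ i, x (some i) • j i) := by
    intro x
    simp only [f]
    rw [pf_map (eval x)]
    congr 1
    ext u v
    simp only [Matrix.map_apply, Matrix.of_apply, map_add, map_mul, eval_C, eval_X, map_sum, Matrix.add_apply,
      Matrix.smul_apply, Matrix.sum_apply, smul_eq_mul]
    rw [mul_comm]
    congr 1
    exact Finset.sum_congr rfl fun i _ => mul_comm _ _
  let M' : MvPolynomial (Option κ) (ZMod p) := rename some M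
  have hzero : ∑ x : Option κ → ZMod p, eval x (f ^ (p - 1) * M') = 0 := by
    apply MvPolynomial.sum_eval_eq_zero
    have h1 : (f ^ (p - 1) * M').totalDegree ≤ g * (p - 1) + M.totalDegree :=
      (totalDegree_mul _ _).trans (Nat.add_le_add (hf.pow _).totalDegree_le (totalDegree_rename_le _ _))
    rw [ZMod.card, Fintype.card_option]
    calc (f ^ (p - 1) * M').totalDegree ≤ M.totalDegree + g * (p - 1) := by omega
      _ ≤ Fintype.card κ * (p - 1) := hM
      _ < (p - 1) * (Fintype.card κ + 1) := by rw [mul_add, mul_one, mul_comm]; omega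
  have hzM : ∑ c : κ → ZMod p, eval c M = 0 := by
    apply MvPolynomial.sum_eval_eq_zero
    rw [ZMod.card]
    have h1 : 0 < g * (p - 1) := Nat.mul_pos hg h2p
    rw [mul_comm (p - 1)]
    omega
  have hsplit : ∑ x : Option κ → ZMod p, eval x (f ^ (p - 1) * M') =
      ∑ w : ZMod p, ∑ c : κ → ZMod p, eval (fun o : Option κ => Option.elim o w c) (f ^ (p - 1) * M') := by
    rw [← Fintype.sum_prod_type']
    refine Fintype.sum_equiv (Equiv.piOptionEquivProd) _ _ fun x => ?_
    congr 2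
    funext o
    cases o with
    | none => rfl
    | some i => rfl
  rw [hsplit, Finset.sum_eq_single 0] at hzero
  · rw [← hzero]
    refine Finset.sum_congr rfl fun c _ => ?_
    rw [map_mul, map_pow, heval, eval_rename]
    simp only [Option.elim, zero_smul, zero_add]
    rfl
  · intro w _ hw
    rw [← hzM]
    refine Finset.sum_congr rfl fun c _ => ?_
    have halt : Alt (w • b + ∑ i, c i • j i) := (hb.smul w).add (Alt.sum _ _ fun i => (hj i).smul _)
    have e1 : w • b + ∑ i, c i • j i = w • (b + ∑ i, (w⁻¹ * c i) • j i) := by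
      rw [smul_add, Finset.smul_sum]
      simp only [smul_smul, mul_inv_cancel_left₀ hw]
    have h2 : (w • b + ∑ i, c i • j i).det ≠ 0 := by
      rw [e1, Matrix.det_smul]
      exact mul_ne_zero (pow_ne_zero _ hw) (hcon _)
    rw [Ne, det_zero_iff _ halt] at h2
    rw [map_mul, map_pow, heval, eval_rename]
    simp only [Option.elim]
    rw [ZMod.pow_card_sub_one_eq_one h2, one_mul]
    rfl
  · intro h
    exact absurd (Finset.mem_univ _) h

end

section

variable {κ : Type*} [Fintype κ] [DecidableEq κ]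

/-- **Degenerate translates modulo a prime.** -/
theorem fed_prime {I : Type*} [Fintype I] [DecidableEq I] (g : ℕ) (hg : 0 < g) (hI : Fintype.card I = 2 * g)
    (w : κ → I → I → ℤ) (P : MvPolynomial κ ℤ) (hP : IsPf w P) (p : ℕ) (hp : p.Prime)
    (hm : ∃ m : κ →₀ ℕ, (∀ i, m i < p) ∧ ¬ (p : ℤ) ∣ (P ^ (p - 1)).coeff m) (b : Matrix I I ℤ) (hb : Alt b) :
    ∃ c : κ → ℤ, (red p (b + ∑ i, c i • dif (w i))).det = 0 := by
  haveI : Fact p.Prime := ⟨hp⟩
  haveI : NeZero p := ⟨hp.ne_zero⟩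
  let e : Fin (2 * g) ≃ I := (finCongr hI.symm).trans (Fintype.equivFin I).symm
  let A : Matrix (Fin (2 * g)) (Fin (2 * g)) (MvPolynomial κ ℤ) :=
    Matrix.of fun u v => ∑ i, C (w i (e u) (e v) - w i (e v) (e u)) * X i
  have hA : ∀ i j, A i j = - A j i := by
    intro i j
    simp only [A, Matrix.of_apply, ← Finset.sum_neg_distrib]
    refine Finset.sum_congr rfl fun k _ => ?_
    rw [← neg_mul, ← C_neg, neg_sub]
  have h1 : pf (2 * g) A ^ 2 = P ^ 2 := by
    rw [pf_sq_poly A hA, hP]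
    have : A = (Matrix.of fun u v => ∑ i, C (w i u v - w i v u) * X i : Matrix I I (MvPolynomial κ ℤ)).submatrix e e := rfl
    rw [this, Matrix.det_submatrix_equiv_self]
  have h2 : pf (2 * g) A ^ (p - 1) = P ^ (p - 1) ∨ pf (2 * g) A ^ (p - 1) = - P ^ (p - 1) := by
    rcases sq_eq_sq_iff_eq_or_eq_neg.1 h1 with h | h
    · left; rw [h]
    · rw [h, neg_pow]
      rcases neg_one_pow_eq_or (MvPolynomial κ ℤ) (p - 1) with h' | h'
      · left; rw [h', one_mul]
      · right; rw [h', neg_one_mul]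
  let Pb : MvPolynomial κ (ZMod p) := MvPolynomial.map (Int.castRingHom (ZMod p)) (pf (2 * g) A)
  have hPb : Pb = pf (2 * g) (A.map (MvPolynomial.map (Int.castRingHom (ZMod p)))) := by
    simp only [Pb]
    rw [pf_map]
  have hhom : Pb.IsHomogeneous g := by
    rw [hPb]
    refine hom_pf g _ fun u v => ?_
    simp only [A, Matrix.map_apply, Matrix.of_apply, map_sum, map_mul, map_C, map_X]
    refine IsHomogeneous.sum _ _ _ fun i _ => ?_
    have := (isHomogeneous_C κ (Int.castRingHom (ZMod p) (w i (e u) (e v) - w i (e v) (e u)))).mul (isHomogeneous_X (ZMod p) i)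
    rwa [zero_add] at this
  obtain ⟨m, hm1, hm2⟩ := hm
  have hc : (Pb ^ (p - 1)).coeff m ≠ 0 := by
    have h3 : (Pb ^ (p - 1)).coeff m = (((pf (2 * g) A ^ (p - 1)).coeff m : ℤ) : ZMod p) := by
      simp only [Pb]
      rw [← map_pow, coeff_map, eq_intCast]
    rw [h3]
    intro h4
    rw [ZMod.intCast_zmod_eq_zero_iff_dvd] at h4
    rcases h2 with h2 | h2
    · rw [h2] at h4; exact hm2 h4
    · rw [h2, coeff_neg, dvd_neg] at h4; exact hm2 h4
  obtain ⟨M, hM, hs⟩ := exists_test (g * (p - 1)) (Pb ^ (p - 1)) (hhom.pow _) m hm1 hc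
  have halt : ∀ a : Matrix I I (ZMod p), Alt a → Alt (a.submatrix e e) := fun a ha =>
    ⟨fun u => ha.1 _, fun u v => ha.2 _ _⟩
  have hev : ∀ c : κ → ZMod p, eval c Pb = pf (2 * g) (∑ i, c i • (red p (dif (w i))).submatrix e e) := by
    intro c
    rw [hPb, pf_map (eval c)]
    congr 1
    ext u v
    simp only [A, Matrix.map_apply, Matrix.of_apply, map_sum, map_mul, map_C, map_X, eval_C, eval_X, Matrix.sum_apply,
      Matrix.smul_apply, Matrix.submatrix_apply, red, dif, smul_eq_mul]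
    exact Finset.sum_congr rfl fun i _ => mul_comm _ _
  simp only [map_pow, hev] at hs
  obtain ⟨c, hc'⟩ := zero_sum g hg ((red p b).submatrix e e) (halt _ (hb.map' _))
    (fun i => (red p (dif (w i))).submatrix e e) (fun i => halt _ ((alt_dif (w i)).map' _)) M hM hs
  refine ⟨fun i => (c i).val, ?_⟩
  rw [red_add_sum]
  simp only [vcast]
  have e2 : ((red p b).submatrix e e + ∑ i, c i • (red p (dif (w i))).submatrix e e) =
      (red p b + ∑ i, c i • red p (dif (w i))).submatrix e e := by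
    ext u v
    simp only [Matrix.add_apply, Matrix.sum_apply, Matrix.smul_apply, Matrix.submatrix_apply]
  rw [e2, Matrix.det_submatrix_equiv_self] at hc'
  exact hc'

/-- a degenerate translate modulo a squarefree number -/
theorem fed_deg {I : Type*} [Fintype I] [DecidableEq I] (n g : ℕ) (hn : Squarefree n) (hg : 0 < g)
    (hI : Fintype.card I = 2 * g) (w : κ → I → I → ℤ) (P : MvPolynomial κ ℤ) (hP : IsPf w P)
    (hm : ∀ p : ℕ, p.Prime → p ∣ n → ∃ m : κ →₀ ℕ, (∀ i, m i < p) ∧ ¬ (p : ℤ) ∣ (P ^ (p - 1)).coeff m)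
    (b : Matrix I I ℤ) (hb : Alt b) :
    ∃ (c : κ → ℤ) (e f : Fin (g - 1) → I → ℤ), ∀ u v,
      (n : ℤ) ∣ (b + ∑ i, c i • dif (w i)) u v - (∑ i, wdg (e i) (f i)) u v := by
  have hn0 : 0 < n := Nat.pos_of_ne_zero hn.ne_zero
  have h1 : ∀ p : ℕ, ∃ (c : κ → ℤ) (e f : Fin (g - 1) × I → ℤ), p.Prime → p ∣ n →
      red p (b + ∑ i, c i • dif (w i)) = ∑ i, wdg (fun u => (e (i, u) : ZMod p)) (fun u => (f (i, u) : ZMod p)) := by
    intro p
    by_cases hp : p.Prime ∧ p ∣ n
    · haveI : Fact p.Prime := ⟨hp.1⟩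
      obtain ⟨c, hc⟩ := fed_prime g hg hI w P hP p hp.1 (hm p hp.1 hp.2) b hb
      obtain ⟨e, f, hef⟩ := sing_decomp g hg hI (red p (b + ∑ i, c i • dif (w i)))
        ((hb.add (Alt.sum _ _ fun i => (alt_dif (w i)).smul _)).map' _) hc
      refine ⟨c, fun q => (e q.1 q.2).val, fun q => (f q.1 q.2).val, fun _ _ => ?_⟩
      rw [hef]
      haveI : NeZero p := ⟨hp.1.ne_zero⟩
      simp only [vcast]
    · exact ⟨0, 0, 0, fun a b => absurd ⟨a, b⟩ hp⟩
  choose a e f haef using h1
  obtain ⟨x, hx⟩ := crt_fun n a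
  obtain ⟨y, hy⟩ := crt_fun n e
  obtain ⟨y', hy'⟩ := crt_fun n f
  refine ⟨x, fun i u => y (i, u), fun i u => y' (i, u), fun u v => ?_⟩
  refine dvd_of_squarefree n hn _ fun p hp hpn => ?_
  rw [← ZMod.intCast_zmod_eq_zero_iff_dvd, Int.cast_sub, sub_eq_zero]
  have h2 : ((b + ∑ i, x i • dif (w i)) u v : ZMod p) = red p (b + ∑ i, x i • dif (w i)) u v := rfl
  rw [h2, red_add_sum]
  have h3 : ∀ i, ((x i : ℤ) : ZMod p) = a p i := fun i => hx p hp hpn hn0 i
  simp only [h3]
  rw [← red_add_sum, haef p hp hpn, Matrix.sum_apply, Matrix.sum_apply, Int.cast_sum]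
  refine Finset.sum_congr rfl fun i _ => ?_
  simp only [wdg, Matrix.of_apply]
  rw [← hy p hp hpn hn0, ← hy' p hp hpn hn0, ← hy p hp hpn hn0, ← hy' p hp hpn hn0]
  push_cast
  ring

end

section

variable {G B : Type*} [CommGroup G] [CommGroup B] {s : G →* G →* B}

/-- product of `g - 1` symbols modulo lower terms -/
theorem sing_block (hanti : ∀ a b, s a b = (s b a)⁻¹) (n : ℕ) (hn : Squarefree n)
    (htors : ∀ a b, s a b ^ n = 1) (ε : G)
    (H : Subgroup G) (hε : ε ∈ H) (hdiag : ∀ a, s a a = 1 ∨ s a a = s a ε) (V : Subgroup B)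
    (hV : ∀ a ∈ H, ∀ b ∈ H, s a b ∈ V) {I : Type*} [Fintype I] [DecidableEq I] (g : ℕ) (hg : 0 < g)
    (hI : Fintype.card I = 2 * g) (z : I → G) {t : ℕ} (w : Fin t → I → I → ℤ)
    (hw : ∀ i, Q s z (w i) ∈ low s H V z) (P : MvPolynomial (Fin t) ℤ) (hP : IsPf w P)
    (hm : ∀ p : ℕ, p.Prime → p ∣ n → ∃ m : Fin t →₀ ℕ, (∀ i, m i < p) ∧ ¬ (p : ℤ) ∣ (P ^ (p - 1)).coeff m)
    (α : B) (hα : α ∈ Subgroup.closure {γ | ∃ a ∈ H ⊔ Subgroup.closure (Set.range z),
      ∃ b ∈ H ⊔ Subgroup.closure (Set.range z), γ = s a b}) :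
    ∃ x y : Fin (g - 1) → G, α * (∏ i, s (x i) (y i))⁻¹ ∈ low s H V z := by
  obtain ⟨w1, hw1⟩ := exists_Q hanti H V hV z α hα
  obtain ⟨c, e, f, h⟩ := fed_deg n g hn hg hI w P hP hm (dif w1) (alt_dif w1)
  refine ⟨fun i => mon z (e i), fun i => mon z (f i), ?_⟩
  have h1 := mod_low hanti n htors ε H hε hdiag V z (w1 + ∑ i, c i • w i) (g - 1) e f (by
    intro u v
    have e1 : (w1 + ∑ i, c i • w i) u v - (w1 + ∑ i, c i • w i) v u = (dif w1 + ∑ i, c i • dif (w i)) u v := by
      rw [← dif_comb]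
      simp only [Pi.add_apply, Matrix.add_apply, Matrix.of_apply, dif]
      ring
    rw [e1]
    exact h u v)
  rw [Q_add, Q_comb] at h1
  have hw0 : ∏ i, Q s z (w i) ^ c i ∈ low s H V z :=
    Subgroup.prod_mem _ fun i _ => Subgroup.zpow_mem _ (hw i) _
  have h3 := Subgroup.mul_mem _ (Subgroup.mul_mem _ hw1 h1) (Subgroup.inv_mem _ hw0)
  have e1 : ∀ p q r : B, α * p⁻¹ * (p * q * r) * q⁻¹ = α * r := by
    intro p q r
    calc α * p⁻¹ * (p * q * r) * q⁻¹ = α * r * (p * p⁻¹) * (q * q⁻¹) := by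
          simp only [mul_assoc, mul_comm, mul_left_comm]
      _ = α * r := by rw [mul_inv_cancel, mul_inv_cancel, mul_one, mul_one]
  rw [e1] at h3
  exact h3

end

universe v

/-- **Trace forms satisfy the Fedder condition.** -/
theorem cop_fed {O : Type v} [CommRing O] {e : ℕ} (ε : Module.Basis (Fin e) ℤ O) (p : ℕ) [hp : Fact p.Prime]
    (hd : ¬ (p : ℤ) ∣ Algebra.discr ℤ ε) (P : MvPolynomial (Fin e) ℤ)
    (hP : IsPf (cpw ε 1) P) : ∃ m : Fin e →₀ ℕ, (∀ i, m i < p) ∧ ¬ (p : ℤ) ∣ (P ^ (p - 1)).coeff m := by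
  classical
  have hdet : (Dp ε p).det ≠ 0 := by
    rw [det_Dp]
    exact fun h => hd ((ZMod.intCast_zmod_eq_zero_iff_dvd _ _).1 h)
  let R : MvPolynomial (Fin e) (ZMod p) := MvPolynomial.map (Int.castRingHom (ZMod p)) ((T0 ε).det ^ (p - 1))
  have hR : R.IsHomogeneous (e * (p - 1)) := ((T0_hom ε).pow (p - 1)).map _
  have hev : ∀ c, eval c R = (eval c (Nf ε p) * (Dp ε p).det) ^ (p - 1) := by
    intro c
    simp only [R]
    rw [map_pow, map_pow, T0_eval]
  obtain ⟨m, hm, hc⟩ := exists_mono (e * (p - 1)) R hR 1 (by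
    rw [totalDegree_one, Fintype.card_fin, zero_add]) (by
    have h1 : ∀ c : Fin e → ZMod p, eval c R * eval c (1 : MvPolynomial (Fin e) (ZMod p)) =
        (Dp ε p).det ^ (p - 1) * eval c (Nf ε p) ^ (p - 1) := by
      intro c
      rw [hev, map_one, mul_one, mul_pow, mul_comm]
    simp only [h1]
    rw [← Finset.mul_sum]
    exact mul_ne_zero (pow_ne_zero _ hdet) (count_units ε p hd))
  refine ⟨m, hm, fun h1 => hc ?_⟩
  have h3 : R.coeff m = ((((T0 ε).det ^ (p - 1)).coeff m : ℤ) : ZMod p) := by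
    simp only [R]
    rw [coeff_map, eq_intCast]
  rw [h3, ZMod.intCast_zmod_eq_zero_iff_dvd]
  rcases pf_cop ε 1 P hP with h2 | h2
  · rw [pow_one] at h2
    rw [← h2]; exact h1
  · rw [pow_one] at h2
    have h4 : P ^ (p - 1) = (T0 ε).det ^ (p - 1) ∨ P ^ (p - 1) = - (T0 ε).det ^ (p - 1) := by
      rw [h2, neg_pow]
      rcases neg_one_pow_eq_or (MvPolynomial (Fin e) ℤ) (p - 1) with h' | h'
      · left; rw [h', one_mul]
      · right; rw [h', neg_one_mul]
    rcases h4 with h4 | h4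
    · rw [← h4]; exact h1
    · rw [h4, coeff_neg, dvd_neg] at h1; exact h1

end Pool.Agent.R992.PI
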