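import Mathlib
import Pool.Agent.H79.LU.R992_PI_Fed

/-! Blocks of symbols with Pfaffian forms. -/

set_option autoImplicit false
set_option linter.all false

open scoped TensorProduct

namespace Pool.Agent.R992.PI

open Pool.Agent.Helper18.Br Pool.Agent.H552R3.SymBr Pool.Agent.H552R3.SymPred Pool.Agent.H552R3.Tsen
  Pool.Agent.Y109.PI

universe u v

/-- The subgroup of `Br(K)` generated by the symbols of degree `n` with entries in the group `G`. -/
def SymGrp {K : Type u} [Field K] (n : ℕ) (ζ : K) (G : Subgroup Kˣ) : Subgroup (BrauerGroup.{u, u} K) :=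
  Subgroup.closure {γ | ∃ a ∈ G, ∃ b ∈ G, IsSym n ζ a b γ}

/-- The integral polynomial `P` is not in the ideal `(p, X_1 ^ p, ..., X_t ^ p)`: it has a monomial with exponents
smaller than `p` whose coefficient is not divisible by `p`. -/
def NotInFrob (p : ℕ) {t : ℕ} (P : MvPolynomial (Fin t) ℤ) : Prop :=
  ∃ m : Fin t →₀ ℕ, (∀ j, m j < p) ∧ ¬ (p : ℤ) ∣ P.coeff m

/-- `P` is the Pfaffian of the generic combination of the matrices `w_j - w_jᵀ`, up to sign:
`P ^ 2 = det (∑_j X_j (w_j - w_jᵀ))`. -/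
def IsPfaffian {I : Type} [Fintype I] [DecidableEq I] {t : ℕ} (w : Fin t → I → I → ℤ)
    (P : MvPolynomial (Fin t) ℤ) : Prop :=
  P ^ 2 = (Matrix.of fun a b => ∑ j, MvPolynomial.C (w j a b - w j b a) * MvPolynomial.X j :
    Matrix I I (MvPolynomial (Fin t) ℤ)).det

/-- The group `H'` is generated by `H` and `2 g` elements `z_a` (`a ∈ I`), and there are integral matrices
`w_1, ..., w_t` with Pfaffian form `P` such that each class `∑ w_j(a, b) (z_a, z_b)` is a combination of symbols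
of degree `n` with one entry in `H` and the other one in `H` or among the `z_a`. -/
def Block {K : Type u} [Field K] (n : ℕ) (ζ : K) (H H' : Subgroup Kˣ) (g : ℕ) {t : ℕ}
    (P : MvPolynomial (Fin t) ℤ) : Prop :=
  ∃ (I : Type) (_ : Fintype I) (_ : DecidableEq I) (z : I → Kˣ) (θ : I → I → BrauerGroup.{u, u} K)
    (w : Fin t → I → I → ℤ), Fintype.card I = 2 * g ∧ H' = H ⊔ Subgroup.closure (Set.range z) ∧
    (∀ a b, IsSym n ζ (z a) (z b) (θ a b)) ∧
    (∀ j, ∏ a, ∏ b, θ a b ^ w j a b ∈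
      Subgroup.closure {γ | ∃ a ∈ H, ∃ b : Kˣ, (b ∈ H ∨ b ∈ Set.range z) ∧ IsSym n ζ a b γ}) ∧
    IsPfaffian w P

/-- `α` is a sum of `N` symbols of degree `n` and an element of `V`. -/
def SumOfSymbols {K : Type u} [Field K] (n : ℕ) (ζ : K) (N : ℕ) (V : Subgroup (BrauerGroup.{u, u} K))
    (α : BrauerGroup.{u, u} K) : Prop :=
  ∃ (x y : Fin N → Kˣ) (σ : Fin N → BrauerGroup.{u, u} K), ∃ β ∈ V,
    (∀ i, IsSym n ζ (x i) (y i) (σ i)) ∧ α = (∏ i, σ i) * β

/-- The matrices `w_i` (`1 ≤ i ≤ e`) of size `2 e h` with the direct sum of `h` copies of the trace form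
`Tr(ε_i ε_k ε_l)` in the upper right corner and zeros elsewhere. -/
noncomputable def traceCopies {O : Type v} [CommRing O] {e : ℕ} (ε : Module.Basis (Fin e) ℤ O) (h : ℕ) :
    Fin e → (Fin e × Fin h) ⊕ (Fin e × Fin h) → (Fin e × Fin h) ⊕ (Fin e × Fin h) → ℤ
  | i, Sum.inl a, Sum.inr b => if a.2 = b.2 then Algebra.trace ℤ O (ε i * ε a.1 * ε b.1) else 0
  | _, _, _ => 0

/-- The first part of `result`. -/
theorem general {k K : Type u} [Field k] [IsAlgClosed k] [Field K] [Algebra k K] (n : ℕ) (hn : 0 < n)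
    (ζ : K) (hζ : IsPrimitiveRoot ζ n) (r : ℕ) (G : Fin (r + 1) → Subgroup Kˣ)
    (hneg : -1 ∈ G (Fin.last r)) (g t : Fin r → ℕ) (P : ∀ i, MvPolynomial (Fin (t i)) ℤ)
    (hB : ∀ i : Fin r, Block n ζ (G i.succ) (G i.castSucc) (g i) (P i))
    (hm : ∀ i, ∀ p : ℕ, p.Prime → p ∣ n → NotInFrob p (P i))
    (α : BrauerGroup.{u, u} K) (hα : α ∈ SymGrp n ζ (G 0)) :
    SumOfSymbols n ζ (∑ i, g i) (SymGrp n ζ (G (Fin.last r))) α ∧
    (∀ m : ℕ, 0 < m → (∀ β ∈ SymGrp n ζ (G (Fin.last r)), IndDvd β m) → IndDvd α (m * n ^ ∑ i, g i)) ∧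
    (∀ L : IntermediateField k K, (∀ a ∈ G (Fin.last r), (a : K) ∈ L) → Algebra.trdeg k L ≤ 1 →
      IndDvd α (n ^ ∑ i, g i)) ∧
    (Squarefree n → ∀ (g' t' : ℕ) (P' : MvPolynomial (Fin t') ℤ), 0 < g' →
      Block n ζ (Units.map (algebraMap k K).toMonoidHom).range (G (Fin.last r)) g' P' →
      (∀ p : ℕ, p.Prime → p ∣ n → NotInFrob p (P' ^ (p - 1))) →
      SumOfSymbols n ζ (∑ i, g i + (g' - 1)) ⊥ α ∧ IndDvd α (n ^ (∑ i, g i + (g' - 1)))) := by
  choose I inst1 inst2 z θ w hI hG hθ hw hP using hB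
  have hnegG : ∀ i, (-1 : Kˣ) ∈ G i := by
    intro i
    induction i using Fin.reverseInduction with
    | last => exact hneg
    | cast i ih =>
      rw [hG i]
      exact Subgroup.mem_sup_left ih
  have hQ : ∀ {J : Type} [Fintype J] (z' : J → Kˣ) (θ' : J → J → BrauerGroup.{u, u} K)
      (hθ' : ∀ a b, IsSym n ζ (z' a) (z' b) (θ' a b)) (w' : J → J → ℤ),
      Q (symHom hn hζ) z' w' = ∏ a, ∏ b, θ' a b ^ w' a b := by
    intro J _ z' θ' hθ' w'
    rw [Q, Fintype.prod_prod_type]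
    refine Finset.prod_congr rfl fun a _ => Finset.prod_congr rfl fun b _ => ?_
    rw [(isSym_iff hn hζ (z' a) (z' b) (θ' a b)).1 (hθ' a b), symHom_apply]
  have hset : ∀ H : Subgroup Kˣ, SymGrp n ζ H = Sy (symHom hn hζ) H := by
    intro H
    rw [SymGrp, Sy]
    congr 1
    ext γ
    simp only [Set.mem_setOf_eq, isSym_iff hn hζ, symHom_apply]
  have hrel : ∀ i j, Q (symHom hn hζ) (z i) (w i j) ∈
      low (symHom hn hζ) (G i.succ) (Sy (symHom hn hζ) (G i.succ)) (z i) := by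
    intro i j
    rw [hQ (z i) (θ i) (hθ i) (w i j)]
    refine (Subgroup.closure_le (low (symHom hn hζ) (G i.succ) (Sy (symHom hn hζ) (G i.succ)) (z i))).2 ?_ (hw i j)
    rintro γ ⟨a, ha, b, hb, hab⟩
    rw [isSym_iff hn hζ] at hab
    subst hab
    rcases hb with hb | ⟨c, rfl⟩
    · exact low_V (symHom hn hζ) (sy_mem ha hb)
    · exact low_sym (symHom hn hζ) (V := Sy (symHom hn hζ) (G i.succ)) (z := z i) (H := G i.succ) ha c
  have hrep : Rep (symHom hn hζ) (∑ i, g i) (Sy (symHom hn hζ) (G (Fin.last r))) α :=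
    tower (s := symHom hn hζ) (fun a b => symCl_anti hn hζ a b) n hn (fun a b => symCl_tors hn hζ a b) (-1)
      (fun a => symCl_diag hn hζ a) r G hnegG g t I hI z hG w hrel P hP hm α (by
        rw [← hset]; exact hα)
  obtain ⟨x, y, β, hβ, hαβ⟩ := hrep
  have hβ' : β ∈ SymGrp n ζ (G (Fin.last r)) := by
    rw [hset]; exact hβ
  have key : ∀ m : ℕ, 0 < m → (IndDvd β m) → IndDvd α (m * n ^ ∑ i, g i) := fun m hm0 hVm => by
    rw [hαβ, mul_comm m]
    exact ((hasRep_prod hn hζ _ x y).mul (hVm.hasRep hm0)).indDvd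
  refine ⟨⟨x, y, fun i => symCl hn hζ (x i) (y i), β, hβ', fun i => (isSym_iff hn hζ _ _ _).2 rfl, hαβ⟩,
    fun m hm0 hall => key m hm0 (hall β hβ'), ?_, ?_⟩
  · intro L hGL hL
    have h5 := key 1 one_pos (by
      have h6 : β ∈ (⊥ : Subgroup (BrauerGroup.{u, u} K)) := by
        refine (?_ : SymGrp n ζ (G (Fin.last r)) ≤ ⊥) hβ'
        rw [SymGrp, Subgroup.closure_le]
        rintro γ ⟨a, ha', b, hb', hab⟩
        have ha := hGL a ha'
        have hb := hGL b hb'
        have hdep : ¬ AlgebraicIndependent k ![(a : K), (b : K)] := by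
          intro h
          have h1 : AlgebraicIndependent k ![(⟨a, ha⟩ : L), (⟨b, hb⟩ : L)] := by
            apply AlgebraicIndependent.of_comp L.val
            convert h using 1
            funext i
            fin_cases i <;> rfl
          have h2 := h1.lift_cardinalMk_le_trdeg
          have h3 := h2.trans (Cardinal.lift_le.2 hL)
          simp at h3
        obtain ⟨w', hw'⟩ : ∃ w : k, algebraMap k K w = ζ :=
          mem_range_of_alg ζ ⟨Polynomial.X ^ n - Polynomial.C 1, Polynomial.X_pow_sub_C_ne_zero hn 1, by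
            simp [hζ.pow_eq_one]⟩
        subst hw'
        have hw2 : IsPrimitiveRoot w' n := hζ.of_map_of_injective (algebraMap k K).injective
        have h4 := (isSym_iff hn (rootK K hw2) a b γ).1 hab
        rw [SetLike.mem_coe, Subgroup.mem_bot, h4]
        exact tsen hn hw2 a b hdep
      rw [Subgroup.mem_bot] at h6
      subst h6
      exact hasRep_one.indDvd)
    rwa [one_mul] at h5
  · rintro hsq g' t' P' hg' ⟨I', _, _, z', θ', w', hI', hG', hθ', hw', hP'⟩ hm'
    let H : Subgroup Kˣ := (Units.map (algebraMap k K).toMonoidHom).range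
    have hneg' : (-1 : Kˣ) ∈ H := by
      refine ⟨-1, ?_⟩
      ext
      simp
    -- constants are `n`-th powers
    have hconst : ∀ a ∈ H, ∀ b, symHom hn hζ a b = 1 := by
      rintro _ ⟨c, rfl⟩ b
      obtain ⟨d, hd⟩ := IsAlgClosed.exists_pow_nat_eq (c : k) hn
      have hd0 : d ≠ 0 := by
        rintro rfl
        rw [zero_pow hn.ne'] at hd
        exact c.ne_zero hd.symm
      have hc : c = (Units.mk0 d hd0) ^ n := by
        ext
        rw [Units.val_pow_eq_pow_val, Units.val_mk0, hd]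
      rw [hc, map_pow, map_pow, MonoidHom.pow_apply, symHom_apply, symCl_tors]
    have hVH : ∀ a ∈ H, ∀ b ∈ H, symHom hn hζ a b ∈ (⊥ : Subgroup (BrauerGroup.{u, u} K)) := fun a ha b _ => by
      rw [hconst a ha b]; exact Subgroup.one_mem _
    have hlow : low (symHom hn hζ) H ⊥ z' ≤ (⊥ : Subgroup (BrauerGroup.{u, u} K)) := by
      refine sup_le le_rfl ?_
      rw [Subgroup.closure_le]
      rintro γ ⟨a, ha, c, rfl⟩
      rw [hconst a ha]
      exact Subgroup.one_mem _
    have hrel' : ∀ j, ∏ a, ∏ b, θ' a b ^ w' j a b = 1 := by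
      intro j
      rw [← Subgroup.mem_bot]
      refine (Subgroup.closure_le (⊥ : Subgroup (BrauerGroup.{u, u} K))).2 ?_ (hw' j)
      rintro γ ⟨a, ha, b, hb, hab⟩
      rw [isSym_iff hn hζ] at hab
      subst hab
      exact (Subgroup.mem_bot).2 (hconst a ha b)
    have hβ2 : β ∈ Subgroup.closure {γ | ∃ a ∈ H ⊔ Subgroup.closure (Set.range z'),
        ∃ b ∈ H ⊔ Subgroup.closure (Set.range z'), γ = symHom hn hζ a b} := by
      rw [← hG']; exact hβ
    obtain ⟨x', y', hst⟩ := sing_block (s := symHom hn hζ) (fun a b => symCl_anti hn hζ a b) n hsq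
      (fun a b => symCl_tors hn hζ a b) (-1) H hneg' (fun a => symCl_diag hn hζ a) ⊥ hVH g' hg' hI' z' w'
      (fun i => by rw [hQ z' θ' hθ' (w' i), hrel' i]; exact Subgroup.one_mem _) P' hP' hm' β hβ2
    have h1 := hlow hst
    rw [Subgroup.mem_bot, mul_inv_eq_one] at h1
    have hβrep : Rep (symHom hn hζ) (g' - 1) ⊥ β := ⟨x', y', 1, Subgroup.one_mem _, by rw [mul_one]; exact h1⟩
    obtain ⟨x2, y2, v, hv, h2⟩ := Rep.add x y hβrep
    have h3 : α = (∏ i, symHom hn hζ (x2 i) (y2 i)) * v := hαβ.trans h2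
    refine ⟨⟨x2, y2, fun i => symCl hn hζ (x2 i) (y2 i), v, hv, fun i => (isSym_iff hn hζ _ _ _).2 rfl, h3⟩, ?_⟩
    rw [Subgroup.mem_bot] at hv
    subst hv
    rw [mul_one] at h3
    rw [h3]
    exact (hasRep_prod hn hζ _ x2 y2).indDvd


/-- every family of matrices of even size has a Pfaffian form -/
theorem exists_pfaffian {I : Type} [Fintype I] [DecidableEq I] (g : ℕ) (hI : Fintype.card I = 2 * g) {t : ℕ}
    (w : Fin t → I → I → ℤ) : ∃ P : MvPolynomial (Fin t) ℤ, IsPfaffian w P := by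
  let e : Fin (2 * g) ≃ I := (finCongr hI.symm).trans (Fintype.equivFin I).symm
  let M : Matrix I I (MvPolynomial (Fin t) ℤ) :=
    Matrix.of fun a b => ∑ j, MvPolynomial.C (w j a b - w j b a) * MvPolynomial.X j
  have hA : ∀ a b, (M.submatrix e e) a b = - (M.submatrix e e) b a := by
    intro a b
    simp only [M, Matrix.submatrix_apply, Matrix.of_apply, ← Finset.sum_neg_distrib]
    refine Finset.sum_congr rfl fun k _ => ?_
    rw [← neg_mul, ← MvPolynomial.C_neg, neg_sub]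
  refine ⟨Pool.Agent.Helper929.pf (2 * g) (M.submatrix e e), ?_⟩
  rw [IsPfaffian, pf_sq_poly _ hA, Matrix.det_submatrix_equiv_self]

end Pool.Agent.R992.PI
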